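import Pool.Agent.MP_adf6dd_al.h59.Spec

/-! Row EXS: existence of irreducible representations, orthogonality, degrees. -/

set_option autoImplicit false

open Matrix

namespace Pool.Agent.MP_adf6dd_al.Red

namespace Exs

/-- a nonzero invariant subspace contains an irreducible one -/
theorem key {E W : Type} [Group E] [AddCommGroup W] [Module ℂ W] [FiniteDimensional ℂ W]
    (σ : E →* Module.End ℂ W) (U : Submodule ℂ W) (hU : U ≠ ⊥) (hi : ∀ x, ∀ u ∈ U, σ x u ∈ U) :
    ∃ (d : ℕ) (ρ : E →* Matrix (Fin d) (Fin d) ℂ) (ι : (Fin d → ℂ) →ₗ[ℂ] W), SR ρ ∧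
      (∀ v, ι v ∈ U) ∧ (∀ x v, ι (ρ x *ᵥ v) = σ x (ι v)) ∧
      ∀ A B : Matrix (Fin d) (Fin d) ℂ, (∀ v, ι (A *ᵥ v) = ι (B *ᵥ v)) → A = B := by
  obtain ⟨V, ⟨h0, hVU, hV⟩, hmin⟩ := (wellFounded_lt (α := Submodule ℂ W)).has_min
    {V | V ≠ ⊥ ∧ V ≤ U ∧ ∀ x, ∀ u ∈ V, σ x u ∈ V} ⟨U, hU, le_rfl, hi⟩
  let e := (Module.finBasis ℂ V).equivFun
  let ι : (Fin (Module.finrank ℂ V) → ℂ) →ₗ[ℂ] W := V.subtype ∘ₗ e.symm.toLinearMap
  have hι : Function.Injective ι := V.injective_subtype.comp e.symm.injective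
  have hm : ∀ v, ι v ∈ V := fun v => (e.symm v).2
  let r : E → Matrix _ _ ℂ := fun x =>
    LinearMap.toMatrix' (e.toLinearMap ∘ₗ (σ x).restrict (hV x) ∘ₗ e.symm.toLinearMap)
  have hr : ∀ x v, ι (r x *ᵥ v) = σ x (ι v) := by
    intro x v
    rw [LinearMap.toMatrix'_mulVec]
    show ((e.symm (e ((σ x).restrict (hV x) (e.symm v))) : V) : W) = _
    rw [e.symm_apply_apply]
    rfl
  have hext : ∀ A B : Matrix (Fin (Module.finrank ℂ V)) (Fin (Module.finrank ℂ V)) ℂ,
      (∀ v, ι (A *ᵥ v) = ι (B *ᵥ v)) → A = B := fun A B h =>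
    Matrix.toLin'.injective (LinearMap.ext fun v => hι (h v))
  let ρ : E →* Matrix _ _ ℂ :=
    { toFun := r
      map_one' := hext _ _ fun v => by rw [hr, map_one, one_mulVec]; rfl
      map_mul' := fun x y => hext _ _ fun v => by
        rw [← mulVec_mulVec, hr, hr, hr, map_mul]; rfl }
  have : Nontrivial V := Submodule.nontrivial_iff_ne_bot.2 h0
  have hne : Nonempty (Fin (Module.finrank ℂ V)) := ⟨⟨0, Module.finrank_pos⟩⟩
  refine ⟨_, ρ, ι, ⟨hne, fun {A} hA => ?_⟩, fun v => hVU (hm v), hr, hext⟩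
  obtain ⟨c, hc⟩ := Module.End.exists_eigenvalue (Matrix.toLin' A)
  have hmem : ∀ v, v ∈ Module.End.eigenspace (Matrix.toLin' A) c ↔ A *ᵥ v = c • v := fun v =>
    Module.End.mem_eigenspace_iff
  have hle : (Module.End.eigenspace (Matrix.toLin' A) c).map ι ≤ V := by
    rintro _ ⟨v, -, rfl⟩
    exact hm v
  have heq := hle.eq_of_not_lt (hmin _ ⟨?_, hle.trans hVU, ?_⟩)
  · refine ⟨c, Matrix.toLin'.injective (LinearMap.ext fun v => ?_)⟩
    obtain ⟨w, hw, e1⟩ := heq.ge (hm v)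
    rw [hι e1] at hw
    rw [Matrix.toLin'_apply, Matrix.toLin'_apply, smul_mulVec, one_mulVec]
    exact (hmem v).1 hw
  · obtain ⟨v, hv, hv0⟩ := (Submodule.ne_bot_iff _).1 hc
    exact (Submodule.ne_bot_iff _).2 ⟨ι v, ⟨v, hv, rfl⟩, fun h => hv0 (hι (h.trans ι.map_zero.symm))⟩
  · rintro x _ ⟨v, hv, rfl⟩
    refine ⟨ρ x *ᵥ v, (hmem _).2 ?_, hr x v⟩
    rw [mulVec_mulVec, hA, ← mulVec_mulVec, (hmem v).1 hv, mulVec_smul]

/-- right translations of functions -/
def reg (E : Type) [Group E] : E →* Module.End ℂ (E → ℂ) where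
  toFun g := LinearMap.funLeft ℂ ℂ fun x => x * g
  map_one' := by ext f x; simp
  map_mul' g h := by ext f x; simp [mul_assoc]

theorem reg_apply {E : Type} [Group E] (g : E) (f : E → ℂ) (x : E) : reg E g f x = f (x * g) := rfl

theorem dvd_pow {a n : ℕ} (ha : a ≠ 0) (h : ∀ p : ℕ, p.Prime → p ∣ a → p ∣ n) :
    ∃ k, a ∣ n ^ k := by
  induction a using Nat.strong_induction_on with
  | _ a ih =>
    by_cases h1 : a = 1
    · exact ⟨0, by simp [h1]⟩
    obtain ⟨p, hp, b, rfl⟩ := Nat.exists_prime_and_dvd h1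
    have hb : b ≠ 0 := right_ne_zero_of_mul ha
    obtain ⟨k, hk⟩ := ih b (lt_mul_of_one_lt_left (Nat.pos_of_ne_zero hb) hp.one_lt) hb
      fun q hq hqb => h q hq (hqb.mul_left p)
    exact ⟨k + 1, by rw [pow_succ']; exact mul_dvd_mul (h p hp (dvd_mul_right p b)) hk⟩

end Exs

open Exs

theorem exsS : ExsStmt := by
  refine ⟨fun E _ _ Z _ lam hl => ?_, fun E _ _ _ => ?_, fun E _ _ χ ψ h1 h2 hne => ?_,
    fun E _ _ d n k ρ h hk => ?_⟩
  · let U : Submodule ℂ (E → ℂ) :=
      { carrier := {f | ∀ (z : Z) (x : E), f (z * x) = lam z * f x}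
        add_mem' := fun {f g} hf hg z x => by rw [Pi.add_apply, hf, hg, Pi.add_apply, mul_add]
        zero_mem' := fun z x => by simp
        smul_mem' := fun c f hf z x => by
          rw [Pi.smul_apply, hf, Pi.smul_apply, smul_eq_mul, smul_eq_mul, mul_left_comm] }
    obtain ⟨d, ρ, ι, h, hU, hr, hext⟩ := key (reg E) U ((Submodule.ne_bot_iff _).2
      ⟨ext0 Z fun z => (lam z : ℂ), fun z x => by
        by_cases hx : x ∈ Z
        · rw [ext0_mem _ hx, ext0_mem _ (Z.mul_mem z.2 hx), ← Units.val_mul, ← map_mul]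
          rfl
        · rw [ext0_not _ hx, mul_zero, ext0_not]
          exact fun h => hx ((Z.mul_mem_cancel_left z.2).1 h), fun h => by
        have := congrFun h 1
        rw [ext0_mem _ Z.one_mem] at this
        exact Units.ne_zero _ this⟩)
      fun g f hf z x => by rw [reg_apply, reg_apply, mul_assoc, hf]
    refine ⟨d, ρ, h, fun z => hext _ _ fun v => ?_⟩
    rw [hr, smul_mulVec, one_mulVec, map_smul]
    funext x
    rw [reg_apply, Pi.smul_apply, smul_eq_mul, ← hl x z, ← hU v, MulAut.conjNormal_apply,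
      inv_mul_cancel_right]
  · classical
    have := Fintype.ofFinite E
    let U : Submodule ℂ (E → ℂ) :=
      { carrier := {f | ∑ x, f x = 0}
        add_mem' := fun {f g} hf hg => by
          show ∑ x, (f x + g x) = 0
          rw [Finset.sum_add_distrib, hf, hg, add_zero]
        zero_mem' := Finset.sum_const_zero
        smul_mem' := fun c f hf => by
          show ∑ x, c * f x = 0
          rw [← Finset.mul_sum, hf, mul_zero] }
    obtain ⟨a, ha⟩ := exists_ne (1 : E)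
    obtain ⟨d, ρ, ι, h, hU, hr, hext⟩ := key (reg E) U ((Submodule.ne_bot_iff _).2
      ⟨Pi.single a 1 - Pi.single 1 1, by
        show ∑ x, ((Pi.single a 1 : E → ℂ) x - (Pi.single 1 1 : E → ℂ) x) = 0
        simp, fun h => by simpa [ha] using congrFun h a⟩)
      fun g f hf => (Equiv.sum_comp (Equiv.mulRight g) f).trans hf
    have hs : ∑ x, ρ x = 0 := hext _ _ fun v => by
      rw [zero_mulVec, map_zero, Matrix.sum_mulVec, map_sum]
      funext y
      simp only [hr, Finset.sum_apply, reg_apply]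
      exact (Equiv.sum_comp (Equiv.mulLeft y) (ι v)).trans (hU v)
    have ht : ∑ x, (ρ x).trace = 0 := by rw [← trace_sum, hs, trace_zero]
    refine ⟨d, ρ, h, by rw [finsum_eq_sum_of_fintype, ht], ?_⟩
    by_contra hc
    push Not at hc
    simp only [hc, trace_one, Finset.sum_const, Finset.card_univ, nsmul_eq_mul] at ht
    exact mul_ne_zero (by exact_mod_cast Fintype.card_ne_zero) h.d_ne ht
  · classical
    have := Fintype.ofFinite E
    have h0 : (Nat.card E : ℂ) ≠ 0 := by exact_mod_cast (Nat.card_pos (α := E)).ne'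
    have := invertibleOfNonzero h0
    obtain ⟨V, hV, hVc⟩ := h1.mem_irr
    obtain ⟨W, hW, hWc⟩ := h2.mem_irr
    have h3 := FDRep.char_orthonormal V W
    rw [hVc, hWc, if_neg] at h3
    · rw [finsum_eq_sum_of_fintype]
      simpa [h0] using h3
    · rintro ⟨i⟩
      exact hne (by rw [← hVc, ← hWc]; exact FDRep.char_iso i)
  · have : Finite ρ.toHomUnits.range := Finite.of_surjective _ ρ.toHomUnits.rangeRestrict_surjective
    have h' : SR ((Units.coeHom _).comp ρ.toHomUnits.range.subtype) :=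
      ⟨h.ne, fun hA => h.comm_scalar fun x => hA ⟨_, x, rfl⟩⟩
    have h1 := h'.dvd_card
    rw [Fintype.card_fin] at h1
    obtain ⟨j, hj⟩ := dvd_pow (a := Nat.card ρ.toHomUnits.range) (n := n) Nat.card_pos.ne'
      fun p hp hd => by
        have := Fact.mk hp
        obtain ⟨⟨_, x, rfl⟩, hx⟩ := exists_prime_orderOf_dvd_card' p hd
        refine hp.dvd_of_dvd_pow (n := k) (hx ▸ orderOf_dvd_of_pow_eq_one ?_)
        exact Subtype.ext (Units.ext (by simpa using hk x))
    exact ⟨j * 2, by rw [pow_mul]; exact pow_dvd_pow_of_dvd (h1.trans hj) 2⟩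

end Pool.Agent.MP_adf6dd_al.Red
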