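import Pool.Agent.MP_adf6dd_al.h59.Spec

/-! The final count. -/

set_option autoImplicit false

namespace Pool.Agent.MP_adf6dd_al.Red

theorem dvd_pow_of_primes {a n : ℕ} (ha : a ≠ 0) (h : ∀ p : ℕ, p.Prime → p ∣ a → p ∣ n) :
    ∃ k, a ∣ n ^ k := by
  induction a using Nat.strong_induction_on with
  | _ a ih =>
    by_cases h1 : a = 1
    · exact ⟨0, by simp [h1]⟩
    obtain ⟨p, hp, b, rfl⟩ := Nat.exists_prime_and_dvd h1
    have hb : b ≠ 0 := right_ne_zero_of_mul ha
    obtain ⟨k, hk⟩ := ih b (lt_mul_of_one_lt_left (Nat.pos_of_ne_zero hb) hp.one_lt) hb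
      fun q hq hqb => h q hq (hqb.mul_left p)
    exact ⟨k + 1, by rw [pow_succ']; exact mul_dvd_mul (h p hp (dvd_mul_right p b)) hk⟩

/-- the exponent as a function of one parameter -/
def ex (M : ℕ) : ℕ := M + 130 * M ^ 6 * (812500 * M ^ 6) ^ 4 *
  ((M + (8 * (M * (812500 * M ^ 6)) ^ 2 + 1 + 1) * (2 * M)) * M)

theorem card_le (hP : PriStmt) (hZ : SizeStmt) (hM : MinStmt) {n s m u M : ℕ} {G : Type}
    [Group G] [Finite G] {R : Subgroup G} (h : Pr n s m u G R) (hK : KK n m ≤ M) (hu : u ≤ M) :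
    Nat.card G ≤ 2 ^ ex M := by
  have hm : m ≤ M := le_trans (Nat.le_mul_of_pos_right _ (by positivity)) hK
  have h1 := hP.2 n s m u _ (fun G _ _ R h V hV hVR => (hM n s m u M G R h hK hu V hV hVR).2) G R h
  have h2 := hZ.1 n s m u _ _ (fun _ _ _ => True) (fun _ _ _ _ _ _ _ _ => trivial)
    (fun G _ _ R h _ V hV hVR => (hM n s m u M G R h hK hu V hV hVR).1) G R h trivial h1
  refine h2.trans (Nat.pow_le_pow_right two_pos ?_)
  unfold ex
  gcongr

theorem pb_ex : PB fun B => ex (B + B * (B * B * (B * B))) := by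
  have h0 := PB.id.add (PB.id.mul ((PB.id.mul PB.id).mul (PB.id.mul PB.id)))
  have h1 := (PB.const 812500).mul (h0.pow 6)
  exact h0.add ((((PB.const 130).mul (h0.pow 6)).mul (h1.pow 4)).mul
    ((h0.add (((((PB.const 8).mul ((h0.mul h1).pow 2)).add (PB.const 1)).add (PB.const 1)).mul
      ((PB.const 2).mul h0))).mul h0))

theorem main (hS : SecStmt) (h2 : Soc2Stmt) (hP : PriStmt) (hZ : SizeStmt) (hM : MinStmt) :
    ∃ C c : ℕ, ∀ (G : Type) [Group G] [Finite G] (P : Finset ℕ) (s : ℕ),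
      (∀ (H : Subgroup G) (T : Type) [Group T] [IsSimpleGroup T] (φ : H →* T), H.IsSubnormal →
        Function.Surjective φ → ¬ IsMulCommutative T →
          Nat.card T ≤ 2 ^ s ∧ (Nat.card T).primeFactors ⊆ P) →
      Nat.card G ≤ 2 ^ (C * (s + 1) ^ c * (fieldMult G + 1) ^ (c * (P.card + 1))) := by
  classical
  obtain ⟨C, c, hc⟩ := pb_ex
  refine ⟨C, 10 * c, fun G _ _ P s hG => ?_⟩
  set m := fieldMult G
  set n := ∏ p ∈ P.filter Nat.Prime, p with hn
  have hw : n.primeFactors.card ≤ P.card := by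
    rw [hn, Nat.primeFactors_prod fun p hp => (Finset.mem_filter.1 hp).2]
    exact Finset.card_filter_le _ _
  have hn0 : 0 < n := Finset.prod_pos fun p hp => (Finset.mem_filter.1 hp).2.pos
  have hsec : Sec n s G := hS.2.2.2 n s G fun H T _ _ φ h1 h2 h3 => by
    obtain ⟨h4, h5⟩ := hG H T φ h1 h2 fun h => h3 h.is_comm.comm
    have : Finite T := Finite.of_surjective φ h2
    refine ⟨h4, dvd_pow_of_primes Nat.card_pos.ne' fun p hp hd => ?_⟩
    exact Finset.dvd_prod_of_mem _ (Finset.mem_filter.2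
      ⟨h5 (Nat.mem_primeFactors.2 ⟨hp, hd, Nat.card_pos.ne'⟩), hp⟩)
  obtain ⟨R, hR⟩ := h2 n s m G ⟨hn0, fb_fieldMult, hsec⟩
  set B := (s + 1) * (m + 1) ^ (10 * (P.card + 1)) with hB
  have hp : 0 < (m + 1) ^ (10 * (P.card + 1)) := by positivity
  have hK : KK n m ≤ B := by
    refine le_trans ?_ (Nat.le_mul_of_pos_left _ (Nat.succ_pos s))
    unfold KK Kw
    refine (Nat.mul_le_mul_right _ (Nat.le_succ m)).trans ?_
    rw [Nat.succ_eq_add_one, ← pow_succ']
    exact Nat.pow_le_pow_right (Nat.succ_pos m) (by omega)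
  have hs : s ≤ B := (Nat.le_succ s).trans (Nat.le_mul_of_pos_right _ hp)
  have h3 := card_le hP hZ hM (M := B + B * (B * B * (B * B))) hR
    (hK.trans (Nat.le_add_right _ _)) (le_trans (by gcongr) (Nat.le_add_left _ _))
  refine h3.trans (Nat.pow_le_pow_right two_pos ((hc B (Nat.mul_pos (Nat.succ_pos s) hp)).trans ?_))
  rw [hB, mul_pow, ← pow_mul, show 10 * (P.card + 1) * c = 10 * c * (P.card + 1) by ring,
    mul_assoc C]
  exact Nat.mul_le_mul_left _ (Nat.mul_le_mul_right _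
    (Nat.pow_le_pow_right (Nat.succ_pos s) (by omega)))

end Pool.Agent.MP_adf6dd_al.Red
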