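import Pool.Agent.MP_adf6dd_al.h59.Spec

/-! Induction from the inertia group of an irreducible representation of a normal subgroup. -/

set_option autoImplicit false

open Matrix

namespace Pool.Agent.MP_adf6dd_al.Red

namespace Ind

/-- orthogonality of the matrix coefficients of two representations with orthogonal traces -/
theorem orth {E ι : Type} [Group E] [Fintype E] [Fintype ι] [DecidableEq ι]
    {ρ σ : E →* Matrix ι ι ℂ} (h : SR ρ) (h' : SR σ)
    (h0 : ∑ w, (σ w).trace * (ρ w⁻¹).trace = 0) (A B : Matrix ι ι ℂ) :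
    ∑ z, (σ z * A).trace * (ρ z⁻¹ * B).trace = 0 := by
  obtain ⟨c, hc⟩ := h.comm_scalar (A := ∑ w, (σ w).trace • ρ w⁻¹) (fun u => by
    rw [Finset.sum_mul, Finset.mul_sum, ← Equiv.sum_comp (MulAut.conj u).toEquiv]
    refine Finset.sum_congr rfl fun w _ => ?_
    have e : (σ (u * w * u⁻¹)).trace = (σ w).trace := (IsChar.of σ fun _ => rfl).conj u w
    show ((σ (u * w * u⁻¹)).trace • ρ (u * w * u⁻¹)⁻¹) * ρ u = _
    rw [e, smul_mul_assoc, mul_smul_comm, ← map_mul, ← map_mul]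
    congr 2
    group)
  have h1 := congrArg trace hc
  rw [trace_sum] at h1
  simp only [trace_smul, smul_eq_mul, h0, trace_one] at h1
  rw [(mul_eq_zero.1 h1.symm).resolve_right h.d_ne, zero_smul] at hc
  have h2 := h'.fourier 1
  simp only [one_mul] at h2
  refine (mul_eq_zero.1 ?_).resolve_left h'.c_ne
  have h3 : ∀ z, (Nat.card E : ℂ) / Fintype.card ι * ((σ z * A).trace * (ρ z⁻¹ * B).trace) =
      ∑ w, (σ w).trace * ((σ (w⁻¹ * z) * A).trace * (ρ z⁻¹ * B).trace) := by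
    intro z
    have := congrArg (fun M => (M * (σ z * A)).trace * (ρ z⁻¹ * B).trace) h2
    simp only [Finset.sum_mul, trace_sum, smul_mul_assoc, trace_smul, smul_eq_mul, one_mul,
      mul_assoc] at this
    rw [← this]
    simp only [map_mul, mul_assoc]
  rw [Finset.mul_sum]
  simp only [h3]
  rw [Finset.sum_comm]
  have h4 : ∀ w, ∑ z, (σ w).trace * ((σ (w⁻¹ * z) * A).trace * (ρ z⁻¹ * B).trace) =
      ∑ z, (σ z * A).trace * (ρ z⁻¹ * ((σ w).trace • ρ w⁻¹) * B).trace := by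
    intro w
    rw [← Equiv.sum_comp (Equiv.mulLeft w)]
    refine Finset.sum_congr rfl fun z _ => ?_
    simp only [Equiv.coe_mulLeft, inv_mul_cancel_left, _root_.mul_inv_rev, map_mul, mul_smul_comm,
      smul_mul_assoc, trace_smul, smul_eq_mul]
    ring
  simp only [h4]
  rw [Finset.sum_comm]
  refine Finset.sum_eq_zero fun z _ => ?_
  rw [← Finset.mul_sum, ← trace_sum, ← Finset.sum_mul, ← Finset.mul_sum, hc]
  simp

variable {G : Type} [Group G]

/-- the criterion of Mackey -/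
theorem mackey [Fintype G] {T : Subgroup G} {ψ : T → ℂ} (hψ : IsIrr ψ)
    (hT : ∀ x, x ∉ T → ∑ g, ext0 T ψ (x⁻¹ * g * x) * ext0 T ψ g⁻¹ = 0) : IsIrr (ind T ψ) := by
  classical
  have := Fintype.ofFinite T
  refine isIrr_iff.2 ⟨hψ.1.ind, ?_⟩
  have h0 : (Nat.card T : ℂ) ≠ 0 := by exact_mod_cast (Nat.card_pos (α := T)).ne'
  set f := ext0 T ψ with hf
  have hI : ∀ x : G, ∑ g, f (x⁻¹ * g * x) * f g⁻¹ = if x ∈ T then (Nat.card T : ℂ) else 0 := by
    intro x
    split_ifs with hx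
    · simp only [hf, ext0_conj hψ.1 hx]
      rw [sum_ext0 T _ (fun g hg => by rw [ext0_not _ hg, zero_mul]), ← (isIrr_iff.1 hψ).2]
      refine Finset.sum_congr rfl fun t _ => ?_
      rw [ext0_mem _ t.2, ext0_mem _ (T.inv_mem t.2)]
      rfl
    · exact hT x hx
  have h6 : ∀ y : G, ∑ g, ∑ x, f (x⁻¹ * g * x) * f (y⁻¹ * g⁻¹ * y) =
      (Nat.card T : ℂ) * Nat.card T := by
    intro y
    rw [← Equiv.sum_comp (MulAut.conj y).toEquiv]
    have : ∀ g, ∑ x, f (x⁻¹ * (MulAut.conj y).toEquiv g * x) *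
        f (y⁻¹ * ((MulAut.conj y).toEquiv g)⁻¹ * y) = ∑ x, f (x⁻¹ * g * x) * f g⁻¹ := by
      intro g
      rw [← Equiv.sum_comp (Equiv.mulLeft y)]
      refine Finset.sum_congr rfl fun x _ => ?_
      congr 2 <;> simp [mul_assoc]
    simp only [this]
    rw [Finset.sum_comm]
    simp only [hI]
    rw [sum_ext0 T _ (fun g hg => if_neg hg)]
    simp [Nat.card_eq_fintype_card]
  simp only [ind_eq, ← hf]
  have h7 : ∀ g : G, ((Nat.card T : ℂ)⁻¹ * ∑ x, f (x⁻¹ * g * x)) *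
      ((Nat.card T : ℂ)⁻¹ * ∑ y, f (y⁻¹ * g⁻¹ * y)) = ((Nat.card T : ℂ)⁻¹ * (Nat.card T : ℂ)⁻¹) *
        ∑ y, ∑ x, f (x⁻¹ * g * x) * f (y⁻¹ * g⁻¹ * y) := by
    intro g
    rw [Finset.sum_comm, ← Finset.sum_mul_sum]; ring
  simp only [h7]
  rw [← Finset.mul_sum, Finset.sum_comm]
  simp only [h6]
  rw [Finset.sum_const, Finset.card_univ, ← Nat.card_eq_fintype_card, nsmul_eq_mul]
  field_simp

end Ind

open Ind in
theorem indS (hX : ExsStmt) : IndStmt := by
  intro G _ _ E T _ hET d ρ hρ hT ψ hψ hA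
  have := Fintype.ofFinite G
  have := Fintype.ofFinite E
  have hF : ∀ g : G, ∃ A : Matrix (Fin d) (Fin d) ℂ, ∀ z : E,
      ext0 T ψ (z * g) = (ρ z * A).trace := by
    intro g
    by_cases hg : g ∈ T
    · obtain ⟨A, h⟩ := hA ⟨g, hg⟩
      exact ⟨A, fun z => by rw [ext0_mem _ (T.mul_mem (hET z.2) hg), ← h]; rfl⟩
    · refine ⟨0, fun z => ?_⟩
      rw [mul_zero, trace_zero, ext0_not]
      exact fun h => hg ((T.mul_mem_cancel_left (hET z.2)).1 h)
  refine ⟨mackey hψ fun x hx => ?_, fun z a ha => ind_mul _ _ fun x g => ?_, fun c c0 hc => ?_⟩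
  · obtain ⟨z0, hz⟩ := hT x⁻¹ (by simpa using hx)
    let σ : E →* Matrix (Fin d) (Fin d) ℂ := ρ.comp (MulAut.conjNormal x⁻¹ : MulAut E).toMonoidHom
    have hσ : SR σ := ⟨hρ.ne, fun h => hρ.comm_scalar fun y => by
      obtain ⟨w, rfl⟩ := (MulAut.conjNormal x⁻¹ : MulAut E).surjective y
      exact h w⟩
    have h0 := hX.2.2.1 E _ _ hσ.isIrr hρ.isIrr fun e => hz (congrFun e z0)
    rw [finsum_eq_sum_of_fintype] at h0
    have h1 : ∀ z : E, ∑ g, ext0 T ψ (x⁻¹ * g * x) * ext0 T ψ g⁻¹ =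
        ∑ g, ext0 T ψ (x⁻¹ * (z * g) * x) * ext0 T ψ (z * g)⁻¹ := fun z =>
      (Equiv.sum_comp (Equiv.mulLeft (z : G))
        (fun g => ext0 T ψ (x⁻¹ * g * x) * ext0 T ψ g⁻¹)).symm
    have h2 : ∑ z : E, ∑ g, ext0 T ψ (x⁻¹ * (z * g) * x) * ext0 T ψ (z * g)⁻¹ = 0 := by
      rw [Finset.sum_comm]
      refine Finset.sum_eq_zero fun g _ => ?_
      obtain ⟨A, h3⟩ := hF (x⁻¹ * g * x)
      obtain ⟨B, h4⟩ := hF g⁻¹
      rw [← orth hρ hσ h0 A B]
      refine Finset.sum_congr rfl fun z _ => ?_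
      rw [← h4, ← ext0_conj hψ.1 (hET z.2) ((z : G) * g)⁻¹]
      refine congrArg₂ _ (Eq.trans ?_ (h3 (MulAut.conjNormal x⁻¹ z))) ?_ <;> congr 1 <;>
        simp [mul_assoc]
    simp only [← h1] at h2
    rw [Finset.sum_const, nsmul_eq_mul] at h2
    exact (mul_eq_zero.1 h2).resolve_left (by exact_mod_cast Fintype.card_ne_zero)
  · obtain ⟨A, h⟩ := hF g
    have h1 := h 1
    have h2 := h (MulAut.conjNormal x⁻¹ z)
    rw [ha, smul_mul_assoc, trace_smul, smul_eq_mul] at h2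
    rw [map_one, OneMemClass.coe_one, one_mul] at h1
    rw [h1, ← h2]
    congr 1
    simp
  · have h0 : (Nat.card T : ℂ) ≠ 0 := by exact_mod_cast (Nat.card_pos (α := T)).ne'
    refine ⟨(Nat.card T : ℂ)⁻¹ * c, mul_ne_zero (inv_ne_zero h0) c0, fun v => ?_⟩
    rw [ind_eq, finsum_eq_sum_of_fintype, ← Equiv.sum_comp (Equiv.inv G)
      (fun x => (ρ (MulAut.conjNormal x v)).trace), mul_assoc, Finset.mul_sum _ _ c]
    congr 1
    refine Finset.sum_congr rfl fun x _ => ?_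
    rw [← hc, ← ext0_mem ψ]
    congr 1
    simp

end Pool.Agent.MP_adf6dd_al.Red
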