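import Pool.Agent.MP_adf6dd_al.h59.Spec

/-! Minimal normal subgroups and layers. -/

set_option autoImplicit false

open scoped commutatorElement IsMulCommutative

namespace Pool.Agent.MP_adf6dd_al.Red

namespace Lay

theorem ab {G : Type} [Group G] [Finite G] {V : Subgroup G} (h : MinN V)
    (hc : ∀ a b : V, a * b = b * a) :
    ∃ p : ℕ, p.Prime ∧ p ∣ Nat.card V ∧ (∀ v : V, v ^ p = 1) ∧
      ∀ q : ℕ, q.Prime → q ∣ Nat.card V → q = p := by
  have := h.nor
  have : IsMulCommutative V := ⟨⟨hc⟩⟩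
  have h1 : Nat.card V ≠ 1 := fun e => h.ne (Subgroup.card_eq_one.1 e)
  obtain ⟨p, hp, hd⟩ := Nat.exists_prime_and_dvd h1
  have := Fact.mk hp
  obtain ⟨v, hv⟩ := exists_prime_orderOf_dvd_card' p hd
  let N : Subgroup G := (powMonoidHom p : V →* V).ker.map V.subtype
  have h2 : N.Normal := ⟨by
    rintro _ ⟨w, hw, rfl⟩ g
    refine ⟨MulAut.conjNormal g w, ?_, rfl⟩
    have hw' : w ^ p = 1 := hw
    show (MulAut.conjNormal g w) ^ p = 1
    rw [← map_pow, hw', map_one]⟩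
  have h3 : N = V := by
    refine (h.min N h2 (Subgroup.map_subtype_le _)).resolve_left fun e => ?_
    have h4 : (v : G) ∈ N := ⟨v, by
      show v ^ p = 1
      rw [← hv, pow_orderOf_eq_one], rfl⟩
    rw [e, Subgroup.mem_bot, OneMemClass.coe_eq_one] at h4
    rw [h4, orderOf_one] at hv
    exact hp.one_lt.ne hv
  have h5 : ∀ w : V, w ^ p = 1 := fun w => by
    obtain ⟨u, hu, e⟩ := h3.ge w.2
    rw [← Subtype.ext e]
    exact hu
  refine ⟨p, hp, hd, h5, fun q hq hqd => ?_⟩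
  have := Fact.mk hq
  obtain ⟨w, hw⟩ := exists_prime_orderOf_dvd_card' q hqd
  exact (Nat.prime_dvd_prime_iff_eq hq hp).1 (hw ▸ orderOf_dvd_of_pow_eq_one (h5 w))

/-- a nontrivial finite group has a simple quotient -/
theorem exists_simple (V : Type) [Group V] [Finite V] [Nontrivial V] :
    ∃ (T : Type) (_ : Group T) (_ : IsSimpleGroup T) (φ : V →* T), Function.Surjective φ := by
  obtain ⟨M, hM, hmax⟩ := Set.Finite.exists_maximal
    (s := {M : Subgroup V | M.Normal ∧ M ≠ ⊤}) (Set.toFinite _) ⟨⊥, inferInstance, bot_ne_top⟩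
  have := hM.1
  have hs := QuotientGroup.mk'_surjective M
  have hn : Nontrivial (V ⧸ M) := QuotientGroup.nontrivial_iff.2 hM.2
  refine ⟨V ⧸ M, inferInstance, ⟨fun N hN => ?_⟩, QuotientGroup.mk' M, hs⟩
  have h1 : M ≤ N.comap (QuotientGroup.mk' M) := fun x hx => by
    show QuotientGroup.mk' M x ∈ N
    rw [QuotientGroup.mk'_apply, (QuotientGroup.eq_one_iff x).2 hx]
    exact N.one_mem
  by_cases h2 : N.comap (QuotientGroup.mk' M) = ⊤
  · exact Or.inr (Subgroup.comap_injective hs (by rw [h2, Subgroup.comap_top]))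
  · refine Or.inl (eq_bot_iff.2 fun y hy => ?_)
    obtain ⟨x, rfl⟩ := hs y
    exact Subgroup.mem_bot.2 ((QuotientGroup.eq_one_iff x).2 (hmax ⟨hN.comap _, h2⟩ h1 hy))

theorem nab {G : Type} [Group G] [Finite G] {V : Subgroup G} [V.Normal] (h : MinN V)
    (hc : ¬ ∀ a b : V, a * b = b * a) :
    ∃ (T : Type) (_ : Group T) (_ : IsSimpleGroup T) (φ : V →* T),
      Function.Surjective φ ∧ (¬ ∀ a b : T, a * b = b * a) ∧
        ∀ v : V, (∀ g : G, φ (MulAut.conjNormal g v) = 1) → v = 1 := by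
  have : Nontrivial V := (Subgroup.nontrivial_iff_ne_bot V).2 h.ne
  obtain ⟨T, i1, i2, φ, hφ⟩ := exists_simple V
  obtain ⟨t, ht⟩ := exists_ne (1 : T)
  obtain ⟨w, rfl⟩ := hφ t
  let K : Subgroup V := ⨅ g : G, φ.ker.comap (MulAut.conjNormal g).toMonoidHom
  have hK : ∀ v : V, v ∈ K ↔ ∀ g : G, φ (MulAut.conjNormal g v) = 1 := fun v => by
    simp only [K, Subgroup.mem_iInf]
    rfl
  have h2 : (K.map V.subtype).Normal := ⟨by
    rintro _ ⟨u, hu, rfl⟩ g
    refine ⟨MulAut.conjNormal g u, (hK _).2 fun x => ?_, rfl⟩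
    have := (hK u).1 hu (x * g)
    rwa [map_mul, MulAut.mul_apply] at this⟩
  have h3 : K.map V.subtype = ⊥ := by
    refine (h.min _ h2 (Subgroup.map_subtype_le _)).resolve_right fun e => ?_
    obtain ⟨u, hu, e'⟩ := e.ge w.2
    have h4 := (hK u).1 hu 1
    rw [map_one, MulAut.one_apply, show u = w from Subtype.ext e'] at h4
    exact ht h4
  have h5 : ∀ v : V, (∀ g : G, φ (MulAut.conjNormal g v) = 1) → v = 1 := fun v hv => by
    have h6 : (v : G) ∈ K.map V.subtype := ⟨v, (hK v).2 hv, rfl⟩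
    rwa [h3, Subgroup.mem_bot, OneMemClass.coe_eq_one] at h6
  refine ⟨T, i1, i2, φ, hφ, fun hT => hc fun a b => ?_, h5⟩
  refine mul_inv_eq_one.1 (h5 _ fun g => ?_)
  rw [map_mul, map_inv, map_mul, map_inv, map_mul, map_mul, map_mul, map_mul,
    hT (φ (MulAut.conjNormal g a)), mul_inv_cancel]

theorem two {n s : ℕ} {G : Type} [Group G] [Finite G] (hs : Sec n s G) {V : Subgroup G}
    (h : MinN V) (hc : ¬ ∀ a b : V, a * b = b * a) : ∃ k, ∀ v : V, v ^ n ^ k = 1 := by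
  have := h.nor
  obtain ⟨T, i1, i2, φ, h1, h2, h3⟩ := nab h hc
  obtain ⟨-, k, c, hk⟩ := hs V T φ h1 h2
  refine ⟨k, fun v => h3 _ fun g => ?_⟩
  rw [map_pow, map_pow, hk, pow_mul, pow_card_eq_one', one_pow]

theorem three (hS : SecStmt) {n s : ℕ} {G : Type} [Group G] [Finite G] (hs : Sec n s G)
    {Z : Subgroup G} (hZ : Z.Normal) (h : Z ≠ ⊤) :
    ∃ E : Subgroup G, E.Normal ∧ Z < E ∧
      ((∃ k, ∀ x ∈ E, x ^ n ^ k ∈ Z) ∨ (Z.relIndex E).Coprime n) := by
  have hn : Nontrivial (G ⧸ Z) := QuotientGroup.nontrivial_iff.2 h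
  have hq := QuotientGroup.mk'_surjective Z
  obtain ⟨V, -, hV⟩ := exists_minN (G := G ⧸ Z) (D := ⊤) inferInstance top_ne_bot
  have h1 : Z = (⊥ : Subgroup (G ⧸ Z)).comap (QuotientGroup.mk' Z) := by
    rw [MonoidHom.comap_bot, QuotientGroup.ker_mk']
  have h2 : ∀ k : ℕ, (∀ v : V, v ^ k = 1) → ∀ x ∈ V.comap (QuotientGroup.mk' Z), x ^ k ∈ Z :=
    fun k hk x hx => by
      have h3 := congrArg Subtype.val (hk ⟨_, hx⟩)
      rw [← QuotientGroup.eq_one_iff]
      exact h3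
  refine ⟨V.comap (QuotientGroup.mk' Z), hV.nor.comap _, ?_, ?_⟩
  · refine lt_of_le_of_ne (h1.le.trans (Subgroup.comap_mono bot_le)) fun e => hV.ne ?_
    exact Subgroup.comap_injective hq (e.symm.trans h1)
  by_cases hc : ∀ a b : V, a * b = b * a
  · obtain ⟨p, hp, -, h4, h5⟩ := ab hV hc
    by_cases hd : p ∣ n
    · obtain ⟨c, rfl⟩ := hd
      refine Or.inl ⟨1, h2 _ fun v => ?_⟩
      rw [pow_one, pow_mul, h4, one_pow]
    · refine Or.inr ?_
      have h6 : Z.relIndex (V.comap (QuotientGroup.mk' Z)) = Nat.card V := by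
        conv_lhs => arg 1; rw [h1]
        rw [Subgroup.relIndex_comap, Subgroup.map_comap_eq_self_of_surjective hq,
          Subgroup.relIndex_bot_left]
      rw [h6]
      exact Nat.coprime_of_dvd fun q h7 h8 h9 => hd (h5 q h7 h8 ▸ h9)
  · obtain ⟨k, hk⟩ := two (hS.2.1 n s G _ _ hs hq) hV hc
    exact Or.inl ⟨k, h2 _ hk⟩

end Lay

theorem layS (hS : SecStmt) : LayStmt :=
  ⟨fun _ _ _ _ _ h => ⟨Lay.ab h, Lay.nab h⟩, fun _ _ _ _ _ hs _ h hc => Lay.two hs h hc,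
    fun _ _ _ _ _ hs _ hZ h => Lay.three hS hs hZ h⟩

end Pool.Agent.MP_adf6dd_al.Red
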