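import Pool.Agent.MP_adf6dd_al.h59.Spec

/-! Characters with values in `Kp n` over a given character of a normal subgroup. -/

set_option autoImplicit false

open Matrix

namespace Pool.Agent.MP_adf6dd_al.Red

namespace Lift

variable {G : Type} [Group G]

/-- the induction hypothesis -/
def LB (n s N : ℕ) : Prop :=
  ∀ (G : Type) [Group G] [Finite G], Sec n s G → ∀ (Z : Subgroup G) [Z.Normal]
    (lam : Z →* ℂˣ) (k : ℕ), Z.index < N → (∀ (x : G) z, lam (MulAut.conjNormal x z) = lam z) →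
    (∀ z, lam z ^ n ^ k = 1) → Lifts n Z lam

theorem sec_sub (hS : SecStmt) {n s : ℕ} (h : Sec n s G) (T : Subgroup G) : Sec n s T :=
  hS.1 n s G T T.subtype h fun a b ha _ => by
    have : a = 1 := Subtype.ext ha
    rw [this, one_mul, mul_one]

theorem idx_le [Finite G] (E T : Subgroup G) : (E.subgroupOf T).index ≤ E.index := by
  have := Subgroup.relIndex_le_of_le_right (H := E) (K := T) (L := ⊤) le_top
    (by rw [Subgroup.relIndex_top_right]; exact Subgroup.index_ne_zero_of_finite)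
  rwa [Subgroup.relIndex_top_right] at this

theorem lift_inert [Finite G] (hS : SecStmt) {n s N j : ℕ} (hG : Sec n s G) (ih : LB n s N)
    (E : Subgroup G) [E.Normal] (hE : E.index < N) (μ : E →* ℂˣ) (hj : ∀ g, μ g ^ n ^ j = 1) :
    ∃ ψ : inert E μ → ℂ, IsIrr ψ ∧ (∀ g, ψ g ∈ Kp n) ∧
      ∀ (z : E) (g : inert E μ), ψ (⟨z, le_inert E μ z.2⟩ * g) = μ z * ψ g := by
  obtain ⟨ψ, h1, h2, h3⟩ := ih (inert E μ) (sec_sub hS hG _) (E.subgroupOf (inert E μ))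
    (μ.comp (Subgroup.subgroupOfEquivOfLe (le_inert E μ)).toMonoidHom) j
    (lt_of_le_of_lt (idx_le E _) hE) (fun x z => x.2 ⟨z.1.1, z.2⟩) (fun z => hj _)
  exact ⟨ψ, h1, h2, fun z g => h3 ⟨⟨z, le_inert E μ z.2⟩, z.2⟩ g⟩

theorem stepA [Finite G] (hS : SecStmt) {n s j : ℕ} (hG : Sec n s G) {Z : Subgroup G} [Z.Normal]
    {lam : Z →* ℂˣ} (ih : LB n s Z.index)
    (hinv : ∀ (x : G) z, lam (MulAut.conjNormal x z) = lam z) (E : Subgroup G) [E.Normal]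
    (hZE : Z < E) (μ : E →* ℂˣ) (hμ : ∀ z : Z, μ ⟨z, hZE.le z.2⟩ = lam z)
    (hj : ∀ g, μ g ^ n ^ j = 1) : Lifts n Z lam := by
  obtain ⟨ψ, h1, h2, h3⟩ := lift_inert hS hG ih E (Subgroup.index_strictAnti hZE) μ hj
  refine ⟨ind _ ψ, h1.ind (le_inert E μ) μ (fun x hx => not_forall.1 hx) h3, ind_mem _ h2,
    fun z => ind_mul _ _ fun x g => ?_⟩
  have h4 := ext0_over (le_inert E μ) μ h3
    ⟨(MulAut.conjNormal x⁻¹ z : Z), hZE.le (Subtype.prop _)⟩ g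
  rw [hμ (MulAut.conjNormal x⁻¹ z), hinv] at h4
  have h6 : x⁻¹ * z * x = (MulAut.conjNormal x⁻¹ z : Z) := by simp
  rw [h6]
  exact h4

/-- the stabiliser of the trace of a representation of a normal subgroup -/
def inT (E : Subgroup G) [E.Normal] {d : ℕ} (ρ : E →* Matrix (Fin d) (Fin d) ℂ) : Subgroup G where
  carrier := {x | ∀ e, (ρ (MulAut.conjNormal x e)).trace = (ρ e).trace}
  one_mem' := fun e => by simp
  mul_mem' := fun {a b} ha hb e => by rw [map_mul, MulAut.mul_apply, ha, hb]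
  inv_mem' := fun {a} ha e => by
    rw [← ha, ← MulAut.mul_apply, ← map_mul]; simp

theorem le_inT (E : Subgroup G) [E.Normal] {d : ℕ} (ρ : E →* Matrix (Fin d) (Fin d) ℂ) :
    E ≤ inT E ρ := by
  intro x hx e
  have : MulAut.conjNormal x e = ⟨x, hx⟩ * e * ⟨x, hx⟩⁻¹ := Subtype.ext (by simp)
  rw [this, map_mul, trace_mul_comm, ← map_mul, inv_mul_cancel_left]

theorem stepC [Finite G] (hS : SecStmt) (hW : WeilStmt) (hI : IndStmt) {n s N d k : ℕ}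
    (hn : 0 < n) (hG : Sec n s G) (ih : LB n s N) (E : Subgroup G) [E.Normal] (hE : E.index < N)
    (ρ : E →* Matrix (Fin d) (Fin d) ℂ) (hρ : SR ρ) (hk : ∀ x, ρ x ^ n ^ k = 1) :
    ∃ χ : G → ℂ, IsIrr χ ∧ (∀ g, χ g ∈ Kp n) ∧
      (∀ (z : E) (a : ℂ),
        (∀ x : G, ρ (MulAut.conjNormal x z) = a • (1 : Matrix (Fin d) (Fin d) ℂ)) →
        ∀ g, χ (z * g) = a * χ g) ∧ OverN E ρ χ := by
  have hET := le_inT E ρ
  obtain ⟨W, _, _, π, ν, j, hπ, hc, hν1, hν2, hfin⟩ := hW (inT E ρ) (E.subgroupOf (inT E ρ)) d n k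
    (ρ.comp (Subgroup.subgroupOfEquivOfLe hET).toMonoidHom) hn
    ⟨hρ.ne, fun h => hρ.comm_scalar fun x => h ⟨⟨x, hET x.2⟩, x.2⟩⟩ (fun x => hk _)
    (fun x z => x.2 ⟨z.1.1, z.2⟩)
  obtain ⟨χ, h1, h2, h3⟩ := ih W (hS.1 n s _ W π (sec_sub hS hG _) fun a b ha _ => hc a b ha)
    ((E.subgroupOf (inT E ρ)).comap π) ν j
    (by rw [Subgroup.index_comap_of_surjective _ hπ]; exact lt_of_le_of_lt (idx_le E _) hE) hν1 hν2
  obtain ⟨ψ, h4, h5, h6, c, hc0, h7⟩ := hfin χ h1 h2 h3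
  obtain ⟨h8, h9, h10⟩ := hI G E (inT E ρ) hET d ρ hρ (fun x hx => not_forall.1 hx) ψ h4
    fun g => (h6 g).imp fun A hA z => hA ⟨⟨z, hET z.2⟩, z.2⟩
  exact ⟨ind _ ψ, h8, ind_mem _ h5, h9, h10 c hc0 fun z => h7 ⟨⟨z, hET z.2⟩, z.2⟩⟩

theorem lb (hS : SecStmt) (hL : LayStmt) (hX : ExsStmt) (hW : WeilStmt) (hI : IndStmt) {n : ℕ}
    (hn : 0 < n) (s N : ℕ) : LB n s N := by
  induction N with
  | zero => intro G _ _ _ Z _ lam k h; omega
  | succ N ihn =>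
  intro G _ _ hG Z hZ lam k hN hinv hk
  have ih : LB n s Z.index := fun G _ _ h' Z' _ lam' k' h => ihn G h' Z' lam' k' (by omega)
  by_cases htop : Z = ⊤
  · let μ : G →* ℂˣ := lam.comp ((MonoidHom.id G).codRestrict Z fun g => by simp [htop])
    refine ⟨fun g => μ g, isIrr_hom μ, fun g => mem_kp (k := k) ?_, fun z g => ?_⟩
    · rw [← Units.val_pow_eq_pow_val, show μ g ^ n ^ k = 1 from hk _, Units.val_one]
    · simp only [map_mul, Units.val_mul]; rfl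
  obtain ⟨E, hE, hZE, h⟩ := hL.2.2 n s G hG Z hZ htop
  rcases h with ⟨i, hi⟩ | h
  · obtain ⟨d, ρ, hρ, hsc⟩ := hX.1 E (Z.subgroupOf E)
      (lam.comp (Subgroup.subgroupOfEquivOfLe hZE.le).toMonoidHom)
      (fun x z => hinv x ⟨z.1.1, z.2⟩)
    have hsc' : ∀ (z : E) (hz : (z : G) ∈ Z), ρ z = ((lam ⟨z, hz⟩ : ℂˣ) : ℂ) • 1 :=
      fun z hz => hsc ⟨z, hz⟩
    obtain ⟨χ, h1, h2, h3, -⟩ := stepC (k := i + k) hS hW hI hn hG ih E
      (Subgroup.index_strictAnti hZE) ρ hρ fun x => by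
        rw [pow_add, pow_mul, ← map_pow, hsc' _ (hi x x.2), smul_pow, ← Units.val_pow_eq_pow_val,
          hk]
        simp
    refine ⟨χ, h1, h2, fun z => h3 ⟨z, hZE.le z.2⟩ _ fun x => ?_⟩
    rw [hsc' _ (MulAut.conjNormal x z).2, ← hinv x z]
    rfl
  · obtain ⟨e, he, he'⟩ := Nat.chineseRemainder (Nat.Coprime.pow_left k h.symm) 1 0
    obtain ⟨μ, h1, h2⟩ := canon_ext (Z.subgroupOf E)
      (lam.comp (Subgroup.subgroupOfEquivOfLe hZE.le).toMonoidHom)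
      (fun x z => hinv x ⟨z.1.1, z.2⟩) (fun z => hk _) he (Nat.modEq_zero_iff_dvd.1 he')
    exact stepA hS hG ih hinv E hZE μ (fun z => h1 ⟨⟨z, hZE.le z.2⟩, z.2⟩) h2

end Lift

open Lift in
theorem liftS (hS : SecStmt) (hL : LayStmt) (hX : ExsStmt) (hW : WeilStmt) (hI : IndStmt) :
    LiftStmt := by
  intro n s G _ _ hn hG E _
  have ih := lb hS hL hX hW hI hn s (E.index + 1)
  refine ⟨fun μ j hj => ?_, fun d k ρ hρ hk => ?_⟩
  · obtain ⟨ψ, h1, h2, h3⟩ := Lift.lift_inert hS hG ih E (Nat.lt_succ_self _) μ hj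
    exact ⟨ind _ ψ, h1.ind (le_inert E μ) μ (fun x hx => not_forall.1 hx) h3, ind_mem _ h2,
      ind_over _ μ h3⟩
  · obtain ⟨χ, h1, h2, -, h3⟩ := stepC hS hW hI hn hG ih E (Nat.lt_succ_self _) ρ hρ hk
    exact ⟨χ, h1, h2, h3⟩

end Pool.Agent.MP_adf6dd_al.Red
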