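import Pool.Agent.MP_adf6dd_al.h59.Spec

/-! Abelian chief factors inside the solvable normal subgroup are small. -/

set_option autoImplicit false

open scoped IsMulCommutative commutatorElement

namespace Pool.Agent.MP_adf6dd_al.Red

namespace Min

theorem le_KK (n m : ℕ) : m ≤ KK n m := Nat.le_mul_of_pos_right _ (by positivity)

theorem num1 {M K l m k : ℕ} (hM : 1 ≤ M) (hl : 1 ≤ l) (hm : m ≤ M) (hK : K ≤ M)
    (hk : k ≤ 8 * (M * l) ^ 2) :
    K + (k + (K + k) * ((k + 2 * m) * K)) + 1 ≤ 130 * M ^ 6 * l ^ 4 := by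
  have h1 : M ≤ (M * l) ^ 2 := (Nat.le_mul_of_pos_right M hl).trans (Nat.le_self_pow two_ne_zero _)
  have h2 : K + k ≤ 9 * (M * l) ^ 2 := by omega
  have h3 : k + 2 * m ≤ 10 * (M * l) ^ 2 := by omega
  have h0 : M ≤ M * M := Nat.le_mul_of_pos_right M hM
  have h4 := Nat.mul_le_mul h2 (Nat.mul_le_mul h3 (hK.trans h0))
  have h5 : (M * l) ^ 2 ≤ M ^ 6 * l ^ 4 := by
    rw [mul_pow]
    exact Nat.mul_le_mul (Nat.pow_le_pow_right hM (by norm_num))
      (Nat.pow_le_pow_right hl (by norm_num))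
  have h6 : 9 * (M * l) ^ 2 * (10 * (M * l) ^ 2 * (M * M)) = 90 * (M ^ 6 * l ^ 4) := by ring
  rw [mul_assoc 130]
  omega

theorem num2 {M l u : ℕ} (hl : 1 ≤ l) (hu : u ≤ M) :
    2 * l * M + (M * M + 2 * l * M * (2 * l * M)) + u ≤ 8 * (M * l) ^ 2 := by
  have h1 : M ≤ (M * l) ^ 2 := (Nat.le_mul_of_pos_right M hl).trans (Nat.le_self_pow two_ne_zero _)
  have h2 := Pool.Agent.MP_adf6dd_al.num2 M hl
  omega

variable {G : Type} [Group G]

theorem ker_le [Finite G] (V : Subgroup G) [V.Normal] [IsMulCommutative V] :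
    (dualAct V).ker ≤ Subgroup.centralizer V := fun g hg v hv => by
  have := hasEnough V
  have h2 := (CommGroup.forall_apply_eq_apply_iff (G := V) (M := ℂ)).1 fun μ : V →* ℂˣ =>
    (DFunLike.congr_fun (show cj g⁻¹ μ = μ from
      congrArg Additive.toMul (DFunLike.congr_fun hg (Additive.ofMul μ))) ⟨v, hv⟩ :
      μ (MulAut.conjNormal g⁻¹ ⟨v, hv⟩) = μ ⟨v, hv⟩)
  have h3 : g⁻¹ * v * g⁻¹⁻¹ = v := congrArg Subtype.val h2
  rw [inv_inv, mul_assoc, inv_mul_eq_iff_eq_mul] at h3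
  exact h3

theorem span_top [Finite G] {V : Subgroup G} [V.Normal] [IsMulCommutative V] (hV : MinN V)
    (μ : Additive (V →* ℂˣ)) (hμ : μ ≠ 0) (Z : AddSubgroup (Additive (V →* ℂˣ)))
    (hZ : ∀ g : G, dualAct V g μ ∈ Z) : Z = ⊤ := by
  have := hasEnough V
  let N : Subgroup G :=
    { carrier := {v | ∃ hv : v ∈ V, ∀ g : G, μ.toMul (MulAut.conjNormal g ⟨v, hv⟩) = 1}
      one_mem' := ⟨V.one_mem, fun g => by
        rw [show (⟨1, V.one_mem⟩ : V) = 1 from rfl, map_one, map_one]⟩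
      mul_mem' := fun {a b} ⟨ha, ha'⟩ ⟨hb, hb'⟩ => ⟨V.mul_mem ha hb, fun g => by
        rw [show (⟨a * b, V.mul_mem ha hb⟩ : V) = ⟨a, ha⟩ * ⟨b, hb⟩ from rfl, map_mul,
          map_mul, ha', hb', one_mul]⟩
      inv_mem' := fun {a} ⟨ha, ha'⟩ => ⟨V.inv_mem ha, fun g => by
        rw [show (⟨a⁻¹, V.inv_mem ha⟩ : V) = (⟨a, ha⟩ : V)⁻¹ from rfl, map_inv, map_inv, ha',
          inv_one]⟩ }
  have hN : N.Normal := ⟨fun a ⟨ha, ha'⟩ x => ⟨hV.nor.conj_mem a ha x, fun g => by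
    rw [← ha' (g * x), map_mul]; rfl⟩⟩
  have h2 : N = ⊥ := (hV.min N hN fun a ha => ha.1).resolve_right fun e => hμ (by
    apply Additive.toMul.injective
    ext1 v
    simpa using (e.ge v.2).2 1)
  have h3 : (CommGroup.subgroupOrderIsoSubgroupMonoidHom V ℂ).symm
      (OrderDual.toDual (AddSubgroup.toSubgroup' Z)) = ⊥ := by
    rw [eq_bot_iff]
    intro v hv
    rw [CommGroup.mem_subgroupOrderIsoSubgroupMonoidHom_symm_iff] at hv
    have h4 : (v : G) ∈ N := ⟨v.2, fun g => by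
      rw [← inv_inv g]
      exact hv (cj g⁻¹⁻¹ μ.toMul) (hZ (g⁻¹ : G))⟩
    rw [h2, Subgroup.mem_bot] at h4
    exact Subtype.ext h4
  rw [OrderIso.symm_apply_eq, OrderIso.map_bot] at h3
  have h5 : AddSubgroup.toSubgroup' Z = ⊤ := h3
  exact eq_top_iff.2 fun z _ => h5.ge (Subgroup.mem_top z.toMul)

end Min

theorem minS (hL : LayStmt) (hR : SolStmt) (hO : OrbStmt) (hN : LinStmt) (hZ : SizeStmt) :
    MinStmt := by
  classical
  intro n s m u M G _ _ R hP hKM huM V hV hVR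
  have := hV.nor
  have hab : ∀ a b : V, a * b = b * a := (hR.2 G R).2.2.2.2.2.1 hP.sol V hV hVR
  have : IsMulCommutative V := ⟨⟨hab⟩⟩
  have := finite_dual V
  obtain ⟨p, hp, -, h1, -⟩ := (hL.1 G V hV).1 hab
  have hmM : m ≤ M := (Min.le_KK n m).trans hKM
  have hM : 1 ≤ M := hP.hy.fb.one_le.trans hmM
  have hV1 := (Subgroup.one_lt_card_iff_ne_bot _).2 hV.ne
  have : Nontrivial (Additive (V →* ℂˣ)) :=
    Finite.one_lt_card_iff_nontrivial.1 ((card_dual V).symm ▸ hV1 : 1 < Nat.card (V →* ℂˣ))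
  have hker := Min.ker_le V
  have hs := QuotientGroup.mk'_surjective (dualAct V).ker
  have hP' := hR.1 n s m u G _ _ R hs hP
  obtain ⟨-, -, -, hO4, hO5⟩ := hO n s m G hP.hy
  set L := Nat.log 2 (Nat.card V) + 1 with hLd
  set l := Nat.log 2 L + 1 with hl
  have hL1 : Nat.card V ≤ 2 ^ L := (Nat.lt_pow_succ_log_self one_lt_two _).le
  obtain ⟨A, hA, hA1, hA2⟩ := hN _ (Additive (V →* ℂˣ)) _ hP'.nor hP'.sol
    (QuotientGroup.lift (dualAct V).ker (dualAct V) le_rfl)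
    (fun a b => QuotientGroup.induction_on a fun a => QuotientGroup.induction_on b fun b e => by
      have e' : dualAct V a = dualAct V b := e
      rw [QuotientGroup.eq, MonoidHom.mem_ker, map_mul, ← e', ← map_mul, inv_mul_cancel, map_one])
    (fun μ hμ Z hZ => Min.span_top hV μ hμ Z fun g => hZ (g : G)) M L l u
    (fun t ht => by
      rw [← Finset.card_image_of_injective t Additive.toMul.injective]
      refine (hO4 p 1 V hp (fun μ v => by rw [pow_one, ← map_pow, h1, map_one]) _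
        fun μ hμ ν hν x hx => ?_).trans hKM
      obtain ⟨a, ha, rfl⟩ := Finset.mem_image.1 hμ
      obtain ⟨b, hb, rfl⟩ := Finset.mem_image.1 hν
      rw [ht a ha b hb (x⁻¹ : G) (by
        show Additive.ofMul (cj x⁻¹⁻¹ a.toMul) = b
        rw [inv_inv, hx, ofMul_toMul])])
    ((card_dual V).le.trans hL1) (Nat.lt_pow_succ_log_self one_lt_two _).le hP'.idx
  have hl1 : 1 ≤ l := by omega
  replace hA2 := hA2.trans (Nat.pow_le_pow_right two_pos (Min.num2 hl1 huM))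
  have h2 := (hO5 V _ hV hab hker).trans (Nat.mul_le_mul Nat.lt_two_pow_self.le
    (hZ.2 n s m _ _ A hP'.hy hA hA1 hA2))
  rw [← pow_add] at h2
  have h3 : L ≤ 130 * M ^ 6 * l ^ 4 := by
    refine le_trans ?_ (Min.num1 hM hl1 hmM hKM le_rfl)
    exact Nat.succ_le_succ ((Nat.pow_le_pow_iff_right one_lt_two).1
      ((Nat.pow_log_le_self 2 Nat.card_pos.ne').trans h2))
  have h4 : l ≤ 812500 * M ^ 6 := by
    have a1 : l ^ (4 + 1) ≤ _ := num3 l
    have a2 : 2 ^ l ≤ 2 * L := by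
      rw [hl, pow_succ']
      exact Nat.mul_le_mul_left _ (Nat.pow_log_le_self 2 (by omega))
    refine Nat.le_of_mul_le_mul_right ?_ (pow_pos hl1 4)
    rw [← pow_succ', mul_assoc]
    rw [mul_assoc] at h3
    omega
  refine ⟨hL1.trans (Nat.pow_le_pow_right two_pos (h3.trans
    (Nat.mul_le_mul_left _ (Nat.pow_le_pow_left h4 _)))), le_trans ?_ hker⟩
  have h5 := (hR.2 _ (R.map (QuotientGroup.mk' (dualAct V).ker))).2.2.2.2.2.2.1 hP'.sol A _ hA
    (hA2.trans (Nat.pow_le_pow_right two_pos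
      (Nat.mul_le_mul_left 8 (Nat.pow_le_pow_left (Nat.mul_le_mul_left _ h4) 2))))
  have h6 : dS (R.map (QuotientGroup.mk' (dualAct V).ker))
      (8 * (M * (812500 * M ^ 6)) ^ 2 + 1) = ⊥ := by
    rw [dS, eq_bot_iff, ← Subgroup.commutator_eq_bot_iff_le_centralizer.2 hA1]
    exact Subgroup.commutator_mono h5 h5
  rwa [← (hR.2 G R).2.2.2.1, Subgroup.map_eq_bot_iff, QuotientGroup.ker_mk'] at h6

end Pool.Agent.MP_adf6dd_al.Red
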