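import Pool.Agent.MP_adf6dd_al.h59.Spec

/-! Counting characters with values in the fields `Kp n`. -/

set_option autoImplicit false

open scoped IsMulCommutative

namespace Pool.Agent.MP_adf6dd_al.Red

namespace Orb

variable {G : Type} [Group G] [Finite G] {n s m : ℕ}

theorem cnt (hB : SubStmt) (h : FB m G) (hn : 0 < n) {w : ℕ} (hw : n.primeFactors.card ≤ w) :
    np n G ≤ Kw m w := by
  classical
  rw [np, Set.ncard_eq_toFinset_card _ (np_finite n)]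
  set s := (np_finite (G := G) n).toFinset
  have hs : ∀ χ ∈ s, IsIrr χ ∧ ∀ g, χ g ∈ Kp n := fun χ hχ => by simpa [s] using hχ
  obtain ⟨k, hk⟩ := exists_cyc_of_finite (p := n) (S := ⋃ χ ∈ s, Set.range χ)
    (s.finite_toSet.biUnion fun χ _ => Set.finite_range χ) (by
      intro x hx
      simp only [Set.mem_iUnion] at hx
      obtain ⟨χ, hχ, g, rfl⟩ := hx
      exact (hs χ hχ).2 g)
  have hk' : ∀ χ ∈ s, ∀ g, χ g ∈ Cyc (n ^ (k + 1)) := fun χ hχ g =>
    cyc_mono (pow_dvd_pow n (by omega)) (hk _ (Set.mem_biUnion hχ ⟨g, rfl⟩))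
  have : NeZero (n ^ (k + 1)) := ⟨pow_ne_zero _ hn.ne'⟩
  obtain ⟨t⟩ := exists_tau (n ^ (k + 1))
  obtain ⟨S, hS1, hS2⟩ := hB.2 (n ^ (k + 1)) (pow_pos hn _)
  rw [Nat.primeFactors_pow_succ] at hS2
  have h1 := hB.1 _ S m hS1
  rw [Set.ncard_eq_toFinset_card _ (Set.toFinite _)] at h1
  let F : (G → ℂ) → Subgroup (ZMod (n ^ (k + 1)))ˣ := fun χ =>
    if hχ : ∀ g, χ g ∈ Cyc (n ^ (k + 1)) then t.stab χ hχ else ⊤
  have h2 := Finset.card_le_mul_card_image_of_maps_to (f := F) (s := s)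
    (t := (Set.toFinite {B : Subgroup (ZMod (n ^ (k + 1)))ˣ | B.index ≤ m}).toFinset)
    (fun χ hχ => by
      have h1 := t.index_le h (hs χ hχ).1 (hk' χ hχ)
      simpa only [F, dif_pos (hk' χ hχ), Set.Finite.mem_toFinset, Set.mem_ofPred_eq] using h1)
    m (fun y _ => by
      refine t.card_le h _ (fun χ hχ => ?_) fun χ hχ ψ hψ c hc => ?_
      · have := (Finset.mem_filter.1 hχ).1
        exact ⟨(hs χ this).1, hk' χ this⟩
      · obtain ⟨h1, h2⟩ := Finset.mem_filter.1 hχ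
        obtain ⟨h3, h4⟩ := Finset.mem_filter.1 hψ
        rw [← h4] at h2
        simp only [F, dif_pos (hk' χ h1), dif_pos (hk' ψ h3)] at h2
        have h5 : c ∈ t.stab χ (hk' χ h1) := hc
        rw [h2] at h5
        exact h5)
  exact h2.trans (Nat.mul_le_mul_left _ (h1.trans (Nat.pow_le_pow_right (Nat.succ_pos m) (by omega))))

theorem le (hB : SubStmt) (h : Hy n s m G) {p : ℕ} (hp : p.Prime) : np (n * p) G ≤ KK n m := by
  refine cnt hB h.fb (Nat.mul_pos h.pos hp.pos) ?_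
  rw [Nat.primeFactors_mul h.pos.ne' hp.ne_zero, hp.primeFactors]
  exact (Finset.card_union_le _ _).trans (by simp)

theorem ovr (hS : SecStmt) (hF : LiftStmt) (h : Hy n s m G) {p j : ℕ} (hp : p.Prime)
    (E : Subgroup G) [E.Normal] (μ : E →* ℂˣ) (hj : ∀ g, μ g ^ p ^ j = 1) :
    ∃ χ : G → ℂ, IsIrr χ ∧ (∀ g, χ g ∈ Kp (n * p)) ∧ Over E μ χ :=
  (hF (n * p) s G (Nat.mul_pos h.pos hp.pos) (hS.2.2.1 n s p G h.sec) E).1 μ j fun g => by
    rw [mul_pow, mul_comm, pow_mul, hj, one_pow]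

theorem lt (hS : SecStmt) (hF : LiftStmt) (h : Hy n s m G) {p : ℕ} (hp : p.Prime)
    (V : Subgroup G) [V.Normal] [IsMulCommutative V] (hV : p ∣ Nat.card V) :
    np (n * p) (G ⧸ V) < np (n * p) G := by
  obtain ⟨s, h1, h2, h3⟩ := np_aux (n * p) V
  have := Fact.mk hp
  have := finite_dual V
  obtain ⟨μ, hμ⟩ := exists_prime_orderOf_dvd_card' (G := V →* ℂˣ) p (by rwa [card_dual])
  obtain ⟨χ, h4, h5, h6⟩ := ovr hS hF h (j := 1) hp V μ fun v => by
    rw [pow_one, ← MonoidHom.pow_apply, ← hμ, pow_orderOf_eq_one]; rfl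
  rw [← h2]
  refine Set.ncard_lt_ncard (h1.ssubset_of_ne fun he => ?_) (np_finite _)
  have h7 : Over V 1 χ := fun v => by
    have := Fintype.ofFinite G
    rw [h3 χ (he ▸ ⟨h4, h5⟩) v v.2, finsum_eq_sum_of_fintype]
    simp [mul_comm, Nat.card_eq_fintype_card]
  obtain ⟨x, hx⟩ := h7.conj h4.one_ne h6
  have h8 : μ = 1 := by rw [← hx]; rfl
  rw [h8, orderOf_one] at hμ
  exact hp.one_lt.ne hμ

theorem orbits (hS : SecStmt) (hF : LiftStmt) (hB : SubStmt) (h : Hy n s m G) {p j : ℕ}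
    (hp : p.Prime) (E : Subgroup G) [E.Normal] (hj : ∀ (μ : E →* ℂˣ) v, μ v ^ p ^ j = 1)
    (t : Finset (E →* ℂˣ)) (hs : ∀ μ ∈ t, ∀ μ' ∈ t, ∀ x : G, cj x μ = μ' → μ = μ') :
    t.card ≤ KK n m := by
  classical
  choose F h1 h2 h3 using fun μ : E →* ℂˣ => ovr hS hF h hp E μ (hj μ)
  rw [← Finset.card_image_of_injOn (f := F) (fun μ hμ μ' hμ' he => by
    obtain ⟨x, hx⟩ := (h3 μ).conj (h1 μ).one_ne (he ▸ h3 μ')
    exact hs μ hμ μ' hμ' x hx), ← Set.ncard_coe_finset]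
  refine le_trans (Set.ncard_le_ncard (fun χ hχ => ?_) (np_finite _)) (le hB h hp)
  obtain ⟨μ, -, rfl⟩ := Finset.mem_image.1 hχ
  exact ⟨h1 μ, h2 μ⟩

theorem orb (hS : SecStmt) (hL : LayStmt) (hF : LiftStmt) (hB : SubStmt) (h : Hy n s m G)
    {V B : Subgroup G} (hV : MinN V) (hc : ∀ a b : V, a * b = b * a)
    (hBV : B ≤ Subgroup.centralizer V) : Nat.card V ≤ KK n m * B.index := by
  classical
  have := hV.nor
  have : IsMulCommutative V := ⟨⟨hc⟩⟩
  have := finite_dual V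
  obtain ⟨p, hp, -, h1, -⟩ := (hL.1 G V hV).1 hc
  let r : Setoid (V →* ℂˣ) := ⟨fun μ ν => ∃ x : G, cj x μ = ν, fun μ => ⟨1, cj_one μ⟩,
    fun ⟨x, hx⟩ => ⟨x⁻¹, by rw [← hx, ← cj_mul, mul_inv_cancel, cj_one]⟩,
    fun ⟨x, hx⟩ ⟨y, hy⟩ => ⟨x * y, by rw [cj_mul, hx, hy]⟩⟩
  have := Fintype.ofFinite (Quotient r)
  have h2 := orbits hS hF hB h hp (j := 1) V (fun μ v => by rw [pow_one, ← map_pow, h1, map_one])
    (Finset.univ.image fun q : Quotient r => q.out) fun μ hμ ν hν x hx => by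
      obtain ⟨q, -, rfl⟩ := Finset.mem_image.1 hμ
      obtain ⟨q', -, rfl⟩ := Finset.mem_image.1 hν
      rw [(Quotient.out_equiv_out (s := r)).1 (show ∃ x : G, cj x q.out = q'.out from ⟨x, hx⟩)]
  rw [Finset.card_image_of_injective _ Quotient.out_injective, Finset.card_univ,
    ← Nat.card_eq_fintype_card] at h2
  have h3 : Function.Surjective fun q : Quotient r × (G ⧸ B) => cj q.2.out⁻¹ q.1.out := by
    intro ν
    obtain ⟨x, hx⟩ := Quotient.mk_out (s := r) ν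
    refine ⟨(Quotient.mk r ν, (x⁻¹ : G)), ?_⟩
    have h4 : ((x⁻¹ : G) : G ⧸ B).out⁻¹ * x⁻¹ ∈ B := by rw [← QuotientGroup.eq]; simp
    have h5 := cj_mul (((x⁻¹ : G) : G ⧸ B).out⁻¹ * x⁻¹) x (Quotient.mk r ν).out
    rw [inv_mul_cancel_right] at h5
    refine h5.trans (Eq.trans ?_ hx)
    congr 1
    ext1 v
    rw [cj_apply]
    congr 1
    exact Subtype.ext (by rw [MulAut.conjNormal_apply, ← hBV h4 v v.2, mul_inv_cancel_right])
  rw [← card_dual]
  refine (Nat.card_le_card_of_surjective _ h3).trans ?_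
  rw [Nat.card_prod]
  exact Nat.mul_le_mul_right _ h2

end Orb

theorem orbS (hS : SecStmt) (hL : LayStmt) (hF : LiftStmt) (hB : SubStmt) : OrbStmt := by
  intro n s m G _ _ h
  refine ⟨Orb.cnt hB h.fb h.pos (Nat.le_succ _), fun p hp => Orb.le hB h hp,
    fun p V _ hp hc hd => ?_, fun p j E _ hp hj t ht => Orb.orbits hS hF hB h hp E hj t ht,
    fun V B hV hc hBV => Orb.orb hS hL hF hB h hV hc hBV⟩
  have : IsMulCommutative V := ⟨⟨hc⟩⟩
  exact Orb.lt hS hF h hp V hd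

end Pool.Agent.MP_adf6dd_al.Red
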