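import Pool.Agent.MP_adf6dd_al.h59.Spec

/-! The number of primes dividing the order. -/

set_option autoImplicit false

open scoped IsMulCommutative commutatorElement

namespace Pool.Agent.MP_adf6dd_al.Red

namespace Pri

theorem two_pow_le {n : ℕ} (hn : n ≠ 0) : 2 ^ n.primeFactors.card ≤ n := by
  refine le_trans ?_ (Nat.le_of_dvd (Nat.pos_of_ne_zero hn) (Nat.prod_primeFactors_dvd n))
  exact Finset.pow_card_le_prod _ _ _ fun p hp => (Nat.prime_of_mem_primeFactors hp).two_le

theorem quot (hR : SolStmt) {G : Type} [Group G] [Finite G] (R : Subgroup G) {k : ℕ}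
    {V : Subgroup G} [V.Normal] (h : dS R k ≤ V) : dS (R.map (QuotientGroup.mk' V)) k = ⊥ := by
  rw [← (hR.2 G R).2.2.2.1, Subgroup.map_eq_bot_iff, QuotientGroup.ker_mk']
  exact h

theorem le (hR : SolStmt) (n s m u j : ℕ) : ∀ (G : Type) [Group G] [Finite G] (R : Subgroup G),
    Pr n s m u G R → dS R j = ⊥ → (Nat.card G).primeFactors.card ≤ u + j * (2 * m) := by
  induction j with
  | zero =>
    intro G _ _ R hp h
    have h1 := hp.idx
    rw [show R = ⊥ from h, Subgroup.index_bot] at h1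
    simpa using (Nat.pow_le_pow_iff_right one_lt_two).1 ((two_pow_le Nat.card_pos.ne').trans h1)
  | succ j ih =>
    intro G _ _ R hp h
    let A := dS R j
    have : A.Normal := (hR.2 G R).1 hp.nor j
    have : IsMulCommutative A := ⟨⟨fun a b => Subtype.ext (by
      have h1 : ⁅(a : G), (b : G)⁆ ∈ dS R (j + 1) := Subgroup.commutator_mem_commutator a.2 b.2
      rw [h, Subgroup.mem_bot, commutatorElement_eq_one_iff_mul_comm] at h1
      exact h1)⟩⟩
    have h1 := ih (G ⧸ A) _ (hR.1 n s m u G _ _ R (QuotientGroup.mk'_surjective A) hp)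
      (quot hR R le_rfl)
    have h2 := hp.hy.fb.newp A ((Nat.card G).primeFactors \ (Nat.card (G ⧸ A)).primeFactors) (by
      intro p hp
      obtain ⟨h3, h4⟩ := Finset.mem_sdiff.1 hp
      have h5 := Nat.prime_of_mem_primeFactors h3
      have h6 : ¬ p ∣ A.index := fun h7 =>
        h4 (Nat.mem_primeFactors.2 ⟨h5, h7, Nat.card_pos.ne'⟩)
      have h8 := Nat.dvd_of_mem_primeFactors h3
      rw [← A.card_mul_index] at h8
      exact ⟨h5, ((Nat.Prime.dvd_mul h5).1 h8).resolve_right h6, h6⟩)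
    have h3 := Finset.le_card_sdiff (Nat.card (G ⧸ A)).primeFactors (Nat.card G).primeFactors
    rw [add_mul]
    omega

theorem all (hL : LayStmt) (hR : SolStmt) {n s m u k : ℕ}
    (hk : ∀ (G : Type) [Group G] [Finite G] (R : Subgroup G), Pr n s m u G R →
      ∀ V : Subgroup G, MinN V → V ≤ R → dS R k ≤ Subgroup.centralizer V) {p : ℕ}
    (hp : p.Prime) (N : ℕ) : ∀ (G : Type) [Group G] [Finite G] (R : Subgroup G),
      Nat.card G < N → Pr n s m u G R → p ∣ Nat.card G → p ∣ (dS R (k + 1)).index := by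
  induction N with
  | zero => intro G _ _ _ h; omega
  | succ N ih =>
    intro G _ _ R hn h hd
    by_cases h0 : dS R (k + 1) = ⊥
    · rwa [h0, Subgroup.index_bot]
    obtain ⟨s1, s2, s3, s4, -, s5, -⟩ := hR.2 G R
    obtain ⟨V, hVD, hV⟩ := exists_minN (s1 h.nor _) h0
    have := hV.nor
    have hVR : V ≤ R := hVD.trans (s3 _)
    have hc := s5 h.sol V hV hVR
    have : IsMulCommutative V := ⟨⟨hc⟩⟩
    have hs := QuotientGroup.mk'_surjective V
    have h1 : p ∣ V.index := by
      by_contra h1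
      rw [← V.card_mul_index] at hd
      obtain ⟨q, -, -, h2, h3⟩ := (hL.1 G V hV).1 hc
      obtain rfl := h3 p hp (((Nat.Prime.dvd_mul hp).1 hd).resolve_right h1)
      obtain ⟨e, he, he'⟩ := Nat.chineseRemainder ((Nat.Prime.coprime_iff_not_dvd hp).2 h1) 1 0
      obtain ⟨v, hv⟩ := (Subgroup.ne_bot_iff_exists_ne_one).1 hV.ne
      have := hasEnough V
      obtain ⟨lam, hl⟩ := CommGroup.exists_apply_ne_one_of_hasEnoughRootsOfUnity V ℂ hv
      have hle : V ≤ dS R k := hVD.trans (s2 k)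
      obtain ⟨ψ, h4, -⟩ := canon_ext (V.subgroupOf (dS R k))
        (lam.comp (Subgroup.subgroupOfEquivOfLe hle).toMonoidHom) (N := p) (e := e)
        (fun x z => by
          congr 1
          refine Subtype.ext (Subtype.ext ?_)
          show (x : G) * z * (x : G)⁻¹ = z
          rw [mul_inv_eq_iff_eq_mul]
          exact (hk G R h V hV hVR x.2 _ z.2).symm)
        (fun z => by rw [← map_pow, MonoidHom.comp_apply, map_pow, h2, map_one]) he
        ((Subgroup.relIndex_dvd_index_of_normal V _).trans (Nat.modEq_zero_iff_dvd.1 he'))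
      have h5 : ⁅dS R k, dS R k⁆ ≤ ψ.ker.map (dS R k).subtype := by
        rw [Subgroup.commutator_le]
        intro a ha b hb
        refine ⟨⁅(⟨a, ha⟩ : dS R k), ⟨b, hb⟩⁆, ?_, rfl⟩
        rw [SetLike.mem_coe, MonoidHom.mem_ker, map_commutatorElement,
          commutatorElement_eq_one_iff_mul_comm, mul_comm]
      obtain ⟨w, hw, e1⟩ := h5 (hVD v.2)
      have h6 : ψ ⟨v, hle v.2⟩ = lam v := h4 ⟨⟨v, hle v.2⟩, v.2⟩
      rw [show (⟨v, hle v.2⟩ : dS R k) = w from Subtype.ext e1.symm] at h6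
      exact hl (h6.symm.trans hw)
    have h2 := ih (G ⧸ V) _ (hV.card_lt.trans_le (Nat.lt_succ_iff.1 hn))
      (hR.1 n s m u G _ _ R hs h) h1
    rw [← s4] at h2
    exact h2.trans (Subgroup.index_map_dvd _ hs)

end Pri

theorem priS (hL : LayStmt) (hR : SolStmt) : PriStmt := by
  refine ⟨Pri.le hR, fun n s m u k hk G _ _ R h => ?_⟩
  have := (hR.2 G R).1 h.nor (k + 1)
  refine le_trans (Finset.card_le_card fun p hp => ?_) (Pri.le hR n s m u _ (G ⧸ dS R (k + 1)) _
    (hR.1 n s m u G _ _ R (QuotientGroup.mk'_surjective _) h) (Pri.quot hR R le_rfl))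
  have h1 := Nat.prime_of_mem_primeFactors hp
  exact Nat.mem_primeFactors.2 ⟨h1, Pri.all hL hR hk h1 _ G R (Nat.lt_succ_self _) h
    (Nat.dvd_of_mem_primeFactors hp), Nat.card_pos.ne'⟩

end Pool.Agent.MP_adf6dd_al.Red
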