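import Pool.Agent.MP_adf6dd_al.h59.Spec

/-! The order of the group from the size of the chief factors. -/

set_option autoImplicit false

open scoped commutatorElement

namespace Pool.Agent.MP_adf6dd_al.Red

namespace Size

theorem aux (hL : LayStmt) (hR : SolStmt) (hO : OrbStmt) {n s m u y : ℕ}
    (Q : ∀ (G : Type) [Group G], Subgroup G → Prop)
    (hq : ∀ (G : Type) [Group G] [Finite G] (R N : Subgroup G) [N.Normal], Pr n s m u G R →
      Q G R → Q (G ⧸ N) (R.map (QuotientGroup.mk' N)))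
    (hy : ∀ (G : Type) [Group G] [Finite G] (R : Subgroup G), Pr n s m u G R → Q G R →
      ∀ V : Subgroup G, MinN V → V ≤ R → Nat.card V ≤ 2 ^ y)
    (P : Finset ℕ) (c : ℕ) :
    ∀ (G : Type) [Group G] [Finite G] (R : Subgroup G), Nat.card G < c → Pr n s m u G R → Q G R →
      (Nat.card G).primeFactors ⊆ P → Nat.card G ≤ 2 ^ (u + y * ∑ p ∈ P, np (n * p) G) := by
  induction c with
  | zero => intro G _ _ _ h; omega
  | succ c ih =>
    intro G _ _ R hn h hQ hP
    by_cases h0 : R = ⊥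
    · have := h.idx
      rw [h0, Subgroup.index_bot] at this
      exact this.trans (Nat.pow_le_pow_right two_pos (Nat.le_add_right _ _))
    obtain ⟨V, hVR, hV⟩ := exists_minN h.nor h0
    have := hV.nor
    have hc : ∀ a b : V, a * b = b * a := (hR.2 G R).2.2.2.2.2.1 h.sol V hV hVR
    obtain ⟨p, hp, hd, -⟩ := (hL.1 G V hV).1 hc
    have h1 := ih (G ⧸ V) _ (hV.card_lt.trans_le (Nat.lt_succ_iff.1 hn))
      (hR.1 n s m u G _ _ R (QuotientGroup.mk'_surjective V) h) (hq G R V h hQ)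
      ((Nat.primeFactors_mono V.index_dvd_card Nat.card_pos.ne').trans hP)
    have h2 : ∑ p ∈ P, np (n * p) (G ⧸ V) < ∑ p ∈ P, np (n * p) G :=
      Finset.sum_lt_sum (fun q _ => np_quot_le _ V) ⟨p, hP (Nat.mem_primeFactors.2
        ⟨hp, hd.trans V.card_subgroup_dvd_card, Nat.card_pos.ne'⟩),
          (hO n s m G h.hy).2.2.1 p V hp hc hd⟩
    rw [← V.card_mul_index]
    refine (Nat.mul_le_mul (hy G R h hQ V hV hVR) h1).trans ?_
    rw [← pow_add, add_left_comm, ← mul_one_add]
    exact Nat.pow_le_pow_right two_pos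
      (Nat.add_le_add_left (Nat.mul_le_mul_left _ (by omega)) _)

theorem one (hL : LayStmt) (hR : SolStmt) (hO : OrbStmt) (n s m u y r : ℕ)
    (Q : ∀ (G : Type) [Group G], Subgroup G → Prop)
    (hq : ∀ (G : Type) [Group G] [Finite G] (R N : Subgroup G) [N.Normal], Pr n s m u G R →
      Q G R → Q (G ⧸ N) (R.map (QuotientGroup.mk' N)))
    (hy : ∀ (G : Type) [Group G] [Finite G] (R : Subgroup G), Pr n s m u G R → Q G R →
      ∀ V : Subgroup G, MinN V → V ≤ R → Nat.card V ≤ 2 ^ y)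
    (G : Type) [Group G] [Finite G] (R : Subgroup G) (h : Pr n s m u G R) (hQ : Q G R)
    (hr : (Nat.card G).primeFactors.card ≤ r) : Nat.card G ≤ 2 ^ (u + y * (r * KK n m)) := by
  refine (aux hL hR hO Q hq hy _ _ G R (Nat.lt_succ_self _) h hQ subset_rfl).trans
    (Nat.pow_le_pow_right two_pos (Nat.add_le_add_left (Nat.mul_le_mul_left _ ?_) _))
  refine (Finset.sum_le_card_nsmul _ _ (KK n m) fun p hp =>
    (hO n s m G h.hy).2.1 p (Nat.prime_of_mem_primeFactors hp)).trans ?_
  exact Nat.mul_le_mul_right _ hr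

end Size

theorem sizeS (hL : LayStmt) (hR : SolStmt) (hO : OrbStmt) (hP : PriStmt) : SizeStmt := by
  refine ⟨Size.one hL hR hO, fun n s m k G _ _ B h hn hB hk => ?_⟩
  have hp : Pr n s m k G B := ⟨h, hn, (hR.2 G B).2.2.2.2.1 hB, hk⟩
  refine Size.one hL hR hO n s m k (KK n m + k) (k + 2 * m)
    (fun G _ R => R ≤ Subgroup.centralizer R) ?_ ?_ G B hp hB ?_
  · intro G _ _ R N _ _ hB
    rw [← Subgroup.commutator_eq_bot_iff_le_centralizer] at hB ⊢
    rw [← Subgroup.map_commutator, hB, Subgroup.map_bot]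
  · intro G _ _ R h hB V hV hVR
    refine ((hO n s m G h.hy).2.2.2.2 V R hV ((hR.2 G R).2.2.2.2.2.1 h.sol V hV hVR)
      (hB.trans (Subgroup.centralizer_le hVR))).trans ?_
    rw [pow_add]
    exact Nat.mul_le_mul Nat.lt_two_pow_self.le h.idx
  · have := hP.1 n s m k 1 G B hp (Subgroup.commutator_eq_bot_iff_le_centralizer.2 hB)
    rwa [one_mul] at this

end Pool.Agent.MP_adf6dd_al.Red
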