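import Pool.Agent.MP_adf6dd_al.h59.Spec

/-! Nonabelian minimal normal subgroups are small. -/

set_option autoImplicit false

open Matrix

namespace Pool.Agent.MP_adf6dd_al.Red

namespace Soc1

theorem ker_sub {E : Type} [Group E] [Finite E] {d d' : ℕ} (ρ : E →* Matrix (Fin d) (Fin d) ℂ)
    (ρ' : E →* Matrix (Fin d') (Fin d') ℂ) (h : ∀ v, (ρ v).trace = (ρ' v).trace) {v : E}
    (hv : ρ v = 1) : ρ' v = 1 := by
  refine eq_one_of_trace (orderOf_pos v) ?_ fun i => ?_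
  · rw [← map_pow, pow_orderOf_eq_one, map_one]
  · rw [← map_pow, ← h, map_pow, hv, one_pow, ← map_one ρ, h, map_one, trace_one]

theorem ker_card {E : Type} [Group E] [Finite E] {d d' : ℕ} (ρ : E →* Matrix (Fin d) (Fin d) ℂ)
    (ρ' : E →* Matrix (Fin d') (Fin d') ℂ) (α : MulAut E)
    (h : ∀ v, (ρ (α v)).trace = (ρ' v).trace) : {v | ρ v = 1}.ncard = {v | ρ' v = 1}.ncard := by
  have e : {v | ρ' v = 1} = α ⁻¹' {v | ρ v = 1} := by
    ext v
    exact ⟨ker_sub ρ' (ρ.comp α.toMonoidHom) fun v => (h v).symm,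
      ker_sub (ρ.comp α.toMonoidHom) ρ' h⟩
  rw [e, Set.ncard_preimage_of_injective_subset_range α.injective
    (by rw [α.surjective.range_eq]; exact Set.subset_univ _)]

theorem over_conj (hX : ExsStmt) {G : Type} [Group G] [Finite G] {E : Subgroup G} [E.Normal]
    {d d' : ℕ} {ρ : E →* Matrix (Fin d) (Fin d) ℂ} {ρ' : E →* Matrix (Fin d') (Fin d') ℂ}
    (h : SR ρ) (h' : SR ρ') {χ : G → ℂ} (o : OverN E ρ χ) (o' : OverN E ρ' χ) :
    ∃ x : G, ∀ v, (ρ (MulAut.conjNormal x v)).trace = (ρ' v).trace := by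
  classical
  have := Fintype.ofFinite G
  have := Fintype.ofFinite E
  by_contra hne
  obtain ⟨c, -, hc⟩ := o
  obtain ⟨c', hc0, hc'⟩ := o'
  simp only [finsum_eq_sum_of_fintype] at hc hc'
  have i1 : ∀ x : G, IsIrr fun v : E => (ρ (MulAut.conjNormal x v)).trace := fun x =>
    h.isIrr.comp (MulAut.conjNormal x : MulAut E).toMonoidHom (MulAut.conjNormal x).surjective
  have i2 : ∀ x : G, IsIrr fun v : E => (ρ' (MulAut.conjNormal x v)).trace := fun x =>
    h'.isIrr.comp (MulAut.conjNormal x : MulAut E).toMonoidHom (MulAut.conjNormal x).surjective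
  have s1 : ∀ x : G, ∑ v : E, (ρ (MulAut.conjNormal x v)).trace * (ρ' v⁻¹).trace = 0 := fun x => by
    have := hX.2.2.1 E _ _ (i1 x) h'.isIrr fun e => hne ⟨x, congrFun e⟩
    rwa [finsum_eq_sum_of_fintype] at this
  have s0 : ∑ v : E, (ρ' v).trace * (ρ' v⁻¹).trace = Nat.card E := (isIrr_iff.1 h'.isIrr).2
  have s2 : ∀ x : G, ∃ k : ℕ,
      ∑ v : E, (ρ' (MulAut.conjNormal x v)).trace * (ρ' v⁻¹).trace = k := fun x => by
    by_cases e : (fun v : E => (ρ' (MulAut.conjNormal x v)).trace) = fun v => (ρ' v).trace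
    · exact ⟨Nat.card E, by simp only [congrFun e, s0]⟩
    · have := hX.2.2.1 E _ _ (i2 x) h'.isIrr e
      rw [finsum_eq_sum_of_fintype] at this
      exact ⟨0, by simpa using this⟩
  choose k hk using s2
  have e1 : ∑ v : E, χ v * (ρ' v⁻¹).trace = 0 := by
    simp only [hc, mul_assoc, ← Finset.mul_sum, Finset.sum_mul]
    rw [Finset.sum_comm]
    simp only [s1, Finset.sum_const_zero, mul_zero]
  have e2 : ∑ v : E, χ v * (ρ' v⁻¹).trace = c' * ((∑ x, k x : ℕ) : ℂ) := by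
    simp only [hc', mul_assoc, ← Finset.mul_sum, Finset.sum_mul]
    rw [Finset.sum_comm]
    simp only [hk, Nat.cast_sum]
  rw [e1] at e2
  have e3 : ∑ x, k x = 0 := by exact_mod_cast (mul_eq_zero.1 e2.symm).resolve_left hc0
  have e4 := hk 1
  rw [Finset.sum_eq_zero_iff.1 e3 1 (Finset.mem_univ _)] at e4
  simp only [map_one, MulAut.one_apply, s0] at e4
  exact (Nat.card_pos (α := E)).ne' (by exact_mod_cast e4)

end Soc1

open Soc1 in
theorem soc1S (hL : LayStmt) (hX : ExsStmt) (hF : LiftStmt) (hO : OrbStmt) (hT : TenStmt) :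
    Soc1Stmt := by
  intro n s m G _ _ hy V hV hna
  classical
  have := hV.nor
  obtain ⟨T, _, _, φ, hφ, hT', hker⟩ := (hL.1 G V hV).2 hna
  obtain ⟨C, hC, hρ⟩ := hT V T G (fun g => φ.comp (MulAut.conjNormal g : MulAut V).toMonoidHom)
    (fun g => hφ.comp (MulAut.conjNormal g : MulAut V).surjective) hT' hker
  obtain ⟨k, hk⟩ := hL.2.1 n s G hy.sec V hV hna
  have key : ∀ c ∈ C, ∃ χ : G → ℂ, (IsIrr χ ∧ ∀ g, χ g ∈ Kp n) ∧
      ∃ (d : ℕ) (ρ : V →* Matrix (Fin d) (Fin d) ℂ), SR ρ ∧ {v | ρ v = 1}.ncard = c ∧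
        OverN V ρ χ := fun c hc => by
    obtain ⟨d, ρ, h1, h2⟩ := hρ c hc
    obtain ⟨χ, k1, k2, k3⟩ := (hF n s G hy.pos hy.sec V).2 d k ρ h1 fun x => by
      rw [← map_pow, hk, map_one]
    exact ⟨χ, ⟨k1, k2⟩, d, ρ, h1, h2, k3⟩
  choose! F h1 h2 using key
  have hc : C.card ≤ np n G := by
    rw [← Set.ncard_coe_finset]
    refine Set.ncard_le_ncard_of_injOn F h1 (fun a ha b hb e => ?_) (np_finite n)
    obtain ⟨d, ρ, p1, p2, p3⟩ := h2 a ha
    obtain ⟨d', ρ', q1, q2, q3⟩ := h2 b hb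
    obtain ⟨x, hx⟩ := over_conj hX p1 q1 (e ▸ p3) q3
    rw [← p2, ← q2]
    exact ker_card ρ ρ' _ hx
  calc Nat.card V ≤ Nat.card T ^ C.card := hC
    _ ≤ (2 ^ s) ^ C.card := Nat.pow_le_pow_left (hy.sec V T φ hφ hT').1 _
    _ ≤ (2 ^ s) ^ KK n m :=
      Nat.pow_le_pow_right (by positivity) (hc.trans (hO n s m G hy).1)
    _ = 2 ^ (s * KK n m) := (pow_mul _ _ _).symm

end Pool.Agent.MP_adf6dd_al.Red
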