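import Pool.Agent.MP_adf6dd_al.h59.Spec

/-! The solvable radical has small index. -/

set_option autoImplicit false

open Matrix

namespace Pool.Agent.MP_adf6dd_al.Red

namespace Soc2

/-- characters with values in `Kp n` that are constant on `N` -/
def FF (n : ℕ) {H : Type} [Group H] (N : Subgroup H) : Set (H → ℂ) :=
  {χ | IsIrr χ ∧ (∀ g, χ g ∈ Kp n) ∧ ∀ v ∈ N, χ v = χ 1}

theorem ff_finite (n : ℕ) {H : Type} [Group H] [Finite H] (N : Subgroup H) : (FF n N).Finite :=
  isIrr_finite.subset fun _ h => h.1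

theorem sum_zero {G : Type} [Group G] [Fintype G] (E : Subgroup G) [E.Normal] [Fintype E] {d : ℕ}
    (ρ : E →* Matrix (Fin d) (Fin d) ℂ) (h0 : ∑ᶠ x, (ρ x).trace = 0) {χ : G → ℂ}
    (h : OverN E ρ χ) : ∑ v : E, χ v = 0 := by
  obtain ⟨c, -, hc⟩ := h
  rw [finsum_eq_sum_of_fintype] at h0
  simp only [hc, finsum_eq_sum_of_fintype]
  rw [← Finset.mul_sum, Finset.sum_comm]
  refine mul_eq_zero_of_right _ (Finset.sum_eq_zero fun x _ => ?_)
  rw [← h0]
  exact Equiv.sum_comp (MulAut.conjNormal x : MulAut E).toEquiv fun v => (ρ v).trace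

theorem ff_lt (hS : SecStmt) (hX : ExsStmt) (hF : LiftStmt) {n s k : ℕ} (hn : 0 < n) {H : Type}
    [Group H] [Finite H] (hs : Sec n s H) {N N1 : Subgroup H} [N.Normal] [N1.Normal]
    (hlt : N < N1) (hk : ∀ x ∈ N1, x ^ n ^ k ∈ N) : (FF n N1).ncard < (FF n N).ncard := by
  have hsur := QuotientGroup.mk'_surjective N
  have hE : (N1.map (QuotientGroup.mk' N)).Normal := Subgroup.Normal.map inferInstance _ hsur
  have hnt : Nontrivial (N1.map (QuotientGroup.mk' N)) := by
    rw [Subgroup.nontrivial_iff_ne_bot]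
    intro h
    rw [Subgroup.map_eq_bot_iff, QuotientGroup.ker_mk'] at h
    exact hlt.not_ge h
  obtain ⟨d, ρ, h1, h2, -⟩ := hX.2.1 (N1.map (QuotientGroup.mk' N))
  obtain ⟨χ, h3, h4, h5⟩ := (hF n s (H ⧸ N) hn (hS.2.1 n s H _ _ hs hsur)
    (N1.map (QuotientGroup.mk' N))).2 d k ρ h1 (by
      rintro ⟨_, x, hx, rfl⟩
      rw [← map_pow, ← map_one ρ]
      congr 1
      refine Subtype.ext ?_
      show (QuotientGroup.mk' N x) ^ n ^ k = 1
      rw [← map_pow, QuotientGroup.mk'_apply, QuotientGroup.eq_one_iff]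
      exact hk x hx)
  refine Set.ncard_lt_ncard ⟨fun ψ hψ => ⟨hψ.1, hψ.2.1, fun v hv => hψ.2.2 v (hlt.le hv)⟩,
    fun hsub => ?_⟩ (ff_finite n N)
  have h6 := hsub (a := fun g => χ (QuotientGroup.mk' N g)) ⟨h3.comp _ hsur, fun g => h4 _,
    fun v hv => by
      show χ (QuotientGroup.mk' N v) = χ (QuotientGroup.mk' N 1)
      rw [map_one, QuotientGroup.mk'_apply, (QuotientGroup.eq_one_iff v).2 hv]⟩
  have := Fintype.ofFinite (H ⧸ N)
  have := Fintype.ofFinite (N1.map (QuotientGroup.mk' N))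
  have h7 := sum_zero _ ρ h2 h5
  have h8 : ∀ v : N1.map (QuotientGroup.mk' N), χ v = χ 1 := by
    rintro ⟨_, x, hx, rfl⟩
    have := h6.2.2 x hx
    simpa only [map_one] using this
  simp only [h8, Finset.sum_const, Finset.card_univ, nsmul_eq_mul] at h7
  rcases mul_eq_zero.1 h7 with h | h
  · exact Fintype.card_ne_zero (by exact_mod_cast h)
  · exact h3.one_ne h

theorem cent_index {H : Type} [Group H] [Finite H] (V : Subgroup H) [V.Normal] {a : ℕ}
    (ha : Nat.card V ≤ 2 ^ a) : (Subgroup.centralizer (V : Set H)).index ≤ 2 ^ (a * a) := by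
  have h1 : (MulAut.conjNormal : H →* MulAut V).ker ≤ Subgroup.centralizer (V : Set H) := by
    intro x hx v hv
    have h2 := congrArg Subtype.val (DFunLike.congr_fun (MonoidHom.mem_ker.1 hx) ⟨v, hv⟩)
    have h3 : x * v * x⁻¹ = v := h2
    exact (mul_inv_eq_iff_eq_mul.1 h3).symm
  have : Finite (MulAut V) := DFunLike.finite _
  refine (Subgroup.index_antitone h1).trans ?_
  rw [Subgroup.index_ker]
  exact (Subgroup.card_le_card_group _).trans (card_mulAut_le ha)

theorem main (hS : SecStmt) (hL : LayStmt) (hX : ExsStmt) (hF : LiftStmt) (h1 : Soc1Stmt)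
    {n s m : ℕ} {H : Type} [Group H] [Finite H] (hy : Hy n s m H)
    (hA : ∀ A : Subgroup H, A.Normal → A ≤ Subgroup.centralizer A → A = ⊥) (B j : ℕ) :
    ∀ N : Subgroup H, N.Normal → (FF n N).ncard = j →
      (Subgroup.centralizer (N : Set H)).index * 2 ^ (j * (s * KK n m * (s * KK n m))) ≤ B →
      Nat.card H ≤ B := by
  induction j using Nat.strong_induction_on with
  | _ j ih =>
  intro N hN hj hB
  by_cases hc : Subgroup.centralizer (N : Set H) = ⊥
  · rw [hc, Subgroup.index_bot] at hB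
    exact (Nat.le_mul_of_pos_right _ (by positivity)).trans hB
  obtain ⟨V, hVN, hV⟩ := exists_minN (D := Subgroup.centralizer (N : Set H)) inferInstance hc
  have := hV.nor
  have hna : ¬ V ≤ Subgroup.centralizer (V : Set H) := fun h => hV.ne (hA V hV.nor h)
  have hnc : ¬ ∀ a b : V, a * b = b * a := fun h => hna fun x hx v hv =>
    congrArg Subtype.val (h ⟨v, hv⟩ ⟨x, hx⟩)
  obtain ⟨k, hk⟩ := hL.2.1 n s H hy.sec V hV hnc
  have hlt : N < N ⊔ V := left_lt_sup.2 fun h => hna fun x hx v hv => hVN hx v (h hv)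
  have h2 := ff_lt hS hX hF (k := k) hy.pos hy.sec hlt (by
    intro x hx
    have hx' : x ∈ ((N ⊔ V : Subgroup H) : Set H) := hx
    rw [Subgroup.normal_mul] at hx'
    obtain ⟨y, hy, v, hv, rfl⟩ := hx'
    have hcm : Commute y v := hVN hv y hy
    have hv1 : v ^ n ^ k = 1 := congrArg Subtype.val (hk ⟨v, hv⟩)
    show (y * v) ^ n ^ k ∈ N
    rw [hcm.mul_pow, hv1, mul_one]
    exact N.pow_mem hy _)
  refine ih _ (hj ▸ h2) (N ⊔ V) inferInstance rfl (le_trans ?_ hB)
  have h3 : Subgroup.centralizer (N : Set H) ⊓ Subgroup.centralizer (V : Set H) ≤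
      Subgroup.centralizer ((N ⊔ V : Subgroup H) : Set H) := by
    intro x hx z hz
    rw [Subgroup.normal_mul] at hz
    obtain ⟨y, hy, v, hv, rfl⟩ := hz
    show y * v * x = x * (y * v)
    rw [mul_assoc, hx.2 v hv, ← mul_assoc, hx.1 y hy, mul_assoc]
  have h4 := ((Subgroup.index_antitone h3).trans Subgroup.index_inf_le).trans
    (Nat.mul_le_mul_left _ (cent_index V (h1 n s m H hy V hV hnc)))
  refine (Nat.mul_le_mul_right _ h4).trans ?_
  rw [mul_assoc, ← pow_add]
  refine Nat.mul_le_mul_left _ (Nat.pow_le_pow_right two_pos ?_)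
  rw [hj] at h2
  rw [add_comm, ← Nat.succ_mul]
  exact Nat.mul_le_mul_right _ h2

end Soc2

theorem soc2S (hS : SecStmt) (hL : LayStmt) (hR : SolStmt) (hX : ExsStmt) (hF : LiftStmt)
    (hO : OrbStmt) (h1 : Soc1Stmt) : Soc2Stmt := by
  intro n s m G _ _ hy
  obtain ⟨S, hN, hsol, hA⟩ := (hR.2 G ⊥).2.2.2.2.2.2.2.2
  have hsur := QuotientGroup.mk'_surjective S
  have hq : Hy n s m (G ⧸ S) := ⟨hy.pos, hy.fb.quot _ hsur, hS.2.1 n s G _ _ hy.sec hsur⟩
  refine ⟨S, hy, hN, hsol, ?_⟩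
  refine Soc2.main hS hL hX hF h1 hq hA _ _ ⊥ inferInstance rfl ?_
  have h2 : Subgroup.centralizer ((⊥ : Subgroup (G ⧸ S)) : Set (G ⧸ S)) = ⊤ := by
    rw [eq_top_iff]
    intro x _ z hz
    rw [show z = 1 from hz, one_mul, mul_one]
  rw [h2, Subgroup.index_top, one_mul]
  refine Nat.pow_le_pow_right two_pos (Nat.mul_le_mul_right _ (le_trans ?_ (hO n s m _ hq).1))
  exact Set.ncard_le_ncard (fun χ h => ⟨h.1, h.2.1⟩) (np_finite n)

end Pool.Agent.MP_adf6dd_al.Red
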