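import Pool.Agent.MP_adf6dd_al.h59.Spec

/-! Solvable subgroups: images, derived series, layers, the radical. -/

set_option autoImplicit false

open scoped commutatorElement

namespace Pool.Agent.MP_adf6dd_al.Red

namespace Sol

variable {G W : Type} [Group G] [Group W]

theorem comm_le (D : Subgroup G) : ⁅D, D⁆ ≤ D :=
  Subgroup.commutator_le.2 fun _ ha _ hb =>
    D.mul_mem (D.mul_mem (D.mul_mem ha hb) (D.inv_mem ha)) (D.inv_mem hb)

theorem lt {R D : Subgroup G} (h : Sol R) (hD : D ≤ R) (h0 : D ≠ ⊥) : ⁅D, D⁆ < D :=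
  lt_of_le_of_ne (comm_le D) fun e => h0 (h D hD e)

theorem image [Finite G] {R : Subgroup G} (h : Sol R) (π : G →* W) : Sol (R.map π) := by
  intro D1 h1 h2
  have key : ∀ D : Subgroup G, D ≤ R → D.map π = D1 → D1 = ⊥ := by
    intro D
    induction D using WellFoundedLT.induction with
    | ind D ih =>
      intro hD e
      by_cases h0 : D = ⊥
      · rw [← e, h0, Subgroup.map_bot]
      · exact ih _ (lt h hD h0) ((comm_le D).trans hD) (by rw [Subgroup.map_commutator, e, h2])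
  refine key (R ⊓ D1.comap π) inf_le_left (le_antisymm ?_ fun y hy => ?_)
  · exact Subgroup.map_le_iff_le_comap.2 inf_le_right
  · obtain ⟨x, hx, rfl⟩ := h1 hy
    exact ⟨x, ⟨hx, hy⟩, rfl⟩

theorem dS_normal {R : Subgroup G} (h : R.Normal) : ∀ k, (dS R k).Normal
  | 0 => h
  | k + 1 => by
    have := dS_normal h k
    exact Subgroup.commutator_normal _ _

theorem dS_succ (R : Subgroup G) (k : ℕ) : dS R (k + 1) ≤ dS R k := comm_le _

theorem dS_le (R : Subgroup G) : ∀ k, dS R k ≤ R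
  | 0 => le_rfl
  | k + 1 => (dS_succ R k).trans (dS_le R k)

theorem dS_map (R : Subgroup G) (π : G →* W) : ∀ k, (dS R k).map π = dS (R.map π) k
  | 0 => rfl
  | k + 1 => by rw [dS, dS, Subgroup.map_commutator, dS_map R π k]

theorem of_comm {R : Subgroup G} (h : R ≤ Subgroup.centralizer R) : Sol R := fun D hD e => by
  rw [← e, eq_bot_iff, ← Subgroup.commutator_eq_bot_iff_le_centralizer.2 h]
  exact Subgroup.commutator_mono hD hD

theorem min_comm {R V : Subgroup G} (h : Sol R) (hV : MinN V) (hVR : V ≤ R) (a b : V) :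
    a * b = b * a := by
  have := hV.nor
  have h1 := (hV.min _ (Subgroup.commutator_normal V V) (comm_le V)).resolve_right
    (lt h hVR hV.ne).ne
  have h2 := Subgroup.commutator_eq_bot_iff_le_centralizer.1 h1 b.2 a a.2
  exact Subtype.ext h2

theorem dS_bot [Finite G] {R : Subgroup G} (hR : Sol R) {k : ℕ} (h : Nat.card G ≤ 2 ^ k) :
    dS R k = ⊥ := by
  have h1 : ∀ n, dS R n = ⊥ ∨ 2 ^ n * Nat.card (dS R n) ≤ Nat.card G := by
    intro n
    induction n with
    | zero => exact Or.inr (by simpa using Subgroup.card_le_card_group (dS R 0))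
    | succ n ih =>
      by_cases h0 : dS R n = ⊥
      · exact Or.inl (eq_bot_iff.2 (h0 ▸ dS_succ R n))
      · right
        have h2 := two_mul_card_le (lt hR (dS_le R n) h0)
        rw [dS, pow_succ, mul_assoc]
        exact (Nat.mul_le_mul_left _ h2).trans (ih.resolve_left h0)
  refine (h1 k).elim id fun h2 => Subgroup.card_le_one_iff_eq_bot _ |>.1 ?_
  exact Nat.le_of_mul_le_mul_left (by simpa using h2.trans h) (pow_pos two_pos k)

theorem dS_idx [Finite G] {R : Subgroup G} (hR : Sol R) (B : Subgroup G) (k : ℕ) (hB : B.Normal)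
    (h : B.index ≤ 2 ^ k) : dS R k ≤ B := by
  have := dS_bot (G := G ⧸ B) (image hR (QuotientGroup.mk' B)) h
  rwa [← dS_map, Subgroup.map_eq_bot_iff, QuotientGroup.ker_mk'] at this

theorem layer [Finite G] {R : Subgroup G} (hR : Sol R) (Z D : Subgroup G) :
    D.Normal → D ≤ R → ¬ D ≤ Z →
      ∃ D' : Subgroup G, D'.Normal ∧ D' ≤ D ∧ ¬ D' ≤ Z ∧ ⁅D', D'⁆ ≤ Z := by
  induction D using WellFoundedLT.induction with
  | ind D ih =>
    intro hD hDR h
    by_cases h1 : ⁅D, D⁆ ≤ Z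
    · exact ⟨D, hD, le_rfl, h, h1⟩
    · have h2 : D ≠ ⊥ := by rintro rfl; exact h bot_le
      obtain ⟨D', a, b, c, d⟩ := ih _ (lt hR hDR h2) (Subgroup.commutator_normal D D)
        ((comm_le D).trans hDR) h1
      exact ⟨D', a, b.trans (comm_le D), c, d⟩

theorem radical [Finite G] : ∃ S : Subgroup G, ∃ _ : S.Normal, Sol S ∧
    ∀ A : Subgroup (G ⧸ S), A.Normal → A ≤ Subgroup.centralizer A → A = ⊥ := by
  obtain ⟨S, hS, hmax⟩ := Set.Finite.exists_maximal
    (s := {S : Subgroup G | S.Normal ∧ Sol S}) (Set.toFinite _)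
    ⟨⊥, inferInstance, fun D hD _ => eq_bot_iff.2 hD⟩
  have := hS.1
  refine ⟨S, hS.1, hS.2, fun A hA hc => ?_⟩
  have h1 : Sol (A.comap (QuotientGroup.mk' S)) := fun D hD e => by
    have h2 := of_comm hc (D.map (QuotientGroup.mk' S)) (Subgroup.map_le_iff_le_comap.2 hD)
      (by rw [← Subgroup.map_commutator, e])
    rw [Subgroup.map_eq_bot_iff, QuotientGroup.ker_mk'] at h2
    exact hS.2 D h2 e
  have h2 : S ≤ A.comap (QuotientGroup.mk' S) := fun x hx => by
    rw [Subgroup.mem_comap, QuotientGroup.mk'_apply, (QuotientGroup.eq_one_iff x).2 hx]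
    exact A.one_mem
  have h3 := hmax ⟨hA.comap _, h1⟩ h2
  rw [eq_bot_iff]
  intro y hy
  obtain ⟨x, rfl⟩ := QuotientGroup.mk'_surjective S y
  exact (QuotientGroup.eq_one_iff x).2 (h3 hy)

end Sol

theorem solS (hS : SecStmt) : SolStmt := by
  refine ⟨fun n s m u G W _ _ _ π R hπ h => ?_, fun G _ _ R => ⟨Sol.dS_normal, Sol.dS_succ R,
    Sol.dS_le R, fun W _ π => Sol.dS_map R π, Sol.of_comm, fun h V hV hVR => Sol.min_comm h hV hVR,
    Sol.dS_idx, Sol.layer, Sol.radical⟩⟩
  refine ⟨⟨h.hy.pos, h.hy.fb.quot π hπ, hS.2.1 n s G W π h.hy.sec hπ⟩, h.nor.map π hπ,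
    Sol.image h.sol π, le_trans ?_ h.idx⟩
  exact Nat.le_of_dvd (Nat.pos_of_ne_zero Subgroup.index_ne_zero_of_finite) (R.index_map_dvd hπ)

end Pool.Agent.MP_adf6dd_al.Red
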