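import Pool.Agent.MP_adf6dd_al.h59.Spec

/-! Subgroups of small index in an abelian group with few generators. -/

set_option autoImplicit false

namespace Pool.Agent.MP_adf6dd_al.Red

namespace Sub

variable {Γ : Type} [CommGroup Γ] [Finite Γ]

/-- a numbering of the classes of `H` modulo `D` -/
theorem num (H : Subgroup Γ) : ∃ e : Subgroup Γ → H → ℕ, ∀ D : Subgroup Γ,
    (∀ h, e D h < D.relIndex H) ∧ ∀ h h' : H, e D h = e D h' → (h : Γ)⁻¹ * h' ∈ D := by
  refine ⟨fun D h => (Finite.equivFin (H ⧸ D.subgroupOf H) (h : H ⧸ D.subgroupOf H) : ℕ),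
    fun D => ⟨fun h => Fin.is_lt _, fun h h' e => ?_⟩⟩
  have := (Finite.equivFin (H ⧸ D.subgroupOf H)).injective (Fin.ext e)
  exact (QuotientGroup.eq (s := D.subgroupOf H)).1 this

theorem dat (H B : Subgroup Γ) (a : Γ) : ∃ (d : ℕ) (h : H), d ≤ B.index ∧
    a ^ d * (h : Γ)⁻¹ ∈ B ∧ ∀ k : ℕ, a ^ k ∈ H ⊔ B → d ∣ k := by
  have h1 : a ^ orderOf (a : Γ ⧸ (H ⊔ B)) ∈ H ⊔ B := by
    rw [← QuotientGroup.eq_one_iff, QuotientGroup.mk_pow, pow_orderOf_eq_one]
  obtain ⟨h, hh, b, hb, e⟩ := Subgroup.mem_sup.1 h1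
  refine ⟨orderOf (a : Γ ⧸ (H ⊔ B)), ⟨h, hh⟩, ?_, ?_, fun k hk => ?_⟩
  · exact orderOf_le_card.trans (Subgroup.index_antitone (le_sup_right : B ≤ H ⊔ B))
  · rw [← e, mul_inv_cancel_comm]; exact hb
  · rw [orderOf_dvd_iff_pow_eq_one, ← QuotientGroup.mk_pow, QuotientGroup.eq_one_iff]
    exact hk

theorem key {H B B' : Subgroup Γ} {a h h' : Γ} {d : ℕ} (hD : B ⊓ H ≤ B') (hh : h ∈ H)
    (h1 : a ^ d * h⁻¹ ∈ B) (h2 : a ^ d * h'⁻¹ ∈ B') (h3 : h⁻¹ * h' ∈ B')
    (hd : ∀ k : ℕ, a ^ k ∈ H ⊔ B → d ∣ k) : B ⊓ (Subgroup.zpowers a ⊔ H) ≤ B' := by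
  rintro x ⟨hx, hz⟩
  obtain ⟨y, hy, g, hg, rfl⟩ := Subgroup.mem_sup.1 hz
  obtain ⟨k, rfl⟩ := mem_powers_iff_mem_zpowers.2 hy
  have hk : a ^ k ∈ H ⊔ B := by
    have := Subgroup.mul_mem_sup (H.inv_mem hg) hx
    rwa [mul_comm (a ^ k) g, inv_mul_cancel_left] at this
  obtain ⟨j, rfl⟩ := hd k hk
  have e : a ^ (d * j) * g = (a ^ d * h⁻¹) ^ j * (h ^ j * g) := by
    rw [mul_pow, pow_mul, inv_pow, mul_assoc, inv_mul_cancel_left]
  have h4 : a ^ d * h⁻¹ ∈ B' := by
    have := B'.mul_mem h2 h3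
    rwa [mul_comm h⁻¹ h', mul_assoc, inv_mul_cancel_left] at this
  have h5 : h ^ j * g ∈ B := by
    have hx' : a ^ (d * j) * g ∈ B := hx
    rw [e] at hx'
    exact (B.mul_mem_cancel_left (B.pow_mem h1 j)).1 hx'
  change a ^ (d * j) * g ∈ B'
  rw [e]
  exact B'.mul_mem (B'.pow_mem h4 j) (hD ⟨h5, H.mul_mem (H.pow_mem hh j) hg⟩)

theorem code (m : ℕ) (S : Finset Γ) : ∃ (X : Type) (_ : Finite X)
    (f : {B : Subgroup Γ | B.index ≤ m} → X), Nat.card X = (m + 1) ^ (2 * S.card) ∧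
      ∀ B B', f B = f B' → B.1 ⊓ Subgroup.closure (S : Set Γ) ≤ B'.1 := by
  classical
  induction S using Finset.induction_on with
  | empty => exact ⟨Unit, inferInstance, fun _ => (), by simp, fun B B' _ => by simp⟩
  | insert a S ha ih =>
    obtain ⟨X, _, f, hX, hf⟩ := ih
    set H := Subgroup.closure (S : Set Γ)
    obtain ⟨e, he⟩ := num H
    choose d h hd h1 h2 using fun B : Subgroup Γ => dat H B a
    have hl : ∀ B : {B : Subgroup Γ | B.index ≤ m}, e (B.1 ⊓ H) (h B) < m + 1 := fun B => by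
      have h3 := (he (B.1 ⊓ H)).1 (h B)
      rw [Subgroup.inf_relIndex_right] at h3
      have h4 := Nat.le_of_dvd (Nat.pos_of_ne_zero Subgroup.index_ne_zero_of_finite)
        (B.1.relIndex_dvd_index_of_normal H)
      have h5 : B.1.index ≤ m := B.2
      omega
    refine ⟨X × Fin (m + 1) × Fin (m + 1), inferInstance,
      fun B => (f B, ⟨d B, Nat.lt_succ_of_le ((hd B).trans B.2)⟩, ⟨_, hl B⟩), ?_, fun B B' q => ?_⟩
    · rw [Nat.card_prod, Nat.card_prod, hX, Nat.card_fin, Finset.card_insert_of_notMem ha]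
      ring
    · simp only [Prod.mk.injEq, Fin.mk.injEq] at q
      obtain ⟨q1, q2, q3⟩ := q
      have q4 : B.1 ⊓ H = B'.1 ⊓ H :=
        le_antisymm (le_inf (hf _ _ q1) inf_le_right) (le_inf (hf _ _ q1.symm) inf_le_right)
      rw [q4] at q3
      rw [Finset.coe_insert, Set.insert_eq, Subgroup.closure_union, ← Subgroup.zpowers_eq_closure]
      exact key (hf _ _ q1) (h B).2 (h1 B) (q2 ▸ h1 B') ((he _).2 _ _ q3).1 (h2 B)

theorem gen_two {A B C : Type} [Group A] [Group B] [Group C] (f : A →* C) (g : B →* C)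
    (hc : ∀ c, ∃ a b, c = f a * g b) (S : Finset A) (T : Finset B)
    (hS : Subgroup.closure (S : Set A) = ⊤) (hT : Subgroup.closure (T : Set B) = ⊤) :
    ∃ U : Finset C, Subgroup.closure (U : Set C) = ⊤ ∧ U.card ≤ S.card + T.card := by
  classical
  refine ⟨S.image f ∪ T.image g, ?_,
    (Finset.card_union_le _ _).trans (add_le_add Finset.card_image_le Finset.card_image_le)⟩
  rw [Finset.coe_union, Subgroup.closure_union, Finset.coe_image, Finset.coe_image,
    ← MonoidHom.map_closure, ← MonoidHom.map_closure, hS, hT, eq_top_iff]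
  intro c _
  obtain ⟨a, b, rfl⟩ := hc c
  exact Subgroup.mul_mem_sup ⟨a, trivial, rfl⟩ ⟨b, trivial, rfl⟩

theorem units (N : ℕ) : 0 < N → ∃ S : Finset (ZMod N)ˣ,
    Subgroup.closure (S : Set (ZMod N)ˣ) = ⊤ ∧ S.card ≤ 2 * N.primeFactors.card := by
  classical
  induction N using Nat.recOnPosPrimePosCoprime with
  | prime_pow p n hp hn =>
    intro _
    obtain ⟨a, b, hab⟩ := units_gen hp n
    haveI : NeZero (p ^ (n + 2)) := ⟨pow_ne_zero _ hp.ne_zero⟩
    have hd : p ^ n ∣ p ^ (n + 2) := pow_dvd_pow p (by omega)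
    refine ⟨{ZMod.unitsMap hd a, ZMod.unitsMap hd b}, ?_, ?_⟩
    · rw [eq_top_iff]
      intro c _
      obtain ⟨c, rfl⟩ := ZMod.unitsMap_surjective hd c
      have ha : ZMod.unitsMap hd a ∈ Subgroup.closure
          (({ZMod.unitsMap hd a, ZMod.unitsMap hd b} : Finset _) : Set (ZMod (p ^ n))ˣ) :=
        Subgroup.subset_closure (by simp)
      have hb : ZMod.unitsMap hd b ∈ Subgroup.closure
          (({ZMod.unitsMap hd a, ZMod.unitsMap hd b} : Finset _) : Set (ZMod (p ^ n))ˣ) :=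
        Subgroup.subset_closure (by simp)
      rcases hab c with ⟨k, hk⟩ | ⟨k, hk⟩
      · rw [← hk, map_zpow]
        exact Subgroup.zpow_mem _ hb k
      · rw [← Subgroup.mul_mem_cancel_right _ ha, ← map_mul, ← hk, map_zpow]
        exact Subgroup.zpow_mem _ hb k
    · rw [Nat.primeFactors_prime_pow hn.ne' hp, Finset.card_singleton]
      exact Finset.card_le_two
  | zero => exact fun h => absurd h (lt_irrefl 0)
  | one => exact fun _ => ⟨∅, Subsingleton.elim _ _, by simp⟩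
  | coprime a b ha hb hab iha ihb =>
    intro _
    obtain ⟨S, hS, cS⟩ := iha (by omega)
    obtain ⟨T, hT, cT⟩ := ihb (by omega)
    let e : (ZMod (a * b))ˣ ≃* (ZMod a)ˣ × (ZMod b)ˣ :=
      (Units.mapEquiv (ZMod.chineseRemainder hab).toMulEquiv).trans MulEquiv.prodUnits
    obtain ⟨U, hU, cU⟩ := gen_two (e.symm.toMonoidHom.comp (MonoidHom.inl _ _))
      (e.symm.toMonoidHom.comp (MonoidHom.inr _ _))
      (fun c => ⟨(e c).1, (e c).2, by
        rw [MonoidHom.comp_apply, MonoidHom.comp_apply, ← map_mul, MonoidHom.inl_apply,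
          MonoidHom.inr_apply, Prod.fst_mul_snd]
        exact (e.symm_apply_apply c).symm⟩) S T hS hT
    refine ⟨U, hU, ?_⟩
    rw [hab.primeFactors_mul, Finset.card_union_of_disjoint hab.disjoint_primeFactors]
    omega

end Sub

theorem subS : SubStmt := by
  refine ⟨fun Γ _ _ S m hS => ?_, Sub.units⟩
  obtain ⟨X, _, f, hX, hf⟩ := Sub.code m S
  rw [← hX, ← Nat.card_coe_set_eq]
  rw [hS] at hf
  simp only [inf_top_eq] at hf
  exact Nat.card_le_card_of_injective f fun B B' q =>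
    Subtype.ext (le_antisymm (hf _ _ q) (hf _ _ q.symm))

end Pool.Agent.MP_adf6dd_al.Red
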