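import Pool.Agent.MP_adf6dd_al.h59.Spec

/-! A chain of irreducible representations with decreasing kernels. -/

set_option autoImplicit false

open Matrix
open scoped Kronecker

namespace Pool.Agent.MP_adf6dd_al.Red

namespace Ten

variable {V T ι κ : Type} [Group V] [Group T] [Fintype ι] [DecidableEq ι] [Fintype κ]
  [DecidableEq κ]

theorem reidx {ρ : V →* Matrix ι ι ℂ} (h : SR ρ) :
    ∃ (d : ℕ) (ρ' : V →* Matrix (Fin d) (Fin d) ℂ), SR ρ' ∧ ∀ v, ρ' v = 1 ↔ ρ v = 1 := by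
  let e := Matrix.reindexAlgEquiv ℂ ℂ (Fintype.equivFin ι)
  refine ⟨Fintype.card ι, e.toMonoidHom.comp ρ, ⟨h.ne.map (Fintype.equivFin ι), fun {A} hA => ?_⟩,
    fun v => ?_⟩
  · obtain ⟨c, hc⟩ := h.comm_scalar (A := e.symm A) fun x => e.injective (by
      rw [map_mul, map_mul, e.apply_symm_apply]
      exact hA x)
    exact ⟨c, by rw [← e.apply_symm_apply A, hc, map_smul, map_one]⟩
  · exact map_eq_one_iff e e.injective

/-- the tensor product of two representations -/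
def kr (ρ : V →* Matrix ι ι ℂ) (τ : V →* Matrix κ κ ℂ) : V →* Matrix (ι × κ) (ι × κ) ℂ where
  toFun g := ρ g ⊗ₖ τ g
  map_one' := by simp
  map_mul' a b := by simp only [map_mul]; exact mul_kronecker_mul _ _ _ _

theorem kr_sr [Finite V] [Finite T] {ρ : V →* Matrix ι ι ℂ} {σ : T →* Matrix κ κ ℂ} (h : SR ρ)
    (h' : SR σ) (φ : V →* T) (hs : ∀ t, ∃ d, ρ d = 1 ∧ φ d = t) : SR (kr ρ (σ.comp φ)) := by
  refine ⟨h.ne.elim fun i => h'.ne.elim fun k => ⟨(i, k)⟩, fun {A} hA => ?_⟩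
  have hA' : ∀ x, A * (ρ x ⊗ₖ σ (φ x)) = (ρ x ⊗ₖ σ (φ x)) * A := hA
  let L : Matrix ι ι ℂ →ₗ[ℂ] Matrix (ι × κ) (ι × κ) ℂ :=
    { toFun := fun B => B ⊗ₖ (1 : Matrix κ κ ℂ)
      map_add' := fun B C => add_kronecker _ _ _
      map_smul' := fun c B => smul_kronecker _ _ _ }
  let R : Matrix κ κ ℂ →ₗ[ℂ] Matrix (ι × κ) (ι × κ) ℂ :=
    { toFun := fun B => (1 : Matrix ι ι ℂ) ⊗ₖ B
      map_add' := fun B C => kronecker_add _ _ _
      map_smul' := fun c B => kronecker_smul _ _ _ }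
  have h1 := h.ext_lin (LinearMap.mulLeft ℂ A ∘ₗ L) (LinearMap.mulRight ℂ A ∘ₗ L) fun x => by
    obtain ⟨d, d1, d2⟩ := hs (φ x)⁻¹
    have := hA' (x * d)
    rw [map_mul, map_mul, d1, d2, mul_one, mul_inv_cancel, map_one] at this
    exact this
  have h2 := h'.ext_lin (LinearMap.mulLeft ℂ A ∘ₗ R) (LinearMap.mulRight ℂ A ∘ₗ R) fun t => by
    obtain ⟨d, d1, d2⟩ := hs t
    have := hA' d
    rw [d1, d2] at this
    exact this
  obtain ⟨c, hc⟩ := mem_range_scalar_iff_commute_single'.2 (show ∀ p q, Commute (single p q 1) A from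
    fun p q => by
      have e1 : A * (single p.1 q.1 (1 : ℂ) ⊗ₖ (1 : Matrix κ κ ℂ)) =
          (single p.1 q.1 (1 : ℂ) ⊗ₖ (1 : Matrix κ κ ℂ)) * A := LinearMap.congr_fun h1 _
      have e2 : A * ((1 : Matrix ι ι ℂ) ⊗ₖ single p.2 q.2 (1 : ℂ)) =
          ((1 : Matrix ι ι ℂ) ⊗ₖ single p.2 q.2 (1 : ℂ)) * A := LinearMap.congr_fun h2 _
      have e3 : single p q (1 : ℂ) = (single p.1 q.1 (1 : ℂ) ⊗ₖ (1 : Matrix κ κ ℂ)) *
          ((1 : Matrix ι ι ℂ) ⊗ₖ single p.2 q.2 (1 : ℂ)) := by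
        rw [← mul_kronecker_mul, mul_one, one_mul, single_kronecker_single, one_mul]
      rw [e3]
      exact (Commute.mul_right e1 e2).symm)
  exact ⟨c, by rw [← hc, scalar_apply, smul_one_eq_diagonal]⟩

theorem kr_ker {ρ : V →* Matrix ι ι ℂ} {σ : T →* Matrix κ κ ℂ} (h : Nonempty ι) (h' : Nonempty κ)
    (φ : V →* T) (hσ : Function.Injective σ) (hc : ∀ t : T, (∀ s, t * s = s * t) → t = 1) (v : V) :
    kr ρ (σ.comp φ) v = 1 ↔ ρ v = 1 ∧ φ v = 1 := by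
  show ρ v ⊗ₖ σ (φ v) = 1 ↔ _
  refine ⟨fun e => ?_, fun e => by rw [e.1, e.2, map_one, one_kronecker_one]⟩
  obtain ⟨i⟩ := h
  obtain ⟨k⟩ := h'
  have h1 : ρ v i i • σ (φ v) = 1 := by
    ext a b
    simpa [one_apply] using congrFun (congrFun e (i, a)) (i, b)
  have h2 : ρ v i i ≠ 0 := fun h0 => by
    have := congrFun (congrFun h1 k) k
    simp [h0] at this
  have h3 : φ v = 1 := hc _ fun s => hσ (smul_right_injective _ h2 (by
    show ρ v i i • σ (φ v * s) = ρ v i i • σ (s * φ v)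
    rw [map_mul, map_mul, ← smul_mul_assoc, ← mul_smul_comm, h1, one_mul, mul_one]))
  refine ⟨?_, h3⟩
  rw [h3, map_one] at e
  ext a b
  simpa [one_apply] using congrFun (congrFun e (a, k)) (b, k)

theorem cen [IsSimpleGroup T] (hn : ¬ ∀ a b : T, a * b = b * a) (t : T)
    (ht : ∀ s, t * s = s * t) : t = 1 := by
  rcases (inferInstance : (Subgroup.center T).Normal).eq_bot_or_eq_top with h | h
  · exact Subgroup.mem_bot.1 (h ▸ Subgroup.mem_center_iff.2 fun s => (ht s).symm)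
  · exact absurd (fun a b => Subgroup.mem_center_iff.1 (h ▸ Subgroup.mem_top b) a) hn

theorem step (hX : ExsStmt) [Finite V] [IsSimpleGroup T] (hn : ¬ ∀ a b : T, a * b = b * a)
    (φ : V →* T) (hφ : Function.Surjective φ) {ρ : V →* Matrix ι ι ℂ} (h : SR ρ) {v : V}
    (h1 : ρ v = 1) (h2 : φ v ≠ 1) :
    ∃ (d : ℕ) (ρ' : V →* Matrix (Fin d) (Fin d) ℂ), SR ρ' ∧ Nat.card ρ'.ker < Nat.card ρ.ker ∧
      Nat.card ρ.ker = Nat.card ρ'.ker * Nat.card T := by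
  have := Finite.of_surjective _ hφ
  obtain ⟨e, σ, s1, -, x, hx⟩ := hX.2.1 T
  have s2 : Function.Injective σ := by
    rw [← MonoidHom.ker_eq_bot_iff]
    exact (inferInstance : σ.ker.Normal).eq_bot_or_eq_top.resolve_right fun h =>
      hx (MonoidHom.mem_ker.1 (h ▸ Subgroup.mem_top x))
  have s3 : ρ.ker.map φ = ⊤ :=
    (Subgroup.Normal.map inferInstance φ hφ).eq_bot_or_eq_top.resolve_left fun h =>
      h2 (Subgroup.mem_bot.1 (h ▸ Subgroup.mem_map_of_mem φ (MonoidHom.mem_ker.2 h1)))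
  obtain ⟨d, ρ', r1, r2⟩ := reidx (kr_sr h s1 φ fun t => by
    obtain ⟨d, d1, d2⟩ := Subgroup.mem_map.1 (s3 ▸ Subgroup.mem_top t)
    exact ⟨d, MonoidHom.mem_ker.1 d1, d2⟩)
  have r3 : ρ'.ker = ρ.ker ⊓ φ.ker := by
    ext w
    rw [Subgroup.mem_inf, MonoidHom.mem_ker, MonoidHom.mem_ker, MonoidHom.mem_ker, r2,
      kr_ker h.ne s1.ne φ s2 (cen hn)]
  have r4 : Nat.card ρ.ker = Nat.card ρ'.ker * Nat.card T := by
    rw [← Subgroup.relIndex_bot_left, ← Subgroup.relIndex_bot_left,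
      ← Subgroup.relIndex_mul_relIndex ⊥ ρ'.ker ρ.ker bot_le (r3 ▸ inf_le_left), r3,
      Subgroup.inf_relIndex_left, Subgroup.relIndex_ker, s3, Subgroup.card_top]
  refine ⟨d, ρ', r1, ?_, r4⟩
  rw [r4]
  exact lt_mul_of_one_lt_right Nat.card_pos Finite.one_lt_card

end Ten

open Ten in
theorem tenS (hX : ExsStmt) : TenStmt := by
  intro V T I _ _ _ _ φ hφ hn hi
  have key : ∀ (n d : ℕ) (ρ : V →* Matrix (Fin d) (Fin d) ℂ), SR ρ → Nat.card ρ.ker = n →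
      ∃ C : Finset ℕ, n ≤ Nat.card T ^ C.card ∧ ∀ c ∈ C, c < n ∧
        ∃ (d : ℕ) (ρ : V →* Matrix (Fin d) (Fin d) ℂ), SR ρ ∧ {v | ρ v = 1}.ncard = c := by
    intro n
    induction n using Nat.strong_induction_on with
    | _ n ih =>
      intro d ρ h hc
      by_cases hb : ρ.ker = ⊥
      · exact ⟨∅, by rw [← hc, hb]; simp, by simp⟩
      · obtain ⟨⟨v, v1⟩, v2⟩ := Subgroup.ne_bot_iff_exists_ne_one.1 hb
        obtain ⟨i, hi'⟩ : ∃ i, φ i v ≠ 1 := by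
          by_contra hc
          push Not at hc
          exact v2 (Subtype.ext (hi v hc))
        obtain ⟨d', ρ', r1, r2, r3⟩ := step hX hn (φ i) (hφ i) h (MonoidHom.mem_ker.1 v1) hi'
        obtain ⟨C, c1, c2⟩ := ih _ (hc ▸ r2) d' ρ' r1 rfl
        refine ⟨insert (Nat.card ρ'.ker) C, ?_, fun c hc' => ?_⟩
        · rw [Finset.card_insert_of_notMem fun h => (c2 _ h).1.false, pow_succ, ← hc, r3]
          exact Nat.mul_le_mul_right _ c1
        · rcases Finset.mem_insert.1 hc' with rfl | hc'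
          · exact ⟨hc ▸ r2, d', ρ', r1, rfl⟩
          · exact ⟨(c2 c hc').1.trans (hc ▸ r2), (c2 c hc').2⟩
  obtain ⟨C, c1, c2⟩ := key _ 1 1 ⟨inferInstance, fun {A} _ => ⟨A 0 0, by
    ext i j
    rw [Subsingleton.elim i 0, Subsingleton.elim j 0]
    simp⟩⟩ rfl
  exact ⟨C, by simpa using c1, fun c hc => (c2 c hc).2⟩

end Pool.Agent.MP_adf6dd_al.Red
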