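import Pool.Agent.MP_adf6dd_al.h59.Spec

/-! The group of normalised intertwiners of an invariant irreducible representation. -/

set_option autoImplicit false

open Matrix

namespace Pool.Agent.MP_adf6dd_al.Red

namespace Weil

theorem split {N n : ℕ} (hN : N ≠ 0) : ∃ i t : ℕ, t.Coprime n ∧ N ∣ n ^ i * t := by
  induction N using Nat.strong_induction_on with
  | _ N ih =>
    by_cases h : N.Coprime n
    · exact ⟨0, N, h, by simp⟩
    obtain ⟨p, hp, ⟨b, rfl⟩, h2⟩ := Nat.Prime.not_coprime_iff_dvd.1 h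
    have hb : b ≠ 0 := right_ne_zero_of_mul hN
    obtain ⟨i, t, h3, h4⟩ := ih b (lt_mul_of_one_lt_left (Nat.pos_of_ne_zero hb) hp.one_lt) hb
    exact ⟨i + 1, t, h3, by rw [pow_succ', mul_assoc]; exact mul_dvd_mul h2 h4⟩

variable {G : Type} [Group G] {ι : Type} [Fintype ι] [DecidableEq ι]
  [Finite G] {E : Subgroup G} [E.Normal] {ρ : E →* Matrix ι ι ℂ}
  {p k j : ℕ} (hp : 0 < p) (h : SR ρ) (hd : Fintype.card ι ^ 2 ∣ p ^ j)
  (hρ : ∀ x, ρ x ^ p ^ k = 1)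
  (hinv : ∀ (g : G) (x : E), (ρ (MulAut.conjNormal g x)).trace = (ρ x).trace)

omit [Finite G] [E.Normal] in
include hρ in
theorem trK (x : E) : (ρ x).trace ∈ Kp p := trace_mem_kp (hρ x)

omit [Finite G] in
include h in
theorem wg_ratio {g : G} {A B : (Matrix ι ι ℂ)ˣ}
    (hA : ∀ x : E, (A : Matrix ι ι ℂ) * ρ x = ρ (MulAut.conjNormal g x) * A)
    (hB : ∀ x : E, (B : Matrix ι ι ℂ) * ρ x = ρ (MulAut.conjNormal g x) * B) :
    ∃ c : ℂˣ, (A : Matrix ι ι ℂ) = (c : ℂ) • (B : Matrix ι ι ℂ) := by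
  obtain ⟨c, hc⟩ := h.comm_scalar (A := (B⁻¹ : (Matrix ι ι ℂ)ˣ) * (A : Matrix ι ι ℂ)) (fun x => by
    rw [mul_assoc, hA, Units.inv_mul_eq_iff_eq_mul, ← mul_assoc, ← mul_assoc, hB,
      Units.mul_inv_cancel_right])
  rw [Units.inv_mul_eq_iff_eq_mul, mul_smul_comm, mul_one] at hc
  have hι : Nonempty ι := h.ne
  refine ⟨Units.mk0 c ?_, hc⟩
  rintro rfl
  exact A.ne_zero (by rw [hc, zero_smul])

include h hd hρ hinv in
theorem wg_q (a : WG E ρ (p ^ k)) {t : ℕ} (ht : t.Coprime p) (ha : a ^ t = 1) :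
    InA ρ (Kp p) a.1.2 := by
  obtain ⟨B, hB, hB'⟩ := h.intertwiner (trK hρ) (MulAut.conjNormal a.1.1) (hinv a.1.1)
  obtain ⟨s, hs⟩ := wg_ratio h a.2.1 hB'
  have h2 : (a.1.2 : Matrix ι ι ℂ) ^ t = 1 := by
    have := congrArg (fun b : WG E ρ (p ^ k) => (b.1.2 : Matrix ι ι ℂ)) ha
    simpa using this
  have h3 : ∀ n : ℕ, InA ρ (Kp p) ((B : Matrix ι ι ℂ) ^ n) := by
    intro n
    induction n with
    | zero => simpa using SR.inA_rho (trK hρ) 1
    | succ n ih => rw [pow_succ]; exact h.inA_mul ih hB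
  have h4 : (s : ℂ) ^ t ∈ Kp p := by
    have h5 := h3 t 1
    rw [map_one, mul_one] at h5
    have h6 := congrArg trace h2
    rw [hs, smul_pow, trace_smul, trace_one, smul_eq_mul] at h6
    have h7 : trace ((B : Matrix ι ι ℂ) ^ t) ≠ 0 := by
      intro h0; rw [h0, mul_zero] at h6; exact h.d_ne h6.symm
    rw [← eq_div_iff h7] at h6
    rw [h6]
    exact div_mem (natCast_mem _ _) h5
  have h8 : (s : ℂ) ^ Fintype.card ι ^ 2 ∈ Kp p := by
    have h5 := norm_smul' (s : ℂ) (B : Matrix ι ι ℂ)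
    rw [← hs] at h5
    have h7 : Algebra.norm ℂ (B : Matrix ι ι ℂ) ≠ 0 := (B.isUnit.map _).ne_zero
    rw [eq_comm, ← eq_div_iff h7] at h5
    rw [h5]
    exact div_mem (mem_kp a.2.2) (h.norm_mem (trK hρ) hB)
  have h9 := mem_of_coprime s.ne_zero 
    (Nat.Coprime.coprime_dvd_right hd (Nat.Coprime.pow_right j ht)) h4 h8
  intro x
  rw [hs, smul_mul_assoc, trace_smul, smul_eq_mul]
  exact mul_mem h9 (hB x)

include h hd hρ hinv in
theorem wg_inA (a : WG E ρ (p ^ k)) (hn : orderOf a ≠ 0) : InA ρ (Kp p) a.1.2 := by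
  obtain ⟨i, t, hc, hit⟩ := split (n := p) hn
  have hc' : t.Coprime (p ^ i) := Nat.Coprime.pow_right i hc
  have h1 : a = a ^ ((t : ℤ) * Nat.gcdA t (p ^ i)) * a ^ (((p ^ i : ℕ) : ℤ) * Nat.gcdB t (p ^ i)) := by
    rw [← _root_.zpow_add, ← Nat.gcd_eq_gcd_ab, hc'.gcd_eq_one]; simp
  have h0 : a ^ (((p ^ i * t : ℕ)) : ℤ) = 1 := by
    rw [zpow_natCast]; exact orderOf_dvd_iff_pow_eq_one.1 hit
  have h2 := wg_p hρ (a ^ ((t : ℤ) * Nat.gcdA t (p ^ i))) (i := i) (by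
    rw [← zpow_natCast, ← _root_.zpow_mul, show (t : ℤ) * Nat.gcdA t (p ^ i) * ((p ^ i : ℕ) : ℤ) =
      ((p ^ i * t : ℕ) : ℤ) * Nat.gcdA t (p ^ i) by push_cast; ring, _root_.zpow_mul, h0,
      _root_.one_zpow])
  have h3 := wg_q h hd hρ hinv (a ^ (((p ^ i : ℕ) : ℤ) * Nat.gcdB t (p ^ i))) hc (by
    rw [← zpow_natCast, ← _root_.zpow_mul, show ((p ^ i : ℕ) : ℤ) * Nat.gcdB t (p ^ i) * (t : ℤ) =
      ((p ^ i * t : ℕ) : ℤ) * Nat.gcdB t (p ^ i) by push_cast; ring, _root_.zpow_mul, h0,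
      _root_.one_zpow])
  have h4 := h.inA_mul h2 h3
  rw [h1]
  exact h4

include hp h hd hρ hinv in
theorem weil : ∃ (W : Type) (_ : Group W) (_ : Finite W)
    (π : W →* G) (ν : (E.comap π) →* ℂˣ), Function.Surjective π ∧
    (∀ a b : W, π a = 1 → a * b = b * a) ∧
    (∀ x z, ν (MulAut.conjNormal x z) = ν z) ∧ (∀ z, ν z ^ p ^ (j + k) = 1) ∧
    ∀ χ : W → ℂ, IsIrr χ → (∀ g, χ g ∈ Kp p) →
      (∀ (z : E.comap π) (g : W), χ (z * g) = ν z * χ g) →
      ∃ ψ : G → ℂ, IsIrr ψ ∧ (∀ g, ψ g ∈ Kp p) ∧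
        (∀ g, ∃ A : Matrix ι ι ℂ, ∀ z : E, ψ (z * g) = (ρ z * A).trace) ∧
        ∃ c : ℂ, c ≠ 0 ∧ ∀ z : E, ψ z = c * (ρ z).trace := by
  classical
  let W := WG E ρ (p ^ k)
  let π : W →* G := (MonoidHom.fst _ _).comp W.subtype
  let τ : W →* Matrix ι ι ℂ := (Units.coeHom _).comp ((MonoidHom.snd _ _).comp W.subtype)
  have hι : Nonempty ι := h.ne
  have hτ : ∀ (a : W) (x : E), τ a * ρ x = ρ (MulAut.conjNormal (π a) x) * τ a := fun a => a.2.1
  have hj : ∀ (y x : E), ρ y * ρ x = ρ (MulAut.conjNormal (y : G) x) * ρ y := by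
    intro y x
    rw [← map_mul, ← map_mul]
    congr 1
    apply Subtype.ext
    simp
  let J : E →* W :=
    { toFun := fun y => ⟨((y : G), ρ.toHomUnits y), hj y, by
        show Algebra.norm ℂ (ρ y) ^ p ^ k = 1
        rw [← map_pow, hρ, map_one]⟩
      map_one' := Subtype.ext (by simp)
      map_mul' := fun a b => Subtype.ext (by simp) }
  have hJ1 : ∀ y, π (J y) = y := fun _ => rfl
  have hJ2 : ∀ y, τ (J y) = ρ y := fun _ => rfl
  have hex : ∀ a : E.comap π, ∃ c : ℂˣ, ρ ⟨π a, a.2⟩ = (c : ℂ) • τ a := fun a =>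
    wg_ratio h (A := ρ.toHomUnits ⟨π a, a.2⟩) (B := a.1.1.2) (hj _) a.1.2.1
  choose ν₀ hν₀ using hex
  have huniq : ∀ (a : E.comap π) (c : ℂˣ), ρ ⟨π a, a.2⟩ = (c : ℂ) • τ a → ν₀ a = c := by
    intro a c hc
    rw [hν₀] at hc
    exact Units.ext (smul_left_injective ℂ a.1.1.2.ne_zero hc)
  let ν : E.comap π →* ℂˣ := MonoidHom.mk' ν₀ fun a b => huniq _ _ (by
    have : (⟨π (a * b : E.comap π), (a * b).2⟩ : E) = ⟨π a, a.2⟩ * ⟨π b, b.2⟩ :=
      Subtype.ext (by simp)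
    rw [this, map_mul, hν₀, hν₀, smul_mul_smul_comm]
    simp)
  have hν : ∀ a : E.comap π, ρ ⟨π a, a.2⟩ = (ν a : ℂ) • τ a := hν₀
  have hνp : ∀ z, ν z ^ p ^ (j + k) = 1 := by
    intro z
    have h1 := congrArg (fun M => Algebra.norm ℂ M ^ p ^ k) (hν z)
    have h2 : Algebra.norm ℂ (τ z) ^ p ^ k = 1 := z.1.2.2
    simp only [norm_smul', mul_pow, h2, mul_one] at h1
    rw [← map_pow, hρ, map_one, ← pow_mul] at h1
    obtain ⟨u, hu⟩ := hd
    refine Units.ext ?_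
    rw [Units.val_pow_eq_pow_val, pow_add, hu, mul_right_comm, pow_mul, ← h1, one_pow,
      Units.val_one]
  have hker : ∀ (a : W) (ha : π a = 1), τ a = ((ν ⟨a, by simp [ha]⟩ : ℂˣ) : ℂ)⁻¹ •
      (1 : Matrix ι ι ℂ) := by
    intro a ha
    have h1 := hν ⟨a, by simp [ha]⟩
    have h2 : (⟨π a, by simp [ha]⟩ : E) = 1 := Subtype.ext ha
    simp only [h2, map_one] at h1
    rw [h1, smul_smul, inv_mul_cancel₀ (Units.ne_zero _), one_smul]
  have hext : ∀ a b : W, π a = π b → τ a = τ b → a = b := fun a b h1 h2 =>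
    Subtype.ext (Prod.ext h1 (Units.ext h2))
  have hfin : Finite W := by
    have : NeZero (p ^ (j + k)) := ⟨pow_ne_zero _ hp.ne'⟩
    refine π.finite_iff_finite_ker_range.2 ⟨Finite.of_injective
      (fun a : π.ker => (⟨ν ⟨a.1, by simp [MonoidHom.mem_ker.1 a.2]⟩, hνp _⟩ :
        rootsOfUnity (p ^ (j + k)) ℂ)) ?_, inferInstance⟩
    intro a b hab
    have h1 := congrArg Subtype.val hab
    simp only at h1
    exact Subtype.ext (hext _ _ (by rw [a.2, b.2]) (by rw [hker _ a.2, hker _ b.2, h1]))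
  have hsol : ∀ a b : W, π a = 1 → a * b = b * a := fun a b ha =>
    hext _ _ (by rw [map_mul, map_mul, ha, one_mul, mul_one]) (by
      rw [map_mul, map_mul, hker _ ha]; simp)
  have hsurj : Function.Surjective π := by
    intro g
    obtain ⟨B, -, hB⟩ := h.intertwiner (trK hρ) (MulAut.conjNormal g) (hinv g)
    have h7 : Algebra.norm ℂ (B : Matrix ι ι ℂ) ≠ 0 := (B.isUnit.map _).ne_zero
    obtain ⟨s, hs⟩ := IsAlgClosed.exists_pow_nat_eq (Algebra.norm ℂ (B : Matrix ι ι ℂ))⁻¹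
      (n := Fintype.card ι ^ 2) (pow_pos Fintype.card_pos 2)
    have hs0 : s ≠ 0 := by
      rintro rfl
      rw [zero_pow (pow_pos Fintype.card_pos 2).ne'] at hs
      exact inv_ne_zero h7 hs.symm
    refine ⟨⟨(g, Units.mk0 s hs0 • B), fun x => ?_, ?_⟩, rfl⟩
    · show (s • (B : Matrix ι ι ℂ)) * ρ x = _ * (s • (B : Matrix ι ι ℂ))
      rw [smul_mul_assoc, mul_smul_comm, hB]
    · show Algebra.norm ℂ (s • (B : Matrix ι ι ℂ)) ^ p ^ k = 1
      rw [norm_smul', hs, inv_mul_cancel₀ h7, one_pow]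
  refine ⟨W, inferInstance, hfin, π, ν, hsurj, hsol, fun x z => huniq _ _ ?_, hνp,
    fun χ hχ hK hov => ?_⟩
  · have h1 : (⟨π (MulAut.conjNormal x z : E.comap π), (MulAut.conjNormal x z).2⟩ : E) =
        MulAut.conjNormal (π x) ⟨π z, z.2⟩ := Subtype.ext (by simp)
    have h2 := hτ x ⟨π z, z.2⟩
    have h3 : τ x * τ x⁻¹ = 1 := by rw [← map_mul]; simp
    rw [h1, ← mul_one (ρ _), ← h3, ← mul_assoc, ← h2, hν]
    simp
  have hνJ : ∀ y : E, ν ⟨J y, y.2⟩ = 1 := fun y => huniq _ _ (by simp [hJ1, hJ2])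
  have hχJ : ∀ (y : E) (g : W), χ (J y * g) = χ g := fun y g => by
    have := hov ⟨J y, y.2⟩ g
    rwa [hνJ, Units.val_one, one_mul] at this
  have hc : IsChar (fun a : W => (τ a).trace * χ a) := (IsChar.of τ fun _ => rfl).mul hχ.1
  obtain ⟨ψ, hψ, hψπ⟩ := hc.desc π hsurj (fun z hz g => by
    have := hov ⟨z, by simp [hz]⟩ g
    simp only at this
    simp only [map_mul, this]
    rw [hker z hz, smul_mul_assoc, one_mul, trace_smul, smul_eq_mul]
    field_simp)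
  refine ⟨ψ, (isIrr_comp_iff hψ π hsurj).1 ?_, fun g => ?_, fun g => ?_, χ 1, hχ.one_ne,
    fun z => ?_⟩
  · have := Fintype.ofFinite W
    have := Fintype.ofFinite E
    simp only [hψπ]
    refine isIrr_iff.2 ⟨hc, ?_⟩
    have h0 : (Nat.card E : ℂ) ≠ 0 := by exact_mod_cast (Nat.card_pos (α := E)).ne'
    apply mul_left_cancel₀ h0
    have h1 : ∀ y : E, ∑ a : W, (τ a).trace * χ a * ((τ a⁻¹).trace * χ a⁻¹) =
        ∑ a : W, ((τ a * ρ y).trace * (ρ y⁻¹ * τ a⁻¹).trace) * (χ a * χ a⁻¹) := by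
      intro y
      rw [← Equiv.sum_comp (Equiv.mulRight (J y))]
      refine Finset.sum_congr rfl fun a _ => ?_
      simp only [Equiv.coe_mulRight, _root_.mul_inv_rev, map_mul]
      rw [hχ.1.comm a, hχJ, ← map_inv J, hχJ, hJ2, hJ2]
      ring
    calc _ = ∑ y : E, ∑ a : W, (τ a).trace * χ a * ((τ a⁻¹).trace * χ a⁻¹) := by
          rw [Finset.sum_const, Finset.card_univ, ← Nat.card_eq_fintype_card, nsmul_eq_mul]
      _ = ∑ a : W, (Nat.card E : ℂ) * (χ a * χ a⁻¹) := by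
          rw [Finset.sum_congr rfl fun y _ => h1 y, Finset.sum_comm]
          refine Finset.sum_congr rfl fun a _ => ?_
          rw [← Finset.sum_mul, h.sum_tr (by rw [← map_mul]; simp)]
      _ = _ := by rw [← Finset.mul_sum, (isIrr_iff.1 hχ).2]
  · obtain ⟨a, rfl⟩ := hsurj g
    rw [hψπ]
    have := wg_inA h hd hρ hinv a (orderOf_pos a).ne' 1
    rw [map_one, mul_one] at this
    exact mul_mem this (hK a)
  · obtain ⟨a, rfl⟩ := hsurj g
    refine ⟨χ a • τ a, fun z => ?_⟩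
    rw [← hJ1 z, ← map_mul, hψπ, hχJ, map_mul, hJ2, mul_smul_comm, trace_smul, smul_eq_mul,
      mul_comm]
  · have := hχJ z 1
    rw [mul_one] at this
    rw [← hJ1 z, hψπ, this, hJ2, mul_comm]

end Weil

theorem weilS (hX : ExsStmt) : WeilStmt := by
  intro G _ _ E _ d n k ρ hn h hρ hinv
  obtain ⟨j, hj⟩ := hX.2.2.2 E d n k ρ h hρ
  obtain ⟨W, i1, i2, π, ν, h1⟩ := Weil.weil (j := j) hn h (by rwa [Fintype.card_fin]) hρ hinv
  exact ⟨W, i1, i2, π, ν, j + k, h1⟩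

end Pool.Agent.MP_adf6dd_al.Red
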