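import Pool.Agent.MP_adf6dd_al.h59.Sec
import Pool.Agent.MP_adf6dd_al.h59.Lay
import Pool.Agent.MP_adf6dd_al.h59.Sol
import Pool.Agent.MP_adf6dd_al.h59.Exs
import Pool.Agent.MP_adf6dd_al.h59.Weil
import Pool.Agent.MP_adf6dd_al.h59.Ind
import Pool.Agent.MP_adf6dd_al.h59.Lift
import Pool.Agent.MP_adf6dd_al.h59.Sub
import Pool.Agent.MP_adf6dd_al.h59.Orb
import Pool.Agent.MP_adf6dd_al.h59.Ten
import Pool.Agent.MP_adf6dd_al.h59.Soc1
import Pool.Agent.MP_adf6dd_al.h59.Soc2
import Pool.Agent.MP_adf6dd_al.h59.Lin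
import Pool.Agent.MP_adf6dd_al.h59.Pri
import Pool.Agent.MP_adf6dd_al.h59.Size
import Pool.Agent.MP_adf6dd_al.h59.Min
import Pool.Agent.MP_adf6dd_al.h59.Fin

/-! Assembly. -/

set_option autoImplicit false

namespace Pool.Agent.MP_adf6dd_al.Red

theorem layT : LayStmt := layS secS
theorem solT : SolStmt := solS secS
theorem liftT : LiftStmt := liftS secS layT exsS (weilS exsS) (indS exsS)
theorem orbT : OrbStmt := orbS secS layT liftT subS
theorem soc2T : Soc2Stmt :=
  soc2S secS layT solT exsS liftT orbT (soc1S layT exsS liftT orbT (tenS exsS))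
theorem priT : PriStmt := priS layT solT
theorem sizeT : SizeStmt := sizeS layT solT orbT priT
theorem minT : MinStmt := minS layT solT orbT (linS solT) sizeT

end Pool.Agent.MP_adf6dd_al.Red
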