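import Pool.Agent.MP_adf6dd_al.h59.Spec

/-! Linear groups with few orbits and a solvable normal subgroup of small index. -/

set_option autoImplicit false

open scoped IsMulCommutative commutatorElement

namespace Pool.Agent.MP_adf6dd_al.Red

theorem Lin.pair (hR : SolStmt) {H : Type} [Group H] [Finite H] {Q : Subgroup H} (hQ : Q.Normal)
    (hs : Sol Q) : ∃ A E : Subgroup H, A.Normal ∧ E.Normal ∧ A ≤ E ∧ E ≤ Q ∧ ⁅E, E⁆ ≤ A ∧
      E ≤ Subgroup.centralizer A ∧ Subgroup.centralizer E ⊓ Q ≤ A := by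
  obtain ⟨A, ⟨hA, hAQ, hA'⟩, hAm⟩ := Set.Finite.exists_maximal
    (s := {A : Subgroup H | A.Normal ∧ A ≤ Q ∧ A ≤ Subgroup.centralizer A}) (Set.toFinite _)
    ⟨⊥, inferInstance, bot_le, bot_le⟩
  obtain ⟨E, ⟨hE, h1, hEQ, h2, h3⟩, hEm⟩ := Set.Finite.exists_maximal
    (s := {E : Subgroup H | E.Normal ∧ A ≤ E ∧ E ≤ Q ∧ ⁅E, E⁆ ≤ A ∧ E ≤ Subgroup.centralizer A})
    (Set.toFinite _) ⟨A, hA, le_rfl, hAQ, Subgroup.commutator_le_left _ _, hA'⟩
  refine ⟨A, E, hA, hE, h1, hEQ, h2, h3, ?_⟩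
  have h4 : E ⊓ Subgroup.centralizer E ≤ A :=
    hAm ⟨inferInstance, inf_le_left.trans hEQ,
      inf_le_right.trans (Subgroup.centralizer_le inf_le_left)⟩
      (le_inf h1 (Subgroup.le_centralizer_iff.1 h3))
  by_contra hne
  obtain ⟨D, hD, h5', h6, h7⟩ :=
    (hR.2 H Q).2.2.2.2.2.2.2.1 hs A _ inferInstance inf_le_right hne
  have h5 := h5'.trans inf_le_left
  have key : ∀ K L : Subgroup H, ⁅K, L⁆ ≤ A ↔ K.map (QuotientGroup.mk' A) ≤
      Subgroup.centralizer (L.map (QuotientGroup.mk' A)) := fun K L => by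
    rw [← Subgroup.commutator_eq_bot_iff_le_centralizer, ← Subgroup.map_commutator,
      Subgroup.map_eq_bot_iff, QuotientGroup.ker_mk']
  have hs : ∀ K K' L : Subgroup H, ⁅K, L⁆ ≤ A → ⁅K', L⁆ ≤ A → ⁅L, K ⊔ K'⁆ ≤ A := by
    intro K K' L a b
    rw [Subgroup.commutator_comm, key, Subgroup.map_sup]
    exact sup_le ((key _ _).1 a) ((key _ _).1 b)
  have h8 : ⁅D, E⁆ ≤ A := by
    rw [Subgroup.commutator_eq_bot_iff_le_centralizer.2 h5]
    exact bot_le
  have h9 : E ⊔ D ≤ E := hEm ⟨inferInstance, h1.trans le_sup_left,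
    sup_le hEQ (h5'.trans inf_le_right),
    hs _ _ _ (hs _ _ _ h2 h8) (hs _ _ _ (by rwa [Subgroup.commutator_comm]) h7),
    sup_le h3 (h5.trans (Subgroup.centralizer_le h1))⟩ le_sup_left
  exact h6 ((le_inf (le_sup_right.trans h9) h5).trans h4)

theorem linS (hR : SolStmt) : LinStmt := by
  intro H X _ _ _ _ _ Q hQ hsol ρ hρ hs K L l u0 hK hL hl hu
  classical
  obtain ⟨A, E, hA, hE, hAE, hEQ, hEE, hEA, hCE⟩ := Lin.pair hR hQ hsol
  refine ⟨A, hA, hAE.trans hEA, ?_⟩
  let R := Subring.closure (ρ '' A)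
  have hRA : ∀ a ∈ A, ρ a ∈ R := fun a ha => Subring.subset_closure ⟨a, ha, rfl⟩
  have hW : ∀ y ∈ E, ∀ c ∈ R, ρ y * c = c * ρ y := fun y hy c hc =>
    (Subring.closure_le (t := Subring.centralizer {ρ y})).2 (by
      rintro _ ⟨a, ha, rfl⟩ _ rfl
      rw [← map_mul, ← map_mul, hEA hy a ha]) hc _ rfl
  have hc : ∀ a ∈ R, ∀ b ∈ R, a * b = b * a := fun a ha b hb =>
    (Subring.closure_le (t := Subring.centralizer {a})).2 (by
      rintro _ ⟨y, hy, rfl⟩ _ rfl
      exact (hW y (hAE hy) _ ha).symm) hb _ rfl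
  have hj : ∀ h : H, ∀ c ∈ R, ρ h * c * ρ h⁻¹ ∈ R := by
    intro h c hc
    induction hc using Subring.closure_induction with
    | mem x hx =>
      obtain ⟨a, ha, rfl⟩ := hx
      rw [← map_mul, ← map_mul]
      exact hRA _ (hA.conj_mem a ha h)
    | zero => rw [mul_zero, zero_mul]; exact R.zero_mem
    | one => rw [mul_one, ← map_mul, mul_inv_cancel, map_one]; exact R.one_mem
    | add x y _ _ hx hy => rw [mul_add, add_mul]; exact R.add_mem hx hy
    | neg x _ hx => rw [mul_neg, neg_mul]; exact R.neg_mem hx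
    | mul x y _ _ hx hy =>
      have := R.mul_mem hx hy
      rwa [mul_assoc, ← mul_assoc (ρ h⁻¹), ← mul_assoc (ρ h⁻¹), ← map_mul, inv_mul_cancel,
        map_one, one_mul, ← mul_assoc, mul_assoc _ x] at this
  obtain ⟨x, hx0, hxm⟩ := Set.exists_max_image {x : X | x ≠ 0} (fun x => (Ann R x).ncard)
    (Set.toFinite _) (exists_ne 0)
  have hx : Mx R x := ⟨hx0, hxm⟩
  have hne : ∀ h : H, ρ h x ≠ 0 := fun h e => hx.1 (by
    have := congrArg (ρ h⁻¹) e
    rwa [← rho_mul, inv_mul_cancel, rho_one, map_zero] at this)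
  have hxh : ∀ h : H, Mx R (ρ h x) := fun h =>
    ⟨hne h, fun z hz => (ann_card ρ hj h x).symm ▸ hx.2 z hz⟩
  let Y : AddSubgroup X :=
    { carrier := {z | Ann R x ⊆ Ann R z}
      zero_mem' := fun c hc => ⟨hc.1, map_zero c⟩
      add_mem' := fun {a b} ha hb c hc => ⟨hc.1, by rw [map_add, (ha hc).2, (hb hc).2, add_zero]⟩
      neg_mem' := fun {a} ha c hc => ⟨hc.1, by rw [map_neg, (ha hc).2, neg_zero]⟩ }
  have hxY : x ∈ Y := fun _ h => h
  have hcomm : ∀ c : AddMonoid.End X, (∀ d ∈ R, c * d = d * c) → ∀ z ∈ Y, c z ∈ Y :=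
    fun c h z hz d hd => ⟨hd.1, by
      have := DFunLike.congr_fun (h d hd.1) z
      change c (d z) = d (c z) at this
      rw [← this, (hz hd).2, map_zero]⟩
  let T : Subgroup H :=
    { carrier := {h | ∀ z, z ∈ Y ↔ ρ h z ∈ Y}
      one_mem' := fun z => by rw [rho_one]
      mul_mem' := fun {a b} ha hb z => by rw [rho_mul, ← ha, ← hb]
      inv_mem' := fun {a} ha z => by rw [ha (ρ a⁻¹ z), ← rho_mul, mul_inv_cancel, rho_one] }
  have hET : E ≤ T := fun y hy z => ⟨hcomm _ (hW y hy) z, fun h => by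
    have := hcomm _ (hW _ (E.inv_mem hy)) _ h
    rwa [← rho_mul, inv_mul_cancel, rho_one] at this⟩
  have hb : T.index ≤ K := by
    have := Fintype.ofFinite (H ⧸ T)
    have h1 : ∀ q q' : H ⧸ T, Ann R (ρ q.out x) = Ann R (ρ q'.out x) → q = q' := by
      have key : ∀ g k : H, Ann R (ρ g x) = Ann R (ρ k x) → ∀ z ∈ Y, ρ (g⁻¹ * k) z ∈ Y := by
        intro g k e z hz
        have h2 := ann_sub ρ hj k hz
        rw [← e] at h2
        have h3 := ann_sub ρ hj g⁻¹ h2
        rwa [← rho_mul, ← rho_mul, inv_mul_cancel, rho_one] at h3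
      intro q q' e
      rw [← q.out_eq', ← q'.out_eq', QuotientGroup.eq]
      refine fun z => ⟨key _ _ e z, fun h => ?_⟩
      have := key _ _ e.symm _ h
      rwa [← rho_mul, show q'.out⁻¹ * q.out * (q.out⁻¹ * q'.out) = 1 by group, rho_one] at this
    obtain ⟨y, s, -, h2, -, h3⟩ := ann_chain hc (Finset.univ.image fun q : H ⧸ T => ρ q.out x)
      (fun z hz => by
        obtain ⟨q, -, rfl⟩ := Finset.mem_image.1 hz
        exact hxh _)
      (fun z hz w hw e => by
        obtain ⟨q, -, rfl⟩ := Finset.mem_image.1 hz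
        obtain ⟨q', -, rfl⟩ := Finset.mem_image.1 hw
        rw [h1 q q' e])
    rw [Finset.card_image_of_injective _ (fun q q' e => h1 q q' (congrArg (Ann R) e)),
      Finset.card_univ, ← Nat.card_eq_fintype_card] at h2
    rw [Subgroup.index_eq_card, ← h2]
    exact hK s fun z hz w hw h e => h3 z hz w hw (by rw [← e, ann_card ρ hj])
  obtain ⟨S, hS, hS1, hS2⟩ := exists_stab A E
  let Γ := T.normalCore ⊓ S ⊓ Q
  have hEΓ : E ≤ Γ := le_inf (le_inf (Subgroup.normal_le_normalCore.2 hET) fun g hg =>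
    (hS1 g).2 fun y hy => hEE (Subgroup.commutator_mem_commutator hy hg)) hEQ
  let sig : H → E → Y → X := fun g y z => ρ ⁅(y : H), g⁆ z
  let I := (Set.toFinite (Γ : Set H)).toFinset.image sig
  have hI : I.card ≤ 2 ^ (2 * l) := by
    obtain ⟨u, h1, h2, h3⟩ := Finset.exists_subset_injOn_image_eq_of_surjOn (f := sig) Γ I
      (fun w hw => by
        obtain ⟨g, hg, rfl⟩ := Finset.mem_image.1 hw
        exact ⟨g, by simpa using hg, rfl⟩)
    rw [← h3, two_mul, pow_add]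
    refine Finset.card_image_le.trans ((indep_card ρ R hc hL Y hxY hx0
      (fun c h => hcomm c (hc c h)) (fun c h1 z h2 h3 h4 w hw => ?_) T E
      (fun g hg z => (hg z).1) hET hW u (fun g hg => ⟨T.normalCore_le (h1 hg).1.1,
        fun y hy => hRA _ ((hS1 g).1 (h1 hg).1.2 y hy)⟩) fun g hg k hk e => h2 hg hk ?_).trans
      (Nat.mul_le_mul hl hl))
    · exact (hw ((hx.eq h3 h2).ge ⟨h1, h4⟩)).2
    · funext y z
      exact e y y.2 z z.2
  have hΓ : A.relIndex Γ ≤ 2 ^ (2 * l * K) := by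
    have hN : Γ.Normal := inferInstance
    let F : Γ ⧸ A.subgroupOf Γ → H ⧸ T → I := fun q c =>
      ⟨sig (c.out⁻¹ * q.out * c.out), Finset.mem_image_of_mem _ (by
        simpa using hN.conj_mem' _ q.out.2 _)⟩
    have hF : Function.Injective F := by
      intro q q' e
      rw [← q.out_eq', ← q'.out_eq', QuotientGroup.eq, Subgroup.mem_subgroupOf]
      refine hCE ⟨fun y hy => ?_, (q.out⁻¹ * q'.out).2.2⟩
      have h1 := hs x hx0 (AddMonoidHom.eqLocus (ρ ⁅y⁻¹, (q.out : H)⁆ : X →+ X)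
        (ρ ⁅y⁻¹, (q'.out : H)⁆)) fun h => by
          have h2 : (h : H ⧸ T).out⁻¹ * h ∈ T := by rw [← QuotientGroup.eq]; simp
          have h3 := congrFun (congrFun (congrArg Subtype.val (congrFun e (h : H ⧸ T)))
            ⟨_, hE.conj_mem' _ (E.inv_mem hy) (h : H ⧸ T).out⟩) ⟨_, (h2 x).1 hxY⟩
          have h4 := congrArg (ρ (h : H ⧸ T).out) h3
          simp only [F, sig, ← rho_mul] at h4
          show ρ _ (ρ h x) = ρ _ (ρ h x)
          rw [← rho_mul, ← rho_mul]
          have e1 : ∀ w : H, (h : H ⧸ T).out * (⁅(h : H ⧸ T).out⁻¹ * y⁻¹ * (h : H ⧸ T).out,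
              (h : H ⧸ T).out⁻¹ * w * (h : H ⧸ T).out⁆ * ((h : H ⧸ T).out⁻¹ * h)) =
              ⁅y⁻¹, w⁆ * h := fun w => by
            simp only [commutatorElement_def]; group
          rwa [e1, e1] at h4
      have h5 := hρ (AddMonoidHom.eq_of_eqOn_top fun z _ => h1.ge (AddSubgroup.mem_top z))
      rw [Subgroup.coe_mul, Subgroup.coe_inv]
      simp only [commutatorElement_def] at h5
      have h6 := congrArg (fun w => (q.out : H)⁻¹ * y * w * q'.out) h5
      simp only [mul_assoc, inv_inv, mul_inv_cancel_left, inv_mul_cancel_left, inv_mul_cancel,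
        mul_one] at h6
      simpa only [mul_assoc] using h6
    refine (Nat.card_le_card_of_injective F hF).trans ?_
    rw [Nat.card_fun, Nat.card_eq_fintype_card (α := I), Fintype.card_coe, pow_mul]
    exact (Nat.pow_le_pow_left hI _).trans (Nat.pow_le_pow_right (pow_pos two_pos _) hb)
  rw [← Subgroup.relIndex_mul_index (hAE.trans hEΓ), add_assoc, pow_add, pow_add, pow_add]
  exact Nat.mul_le_mul hΓ (Subgroup.index_inf_le.trans (Nat.mul_le_mul
    (Subgroup.index_inf_le.trans (Nat.mul_le_mul (core_index T hb) (hS2 _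
      ((Subgroup.relIndex_le_of_le_right hEΓ Subgroup.index_ne_zero_of_finite).trans hΓ)))) hu))

end Pool.Agent.MP_adf6dd_al.Red
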