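import Mathlib
import Pool.Agent.MP_adf6dd_al.Poly

/-! Matrix representations whose commutant consists of the scalars. -/

set_option autoImplicit false

open Matrix

namespace Pool.Agent.MP_adf6dd_al

variable {E : Type} [Group E] {ι : Type} [Fintype ι] [DecidableEq ι]

/-- a representation of positive degree whose commutant consists of the scalars -/
structure SR (ρ : E →* Matrix ι ι ℂ) : Prop where
  ne : Nonempty ι
  comm_scalar : ∀ {A : Matrix ι ι ℂ}, (∀ x, A * ρ x = ρ x * A) →
    ∃ c : ℂ, A = c • (1 : Matrix ι ι ℂ)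

namespace SR

variable [Finite E] {ρ : E →* Matrix ι ι ℂ} {K : IntermediateField ℚ ℂ} (h : SR ρ)
include h

omit [Finite E] in
theorem d_ne : (Fintype.card ι : ℂ) ≠ 0 := by
  have := h.ne
  exact_mod_cast Fintype.card_ne_zero

omit [Finite E] in
theorem avg [Fintype E] (B : Matrix ι ι ℂ) : ∑ x, ρ x * B * ρ x⁻¹ =
    ((Nat.card E : ℂ) / Fintype.card ι * B.trace) • (1 : Matrix ι ι ℂ) := by
  obtain ⟨c, hc⟩ := h.comm_scalar (A := ∑ w, ρ w * B * ρ w⁻¹) (fun u => by
    rw [Finset.sum_mul, Finset.mul_sum, ← Equiv.sum_comp (Equiv.mulLeft u)]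
    refine Finset.sum_congr rfl fun w _ => ?_
    simp only [Equiv.coe_mulLeft, map_mul, _root_.mul_inv_rev, mul_assoc]
    rw [← map_mul ρ u⁻¹ u]; simp)
  have h1 := congrArg trace hc
  rw [trace_sum] at h1
  simp only [trace_mul_cycle (ρ _), ← map_mul, inv_mul_cancel, map_one, one_mul, trace_smul,
    trace_one, smul_eq_mul, Finset.sum_const, Finset.card_univ, nsmul_eq_mul] at h1
  rw [hc, Nat.card_eq_fintype_card]
  congr 1
  have := h.d_ne
  field_simp
  exact h1.symm

omit [Finite E] in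
theorem fourier [Fintype E] (A : Matrix ι ι ℂ) :
    ∑ x, (A * ρ x).trace • ρ x⁻¹ = ((Nat.card E : ℂ) / Fintype.card ι) • A := by
  ext k l
  have h1 : ∀ i j, ∑ x, ρ x j i * ρ x⁻¹ k l =
      if i = k ∧ j = l then (Nat.card E : ℂ) / Fintype.card ι else 0 := by
    intro i j
    have h2 := congrFun (congrFun (h.avg (single i k 1)) j) l
    rw [Matrix.sum_apply] at h2
    have h3 : ∀ x, (ρ x * single i k (1 : ℂ) * ρ x⁻¹) j l = ρ x j i * ρ x⁻¹ k l := by
      intro x
      rw [mul_assoc, Matrix.mul_apply, Finset.sum_eq_single i]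
      · simp
      · intro u _ hu; simp [hu]
      · simp
    simp only [h3] at h2
    rw [h2]
    by_cases a : i = k
    · subst a
      by_cases b : j = l
      · subst b; simp
      · simp [b]
    · simp [a]
  have h4 : ∀ x, (A * ρ x).trace * ρ x⁻¹ k l = ∑ i, ∑ j, A i j * (ρ x j i * ρ x⁻¹ k l) := by
    intro x
    simp only [Matrix.trace, diag_apply, Matrix.mul_apply, Finset.sum_mul, mul_assoc]
  rw [Matrix.sum_apply]
  simp only [Matrix.smul_apply, smul_eq_mul, h4]
  rw [Finset.sum_comm, Finset.sum_eq_single k]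
  · rw [Finset.sum_comm, Finset.sum_eq_single l]
    · rw [← Finset.mul_sum, h1, if_pos ⟨rfl, rfl⟩, mul_comm]
    · intro j _ hj
      rw [← Finset.mul_sum, h1, if_neg fun e => hj e.2, mul_zero]
    · simp
  · intro i _ hi
    rw [Finset.sum_comm]
    refine Finset.sum_eq_zero fun j _ => ?_
    rw [← Finset.mul_sum, h1, if_neg fun e => hi e.1, mul_zero]
  · simp

theorem c_ne : (Nat.card E : ℂ) / Fintype.card ι ≠ 0 :=
  div_ne_zero (by exact_mod_cast (Nat.card_pos (α := E)).ne') h.d_ne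

theorem ext_lin {M : Type} [AddCommGroup M] [Module ℂ M] (f g : Matrix ι ι ℂ →ₗ[ℂ] M)
    (hfg : ∀ x, f (ρ x) = g (ρ x)) : f = g := by
  have := Fintype.ofFinite E
  ext1 A
  refine smul_right_injective M h.c_ne ?_
  show _ • f A = _ • g A
  rw [← map_smul, ← map_smul, ← h.fourier, map_sum, map_sum]
  simp only [map_smul, hfg]

theorem eq_zero {A : Matrix ι ι ℂ} (hA : ∀ x, (A * ρ x).trace = 0) : A = 0 := by
  have := Fintype.ofFinite E
  have h1 := h.fourier A
  simp only [hA, zero_smul, Finset.sum_const_zero] at h1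
  exact (smul_eq_zero.1 h1.symm).resolve_left h.c_ne

omit [Finite E] in
theorem sum_tr [Fintype E] {A B : Matrix ι ι ℂ} (hAB : A * B = 1) :
    ∑ x, (A * ρ x).trace * (ρ x⁻¹ * B).trace = Nat.card E := by
  have := congrArg (fun M => (M * B).trace) (h.fourier A)
  simp only [Finset.sum_mul, trace_sum, smul_mul_assoc, trace_smul, smul_eq_mul, hAB,
    trace_one] at this
  rw [this, div_mul_cancel₀ _ h.d_ne]

theorem isIrr : IsIrr fun x => (ρ x).trace := by
  have := Fintype.ofFinite E
  refine isIrr_iff.2 ⟨IsChar.of ρ fun _ => rfl, ?_⟩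
  simpa using h.sum_tr (A := 1) (B := 1) (one_mul 1)

omit h [Finite E] in
theorem inA_rho (hK : ∀ x, (ρ x).trace ∈ K) (y : E) : InA ρ K (ρ y) :=
  fun x => by rw [← map_mul]; exact hK _

theorem inA_mul {A B : Matrix ι ι ℂ} (hA : InA ρ K A) (hB : InA ρ K B) : InA ρ K (A * B) := by
  have := Fintype.ofFinite E
  intro x
  have h1 := congrArg (fun M => (M * B * ρ x).trace) (h.fourier A)
  simp only [Finset.sum_mul, trace_sum, smul_mul_assoc, trace_smul, smul_eq_mul] at h1
  rw [← inv_mul_eq_iff_eq_mul₀ h.c_ne] at h1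
  rw [← h1]
  refine mul_mem (inv_mem (div_mem (natCast_mem K _) (natCast_mem K _)))
    (sum_mem fun y _ => mul_mem (hA y) ?_)
  rw [mul_assoc, trace_mul_comm, mul_assoc, ← map_mul]
  exact hB _

theorem norm_mem (hK : ∀ x, (ρ x).trace ∈ K) {A : Matrix ι ι ℂ} (hA : InA ρ K A) :
    Algebra.norm ℂ A ∈ K := by
  classical
  have := Fintype.ofFinite E
  obtain ⟨s, hs1, hs2, hs3⟩ := exists_linearIndependent ℂ (Set.range ρ)
  have htop : ⊤ ≤ Submodule.span ℂ (Set.range ((↑) : s → Matrix ι ι ℂ)) := by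
    rw [Subtype.range_coe, hs2]
    intro B _
    rw [← one_smul ℂ B, ← inv_mul_cancel₀ h.c_ne, ← smul_smul, ← h.fourier]
    exact Submodule.smul_mem _ _ (Submodule.sum_mem _ fun x _ =>
      Submodule.smul_mem _ _ (Submodule.subset_span ⟨_, rfl⟩))
  have : Finite s := ((Set.finite_range ρ).subset hs1).to_subtype
  have := Fintype.ofFinite s
  let b := Module.Basis.mk hs3 htop
  have hb : ∀ i, InA ρ K (b i) := fun i => by
    obtain ⟨y, hy⟩ := hs1 i.2
    rw [Module.Basis.mk_apply, ← hy]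
    exact inA_rho hK y
  obtain ⟨r, hr⟩ := LinearMap.exists_leftInverse_of_injective (Algebra.linearMap K ℂ)
    (LinearMap.ker_eq_bot.2 (algebraMap K ℂ).injective)
  have hr1 : ∀ a : K, r a = a := fun a => LinearMap.congr_fun hr a
  have key : ∀ B, InA ρ K B → ∀ i, b.repr B i ∈ K := by
    intro B hB i
    have h1 : B - ∑ j, ((r (b.repr B j) : K) : ℂ) • b j = 0 := by
      refine h.eq_zero fun x => ?_
      have h2 : (B * ρ x).trace = ∑ j, (⟨_, hb j x⟩ : K) • b.repr B j := by
        conv_lhs => rw [← b.sum_repr B]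
        rw [Finset.sum_mul, trace_sum]
        refine Finset.sum_congr rfl fun j _ => ?_
        rw [smul_mul_assoc, trace_smul, smul_eq_mul, mul_comm]
        rfl
      have h3 := congrArg r h2
      rw [map_sum, show (B * ρ x).trace = ((⟨_, hB x⟩ : K) : ℂ) from rfl, hr1] at h3
      have h4 := congrArg ((↑) : K → ℂ) h3
      rw [sub_mul, trace_sub, sub_eq_zero, Finset.sum_mul, trace_sum]
      refine h4.trans ?_
      rw [IntermediateField.coe_sum]
      refine Finset.sum_congr rfl fun j _ => ?_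
      rw [map_smul, smul_mul_assoc, trace_smul, smul_eq_mul, smul_eq_mul, mul_comm]
      rfl
    rw [sub_eq_zero] at h1
    have h5 := congrArg (fun C => b.repr C i) h1
    simp only [b.repr_sum_self] at h5
    rw [h5]
    exact (r _).2
  rw [Algebra.norm_eq_matrix_det b, det_apply']
  refine sum_mem fun σ _ => mul_mem (intCast_mem K _) (prod_mem fun i _ => ?_)
  rw [Algebra.leftMulMatrix_eq_repr_mul]
  exact key _ (h.inA_mul hA (hb _)) _

theorem intertwiner (hK : ∀ x, (ρ x).trace ∈ K) (α : E ≃* E)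
    (hα : ∀ x, (ρ (α x)).trace = (ρ x).trace) :
    ∃ A : (Matrix ι ι ℂ)ˣ, InA ρ K A ∧ ∀ x, A * ρ x = ρ (α x) * A := by
  classical
  have := Fintype.ofFinite E
  let f : Matrix ι ι ℂ →ₗ[ℂ] Matrix ι ι ℂ :=
    { toFun := fun B => ∑ x, ρ (α x) * B * ρ x⁻¹
      map_add' := fun A B => by simp [add_mul, mul_add, Finset.sum_add_distrib]
      map_smul' := fun c A => by simp [Finset.smul_sum] }
  have hf : ∃ y, f (ρ y) ≠ 0 := by
    by_contra hne
    push Not at hne
    have h1 := h.ext_lin f 0 hne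
    have h2 : ∑ i, ∑ j, f (single i j 1) i j = ∑ x, (ρ (α x)).trace * (ρ x⁻¹).trace := by
      have h3 : ∀ i j, f (single i j 1) i j = ∑ x, ρ (α x) i i * ρ x⁻¹ j j := by
        intro i j
        show (∑ x, ρ (α x) * single i j 1 * ρ x⁻¹ : Matrix ι ι ℂ) i j = _
        rw [Matrix.sum_apply]
        refine Finset.sum_congr rfl fun x _ => ?_
        rw [mul_assoc, Matrix.mul_apply, Finset.sum_eq_single i]
        · simp
        · intro k _ hk; simp [hk]
        · simp
      simp only [h3, Matrix.trace, diag_apply, Finset.sum_mul_sum]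
      rw [Finset.sum_comm' (t' := Finset.univ) (s' := fun _ => Finset.univ) (by simp)]
      rw [Finset.sum_comm (s := Finset.univ (α := E))]
      rw [Finset.sum_comm]
      refine Finset.sum_congr rfl fun i _ => Finset.sum_comm
    have h4 := h.sum_tr (A := 1) (B := 1) (one_mul 1)
    simp only [one_mul, mul_one] at h4
    simp only [hα, h4, h1] at h2
    simp at h2
    exact (Nat.card_pos (α := E)).ne' (by rw [Nat.card_eq_fintype_card]; exact_mod_cast h2.symm)
  obtain ⟨y, hy⟩ := hf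
  set A := f (ρ y) with hA
  have hA1 : InA ρ K A := by
    intro x
    show ((∑ x, ρ (α x) * ρ y * ρ x⁻¹) * ρ x).trace ∈ K
    rw [Finset.sum_mul, trace_sum]
    refine sum_mem fun w _ => ?_
    rw [← map_mul, ← map_mul, ← map_mul]
    exact hK _
  have hA2 : ∀ x, A * ρ x = ρ (α x) * A := by
    intro x
    show (∑ x, ρ (α x) * ρ y * ρ x⁻¹) * ρ x = ρ (α x) * ∑ x, ρ (α x) * ρ y * ρ x⁻¹
    rw [Finset.sum_mul, Finset.mul_sum, ← Equiv.sum_comp (Equiv.mulLeft x)]
    refine Finset.sum_congr rfl fun w _ => ?_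
    simp only [← map_mul]
    congr 1
    simp [mul_assoc]
  obtain ⟨x, hx⟩ : ∃ x, (A * ρ x).trace ≠ 0 := by
    by_contra hne
    push Not at hne
    exact hy (h.eq_zero hne)
  have hc := h.avg (A * ρ x)
  set c := (Nat.card E : ℂ) / Fintype.card ι * (A * ρ x).trace
  have hc0 : c ≠ 0 := mul_ne_zero h.c_ne hx
  have hB : A * (c⁻¹ • ∑ w, ρ (α.symm w) * ρ x * ρ w⁻¹) = 1 := by
    rw [mul_smul_comm, Finset.mul_sum]
    simp only [← mul_assoc, hA2, MulEquiv.apply_symm_apply]
    simp only [← mul_assoc] at hc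
    rw [hc, smul_smul, inv_mul_cancel₀ hc0, one_smul]
  exact ⟨⟨A, _, hB, mul_eq_one_comm.1 hB⟩, hA1, hA2⟩

/-- the degree divides the order of the group -/
theorem dvd_card : Fintype.card ι ∣ Nat.card E := by
  classical
  have := Fintype.ofFinite E
  have := h.ne
  let R := integralClosure ℤ ℂ
  have htr : ∀ x, (ρ x).trace ∈ R := by
    intro x
    rw [Matrix.trace_eq_sum_roots_charpoly]
    refine multiset_sum_mem _ fun y hy => ?_
    have h1 : y ∈ spectrum ℂ (ρ x) :=
      Matrix.mem_spectrum_iff_isRoot_charpoly.2 (Polynomial.isRoot_of_mem_roots hy)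
    have h2 := spectrum.pow_mem_pow (ρ x) (orderOf x) h1
    rw [← map_pow, pow_orderOf_eq_one, map_one, spectrum.one_eq] at h2
    refine IsIntegral.of_pow (orderOf_pos x) ?_
    rw [show y ^ orderOf x = 1 from h2]
    exact isIntegral_one
  let S : Subalgebra R (Matrix ι ι ℂ) := Algebra.adjoin R (MonoidHom.mrange ρ : Set _)
  have hS : S.toSubmodule.FG := by
    rw [Algebra.adjoin_eq_span, Submonoid.closure_eq]
    exact Submodule.fg_span (Set.finite_range ρ)
  have h1 : IsIntegral R (algebraMap ℂ (Matrix ι ι ℂ) ((Nat.card E : ℂ) / Fintype.card ι)) := by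
    refine IsIntegral.of_mem_of_fg S hS _ ?_
    rw [Algebra.algebraMap_eq_smul_one, ← h.fourier]
    refine sum_mem fun x _ => ?_
    rw [one_mul]
    exact S.smul_mem (Algebra.subset_adjoin ⟨_, rfl⟩) (⟨_, htr x⟩ : R)
  have h2 : IsIntegral R ((Nat.card E : ℂ) / Fintype.card ι) :=
    (isIntegral_algHom_iff (IsScalarTower.toAlgHom R ℂ (Matrix ι ι ℂ))
      (algebraMap ℂ (Matrix ι ι ℂ)).injective).1 h1
  have h3 : IsIntegral ℤ (algebraMap ℚ ℂ ((Nat.card E : ℚ) / Fintype.card ι)) := by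
    simpa using isIntegral_trans (R := ℤ) _ h2
  obtain ⟨y, hy⟩ := IsIntegrallyClosed.isIntegral_iff.1
    ((isIntegral_algebraMap_iff (algebraMap ℚ ℂ).injective).1 h3)
  have h4 : (Fintype.card ι : ℚ) ≠ 0 := by exact_mod_cast Fintype.card_ne_zero
  rw [eq_div_iff h4] at hy
  have h5 : y * Fintype.card ι = (Nat.card E : ℤ) := by
    have : ((y * Fintype.card ι : ℤ) : ℚ) = ((Nat.card E : ℤ) : ℚ) := by simpa using hy
    exact_mod_cast this
  exact Int.natCast_dvd_natCast.1 ⟨y, by rw [← h5, mul_comm]⟩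

end SR

end Pool.Agent.MP_adf6dd_al
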