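import Pool.Agent.MP_adf6dd_al.h59.Spec

/-! Row SEC: closure properties of the condition on simple sections. -/

set_option autoImplicit false

namespace Pool.Agent.MP_adf6dd_al.Red

namespace Sec

theorem fac {H G T : Type} [Group H] [Group G] [Group T] (f : H →* G) (φ : H →* T)
    (hφ : Function.Surjective φ) (h : f.ker ≤ φ.ker) :
    ∃ ψ : f.range →* T, Function.Surjective ψ := by
  have h' : f.rangeRestrict.ker ≤ φ.ker := by rwa [MonoidHom.ker_rangeRestrict]
  refine ⟨f.rangeRestrict.liftOfSurjective f.rangeRestrict_surjective ⟨φ, h'⟩, fun t => ?_⟩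
  obtain ⟨x, rfl⟩ := hφ t
  exact ⟨f.rangeRestrict x, MonoidHom.liftOfRightInverse_comp_apply _ _ _ _ x⟩

theorem two {H T : Type} [Group H] [Group T] [IsSimpleGroup T] (φ : H →* T)
    (hφ : Function.Surjective φ) (K : Subgroup H) [hK : K.Normal] :
    K ≤ φ.ker ∨ Function.Surjective (φ.comp K.subtype) := by
  rcases (hK.map φ hφ).eq_bot_or_eq_top with h | h
  · exact Or.inl ((Subgroup.map_eq_bot_iff _).1 h)
  · refine Or.inr fun t => ?_
    obtain ⟨x, hx, rfl⟩ : t ∈ K.map φ := h ▸ Subgroup.mem_top t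
    exact ⟨⟨x, hx⟩, rfl⟩

theorem comm {H T : Type} [Group H] [Group T] (φ : H →* T) (hφ : Function.Surjective φ)
    (h : ∀ a b : H, a * b = b * a) (a b : T) : a * b = b * a := by
  obtain ⟨x, rfl⟩ := hφ a
  obtain ⟨y, rfl⟩ := hφ b
  rw [← map_mul, h, map_mul]

theorem maxN (G : Type) [Group G] [Finite G] [Nontrivial G] :
    ∃ (N : Subgroup G) (_ : N.Normal), N ≠ ⊤ ∧ IsSimpleGroup (G ⧸ N) := by
  obtain ⟨N, ⟨h1, h2⟩, hmax⟩ := (Set.toFinite {N : Subgroup G | N.Normal ∧ N ≠ ⊤}).exists_maximal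
    ⟨⊥, inferInstance, bot_ne_top⟩
  have : Nontrivial (G ⧸ N) := QuotientGroup.nontrivial_iff.2 h2
  refine ⟨N, h1, h2, ⟨fun K hK => ?_⟩⟩
  have hs := QuotientGroup.mk'_surjective N
  rw [← Subgroup.map_comap_eq_self_of_surjective hs K]
  by_cases h : K.comap (QuotientGroup.mk' N) = ⊤
  · right
    rw [h, Subgroup.map_top_of_surjective _ hs]
  · left
    have hle : N ≤ K.comap (QuotientGroup.mk' N) := QuotientGroup.le_comap_mk' N K
    rw [Subgroup.map_eq_bot_iff, QuotientGroup.ker_mk']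
    exact hmax ⟨hK.comap _, h⟩ hle

theorem ind (n s k : ℕ) : ∀ (G : Type) [Group G] [Finite G], Nat.card G = k → SecN n s G →
    Sec n s G := by
  induction k using Nat.strong_induction_on with
  | _ k ih =>
  intro G _ _ hk hG H T _ _ φ hφ hT
  rcases subsingleton_or_nontrivial G with h1 | h1
  · exact absurd (comm φ hφ fun _ _ => Subsingleton.elim _ _) hT
  obtain ⟨N, _, hN, _⟩ := maxN G
  rcases two φ hφ ((QuotientGroup.mk' N).comp H.subtype).ker with h | h
  · obtain ⟨ψ, hψ⟩ := fac _ φ hφ h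
    have h2 := (Subgroup.card_dvd_of_surjective ψ hψ).trans (Subgroup.card_subgroup_dvd_card _)
    obtain ⟨h3, j, h4⟩ := hG ⊤ (G ⧸ N) ((QuotientGroup.mk' N).comp (⊤ : Subgroup G).subtype)
      Subgroup.IsSubnormal.top
      (fun t => (QuotientGroup.mk'_surjective N t).elim fun x hx => ⟨⟨x, trivial⟩, hx⟩)
      fun hc => hT (comm ψ hψ fun a b => Subtype.ext (hc a b))
    exact ⟨(Nat.le_of_dvd Nat.card_pos h2).trans h3, j, h2.trans h4⟩
  · have hlt : Nat.card N < k := by
      rw [← hk, ← Subgroup.card_top (G := G)]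
      exact lt_of_le_of_ne (Subgroup.card_le_of_le le_top)
        fun e => hN (Subgroup.eq_of_le_of_card_ge le_top e.ge)
    have hS : Sec n s N := ih _ hlt N rfl fun H1 T1 _ _ φ1 s1 s2 s3 =>
      hG (H1.map N.subtype) T1
        (φ1.comp (H1.equivMapOfInjective _ N.subtype_injective).symm.toMonoidHom)
        (s1.trans' (Subgroup.Normal.isSubnormal inferInstance))
        (s2.comp (H1.equivMapOfInjective _ N.subtype_injective).symm.surjective) s3
    obtain ⟨ψ, hψ⟩ := fac ((H.subtype.comp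
      ((QuotientGroup.mk' N).comp H.subtype).ker.subtype).codRestrict N
        fun x => (QuotientGroup.eq_one_iff _).1 x.2) _ h fun x hx => by
      have h3 := congrArg Subtype.val (MonoidHom.mem_ker.1 hx)
      have h2 : x = 1 := Subtype.ext (Subtype.ext h3)
      rw [h2]
      exact one_mem _
    exact hS _ T ψ hψ hT

end Sec

theorem secS : SecStmt := by
  refine ⟨fun n s G W _ _ π hG hπ H T _ _ φ hφ hT => ?_,
    fun n s G W _ _ π hG hπ H T _ _ φ hφ hT => ?_, fun n s p G _ hG H T _ _ φ hφ hT => ?_,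
    fun n s G _ _ => Sec.ind n s _ G rfl⟩
  · rcases Sec.two φ hφ (π.comp H.subtype).ker with h | h
    · obtain ⟨ψ, hψ⟩ := Sec.fac _ φ hφ h
      exact hG _ T ψ hψ hT
    · exact absurd (Sec.comm _ h fun a b => Subtype.ext (Subtype.ext (hπ _ _ a.2 b.2))) hT
  · exact hG (H.comap π) T (φ.comp (π.subgroupComap H))
      (hφ.comp (π.subgroupComap_surjective_of_surjective H hπ)) hT
  · obtain ⟨h1, k, h2⟩ := hG H T φ hφ hT
    exact ⟨h1, k, h2.trans (pow_dvd_pow_of_dvd (dvd_mul_right n p) k)⟩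

end Pool.Agent.MP_adf6dd_al.Red
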