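import Pool.Agent.MP_adf6dd_al.h59.SR

/-! Reduction to the nonabelian composition factors: definitions and statements of the rows. -/

set_option autoImplicit false

open Matrix
open scoped commutatorElement

namespace Pool.Agent.MP_adf6dd_al.Red

/-- every nonabelian simple section has order at most `2 ^ s`, dividing a power of `n` -/
def Sec (n s : ℕ) (G : Type) [Group G] : Prop :=
  ∀ (H : Subgroup G) (T : Type) [Group T] [IsSimpleGroup T] (φ : H →* T), Function.Surjective φ →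
    (¬ ∀ a b : T, a * b = b * a) → Nat.card T ≤ 2 ^ s ∧ ∃ k, Nat.card T ∣ n ^ k

/-- the same for the composition factors only -/
def SecN (n s : ℕ) (G : Type) [Group G] : Prop :=
  ∀ (H : Subgroup G) (T : Type) [Group T] [IsSimpleGroup T] (φ : H →* T), H.IsSubnormal →
    Function.Surjective φ → (¬ ∀ a b : T, a * b = b * a) →
      Nat.card T ≤ 2 ^ s ∧ ∃ k, Nat.card T ∣ n ^ k

/-- no nontrivial perfect subgroup -/
def Sol {G : Type} [Group G] (R : Subgroup G) : Prop := ∀ D ≤ R, ⁅D, D⁆ = D → D = ⊥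

/-- the derived series of a subgroup -/
def dS {G : Type} [Group G] (R : Subgroup G) : ℕ → Subgroup G
  | 0 => R
  | k + 1 => ⁅dS R k, dS R k⁆

def Kw (m w : ℕ) : ℕ := m * (m + 1) ^ (4 * w)

/-- the bound for the number of characters with values in `Kp n` or in `Kp (n * p)` -/
def KK (n m : ℕ) : ℕ := Kw m (n.primeFactors.card + 1)

/-- the standing hypotheses on a group -/
structure Hy (n s m : ℕ) (G : Type) [Group G] : Prop where
  pos : 0 < n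
  fb : FB m G
  sec : Sec n s G

/-- the standing hypotheses on a group with a solvable normal subgroup of small index -/
structure Pr (n s m u : ℕ) (G : Type) [Group G] (R : Subgroup G) : Prop where
  hy : Hy n s m G
  nor : R.Normal
  sol : Sol R
  idx : R.index ≤ 2 ^ u

/-- the restriction of `χ` to `E` is a nonzero multiple of the orbit sum of the trace of `ρ` -/
def OverN {G : Type} [Group G] (E : Subgroup G) [E.Normal] {d : ℕ}
    (ρ : E →* Matrix (Fin d) (Fin d) ℂ) (χ : G → ℂ) : Prop :=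
  ∃ c : ℂ, c ≠ 0 ∧ ∀ v : E, χ v = c * ∑ᶠ x : G, (ρ (MulAut.conjNormal x v)).trace

/-- SEC: closure properties. -/
def SecStmt : Prop :=
  (∀ (n s : ℕ) (G W : Type) [Group G] [Group W] (π : W →* G), Sec n s G →
    ((∀ a b : W, π a = 1 → π b = 1 → a * b = b * a) → Sec n s W)) ∧
  (∀ (n s : ℕ) (G W : Type) [Group G] [Group W] (π : G →* W), Sec n s G →
    Function.Surjective π → Sec n s W) ∧
  (∀ (n s p : ℕ) (G : Type) [Group G], Sec n s G → Sec (n * p) s G) ∧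
  ∀ (n s : ℕ) (G : Type) [Group G] [Finite G], SecN n s G → Sec n s G

/-- LAY: minimal normal subgroups and layers. -/
def LayStmt : Prop :=
  (∀ (G : Type) [Group G] [Finite G] (V : Subgroup G) [V.Normal], MinN V →
    ((∀ a b : V, a * b = b * a) → ∃ p : ℕ, p.Prime ∧ p ∣ Nat.card V ∧ (∀ v : V, v ^ p = 1) ∧
      ∀ q : ℕ, q.Prime → q ∣ Nat.card V → q = p) ∧
    ((¬ ∀ a b : V, a * b = b * a) → ∃ (T : Type) (_ : Group T) (_ : IsSimpleGroup T) (φ : V →* T),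
      Function.Surjective φ ∧ (¬ ∀ a b : T, a * b = b * a) ∧
        ∀ v : V, (∀ g : G, φ (MulAut.conjNormal g v) = 1) → v = 1)) ∧
  (∀ (n s : ℕ) (G : Type) [Group G] [Finite G], Sec n s G → ∀ V : Subgroup G, MinN V →
    (¬ ∀ a b : V, a * b = b * a) → ∃ k, ∀ v : V, v ^ n ^ k = 1) ∧
  ∀ (n s : ℕ) (G : Type) [Group G] [Finite G], Sec n s G → ∀ Z : Subgroup G, Z.Normal → Z ≠ ⊤ →
    ∃ E : Subgroup G, E.Normal ∧ Z < E ∧
      ((∃ k, ∀ x ∈ E, x ^ n ^ k ∈ Z) ∨ (Z.relIndex E).Coprime n)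

/-- SOL: solvable subgroups. -/
def SolStmt : Prop :=
  (∀ (n s m u : ℕ) (G W : Type) [Group G] [Finite G] [Group W] (π : G →* W) (R : Subgroup G),
    Function.Surjective π → Pr n s m u G R → Pr n s m u W (R.map π)) ∧
  ∀ (G : Type) [Group G] [Finite G] (R : Subgroup G),
    (R.Normal → ∀ k, (dS R k).Normal) ∧ (∀ k, dS R (k + 1) ≤ dS R k) ∧ (∀ k, dS R k ≤ R) ∧
    (∀ (W : Type) [Group W] (π : G →* W) (k : ℕ), (dS R k).map π = dS (R.map π) k) ∧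
    (R ≤ Subgroup.centralizer R → Sol R) ∧
    (Sol R → ∀ V : Subgroup G, MinN V → V ≤ R → ∀ a b : V, a * b = b * a) ∧
    (Sol R → ∀ (B : Subgroup G) (k : ℕ), B.Normal → B.index ≤ 2 ^ k → dS R k ≤ B) ∧
    (Sol R → ∀ Z D : Subgroup G, D.Normal → D ≤ R → ¬ D ≤ Z →
      ∃ D' : Subgroup G, D'.Normal ∧ D' ≤ D ∧ ¬ D' ≤ Z ∧ ⁅D', D'⁆ ≤ Z) ∧
    ∃ S : Subgroup G, ∃ _ : S.Normal, Sol S ∧
      ∀ A : Subgroup (G ⧸ S), A.Normal → A ≤ Subgroup.centralizer A → A = ⊥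

/-- EXS: existence of irreducible representations, orthogonality, degrees. -/
def ExsStmt : Prop :=
  (∀ (E : Type) [Group E] [Finite E] (Z : Subgroup E) [Z.Normal] (lam : Z →* ℂˣ),
    (∀ (x : E) (z : Z), lam (MulAut.conjNormal x z) = lam z) →
    ∃ (d : ℕ) (ρ : E →* Matrix (Fin d) (Fin d) ℂ), SR ρ ∧
      ∀ z : Z, ρ z = ((lam z : ℂˣ) : ℂ) • (1 : Matrix (Fin d) (Fin d) ℂ)) ∧
  (∀ (E : Type) [Group E] [Finite E] [Nontrivial E],
    ∃ (d : ℕ) (ρ : E →* Matrix (Fin d) (Fin d) ℂ), SR ρ ∧ ∑ᶠ x, (ρ x).trace = 0 ∧ ∃ x, ρ x ≠ 1) ∧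
  (∀ (E : Type) [Group E] [Finite E] (χ ψ : E → ℂ), IsIrr χ → IsIrr ψ → χ ≠ ψ →
    ∑ᶠ x, χ x * ψ x⁻¹ = 0) ∧
  ∀ (E : Type) [Group E] [Finite E] (d n k : ℕ) (ρ : E →* Matrix (Fin d) (Fin d) ℂ), SR ρ →
    (∀ x, ρ x ^ n ^ k = 1) → ∃ j, d ^ 2 ∣ n ^ j

/-- WEIL: the group of normalised intertwiners of an invariant representation. -/
def WeilStmt : Prop :=
  ∀ (G : Type) [Group G] [Finite G] (E : Subgroup G) [E.Normal] (d n k : ℕ)
    (ρ : E →* Matrix (Fin d) (Fin d) ℂ), 0 < n → SR ρ → (∀ x, ρ x ^ n ^ k = 1) →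
    (∀ (g : G) (x : E), (ρ (MulAut.conjNormal g x)).trace = (ρ x).trace) →
    ∃ (W : Type) (_ : Group W) (_ : Finite W) (π : W →* G) (ν : E.comap π →* ℂˣ) (j : ℕ),
      Function.Surjective π ∧ (∀ a b : W, π a = 1 → a * b = b * a) ∧
      (∀ x z, ν (MulAut.conjNormal x z) = ν z) ∧ (∀ z, ν z ^ n ^ j = 1) ∧
      ∀ χ : W → ℂ, IsIrr χ → (∀ g, χ g ∈ Kp n) →
        (∀ (z : E.comap π) (g : W), χ (z * g) = ν z * χ g) →
        ∃ ψ : G → ℂ, IsIrr ψ ∧ (∀ g, ψ g ∈ Kp n) ∧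
          (∀ g, ∃ A : Matrix (Fin d) (Fin d) ℂ, ∀ z : E, ψ (z * g) = (ρ z * A).trace) ∧
          ∃ c : ℂ, c ≠ 0 ∧ ∀ z : E, ψ z = c * (ρ z).trace

/-- IND: induction from the inertia group. -/
def IndStmt : Prop :=
  ∀ (G : Type) [Group G] [Finite G] (E T : Subgroup G) [E.Normal] (hET : E ≤ T) (d : ℕ)
    (ρ : E →* Matrix (Fin d) (Fin d) ℂ), SR ρ →
    (∀ x, x ∉ T → ∃ z : E, (ρ (MulAut.conjNormal x z)).trace ≠ (ρ z).trace) →
    ∀ ψ : T → ℂ, IsIrr ψ →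
      (∀ g : T, ∃ A : Matrix (Fin d) (Fin d) ℂ, ∀ z : E,
        ψ (⟨z, hET z.2⟩ * g) = (ρ z * A).trace) →
      IsIrr (ind T ψ) ∧
      (∀ (z : E) (a : ℂ), (∀ x : G, ρ (MulAut.conjNormal x z) = a • (1 : Matrix (Fin d) (Fin d) ℂ)) →
        ∀ g, ind T ψ (z * g) = a * ind T ψ g) ∧
      ∀ c : ℂ, c ≠ 0 → (∀ z : E, ψ ⟨z, hET z.2⟩ = c * (ρ z).trace) → OverN E ρ (ind T ψ)

/-- LIFT: characters with values in `Kp n` over a given character of a normal subgroup. -/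
def LiftStmt : Prop :=
  ∀ (n s : ℕ) (G : Type) [Group G] [Finite G], 0 < n → Sec n s G →
    ∀ (E : Subgroup G) [E.Normal],
      (∀ (μ : E →* ℂˣ) (j : ℕ), (∀ g, μ g ^ n ^ j = 1) →
        ∃ χ : G → ℂ, IsIrr χ ∧ (∀ g, χ g ∈ Kp n) ∧ Over E μ χ) ∧
      ∀ (d k : ℕ) (ρ : E →* Matrix (Fin d) (Fin d) ℂ), SR ρ → (∀ x, ρ x ^ n ^ k = 1) →
        ∃ χ : G → ℂ, IsIrr χ ∧ (∀ g, χ g ∈ Kp n) ∧ OverN E ρ χ

/-- SUB: subgroups of small index in an abelian group with few generators. -/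
def SubStmt : Prop :=
  (∀ (Γ : Type) [CommGroup Γ] [Finite Γ] (S : Finset Γ) (m : ℕ),
    Subgroup.closure (S : Set Γ) = ⊤ →
      {B : Subgroup Γ | B.index ≤ m}.ncard ≤ (m + 1) ^ (2 * S.card)) ∧
  ∀ N : ℕ, 0 < N → ∃ S : Finset (ZMod N)ˣ, Subgroup.closure (S : Set (ZMod N)ˣ) = ⊤ ∧
    S.card ≤ 2 * N.primeFactors.card

/-- ORB: counting. -/
def OrbStmt : Prop :=
  ∀ (n s m : ℕ) (G : Type) [Group G] [Finite G], Hy n s m G →
    np n G ≤ KK n m ∧ (∀ p : ℕ, p.Prime → np (n * p) G ≤ KK n m) ∧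
    (∀ (p : ℕ) (V : Subgroup G) [V.Normal], p.Prime → (∀ a b : V, a * b = b * a) →
      p ∣ Nat.card V → np (n * p) (G ⧸ V) < np (n * p) G) ∧
    (∀ (p j : ℕ) (E : Subgroup G) [E.Normal], p.Prime → (∀ (μ : E →* ℂˣ) v, μ v ^ p ^ j = 1) →
      ∀ t : Finset (E →* ℂˣ), (∀ μ ∈ t, ∀ μ' ∈ t, ∀ x : G, cj x μ = μ' → μ = μ') →
        t.card ≤ KK n m) ∧
    ∀ V B : Subgroup G, MinN V → (∀ a b : V, a * b = b * a) → B ≤ Subgroup.centralizer V →
      Nat.card V ≤ KK n m * B.index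

/-- TEN: a chain of irreducible representations with decreasing kernels. -/
def TenStmt : Prop :=
  ∀ (V T I : Type) [Group V] [Finite V] [Group T] [IsSimpleGroup T] (φ : I → (V →* T)),
    (∀ i, Function.Surjective (φ i)) → (¬ ∀ a b : T, a * b = b * a) →
    (∀ v : V, (∀ i, φ i v = 1) → v = 1) →
    ∃ C : Finset ℕ, Nat.card V ≤ Nat.card T ^ C.card ∧ ∀ c ∈ C,
      ∃ (d : ℕ) (ρ : V →* Matrix (Fin d) (Fin d) ℂ), SR ρ ∧ {v | ρ v = 1}.ncard = c

/-- SOC1: nonabelian minimal normal subgroups are small. -/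
def Soc1Stmt : Prop :=
  ∀ (n s m : ℕ) (G : Type) [Group G] [Finite G], Hy n s m G → ∀ V : Subgroup G, MinN V →
    (¬ ∀ a b : V, a * b = b * a) → Nat.card V ≤ 2 ^ (s * KK n m)

/-- SOC2: the solvable radical has small index. -/
def Soc2Stmt : Prop :=
  ∀ (n s m : ℕ) (G : Type) [Group G] [Finite G], Hy n s m G →
    ∃ R : Subgroup G, Pr n s m (KK n m * (s * KK n m * (s * KK n m))) G R

/-- LIN: linear groups with few orbits. -/
def LinStmt : Prop :=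
  ∀ (H X : Type) [Group H] [AddCommGroup X] [Finite H] [Finite X] [Nontrivial X] (R : Subgroup H),
    R.Normal → Sol R → ∀ ρ : H →* AddMonoid.End X, Function.Injective ρ →
    (∀ x ≠ 0, ∀ Z : AddSubgroup X, (∀ h, ρ h x ∈ Z) → Z = ⊤) → ∀ K L l u : ℕ,
    (∀ t : Finset X, (∀ x ∈ t, ∀ z ∈ t, ∀ h, ρ h x = z → x = z) → t.card ≤ K) →
    Nat.card X ≤ 2 ^ L → L ≤ 2 ^ l → R.index ≤ 2 ^ u →
    ∃ A : Subgroup H, A.Normal ∧ A ≤ Subgroup.centralizer A ∧
      A.index ≤ 2 ^ (2 * l * K + (K * K + 2 * l * K * (2 * l * K)) + u)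

/-- PRI: the number of primes. -/
def PriStmt : Prop :=
  (∀ (n s m u j : ℕ) (G : Type) [Group G] [Finite G] (R : Subgroup G), Pr n s m u G R →
    dS R j = ⊥ → (Nat.card G).primeFactors.card ≤ u + j * (2 * m)) ∧
  ∀ n s m u k : ℕ, (∀ (G : Type) [Group G] [Finite G] (R : Subgroup G), Pr n s m u G R →
      ∀ V : Subgroup G, MinN V → V ≤ R → dS R k ≤ Subgroup.centralizer V) →
    ∀ (G : Type) [Group G] [Finite G] (R : Subgroup G), Pr n s m u G R →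
      (Nat.card G).primeFactors.card ≤ u + (k + 1) * (2 * m)

/-- SIZE: the order of the group from the size of the chief factors. -/
def SizeStmt : Prop :=
  (∀ (n s m u y r : ℕ) (Q : ∀ (G : Type) [Group G], Subgroup G → Prop),
    (∀ (G : Type) [Group G] [Finite G] (R N : Subgroup G) [N.Normal], Pr n s m u G R → Q G R →
      Q (G ⧸ N) (R.map (QuotientGroup.mk' N))) →
    (∀ (G : Type) [Group G] [Finite G] (R : Subgroup G), Pr n s m u G R → Q G R →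
      ∀ V : Subgroup G, MinN V → V ≤ R → Nat.card V ≤ 2 ^ y) →
    ∀ (G : Type) [Group G] [Finite G] (R : Subgroup G), Pr n s m u G R → Q G R →
      (Nat.card G).primeFactors.card ≤ r → Nat.card G ≤ 2 ^ (u + y * (r * KK n m))) ∧
  ∀ (n s m k : ℕ) (G : Type) [Group G] [Finite G] (B : Subgroup G), Hy n s m G → B.Normal →
    B ≤ Subgroup.centralizer B → B.index ≤ 2 ^ k →
    Nat.card G ≤ 2 ^ (k + (KK n m + k) * ((k + 2 * m) * KK n m))

/-- MIN: abelian chief factors are small. -/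
def MinStmt : Prop :=
  ∀ (n s m u M : ℕ) (G : Type) [Group G] [Finite G] (R : Subgroup G), Pr n s m u G R →
    KK n m ≤ M → u ≤ M → ∀ V : Subgroup G, MinN V → V ≤ R →
    Nat.card V ≤ 2 ^ (130 * M ^ 6 * (812500 * M ^ 6) ^ 4) ∧
      dS R (8 * (M * (812500 * M ^ 6)) ^ 2 + 1) ≤ Subgroup.centralizer V

end Pool.Agent.MP_adf6dd_al.Red
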